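import Pool.Agent.Helper33K9.HP.BF1

set_option autoImplicit false
set_option linter.unusedSectionVars false
set_option linter.unusedVariables false

/-! # From functional equations of `f + u v` to functional equations of `f` -/

namespace Pool.Agent.Helper33K9.HP

open MvPolynomial Pool.Agent.H628R4.TP

variable {σ : Type}

/-- the integral of `w ^ i` from `0` to `-f` -/
noncomputable def wt (f : MvPolynomial σ ℂ) (i : ℕ) : MvPolynomial σ ℂ :=
  (1 / ((i : ℂ) + 1)) • (-f) ^ (i + 1)

theorem wt_smul (f : MvPolynomial σ ℂ) (i : ℕ) : ((i : ℂ) + 1) • wt f i = (-f) ^ (i + 1) := by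
  have h : ((i : ℂ) + 1) ≠ 0 := by exact_mod_cast Nat.succ_ne_zero i
  rw [wt, smul_smul, mul_one_div_cancel h, one_smul]

theorem pderiv_wt (f : MvPolynomial σ ℂ) (i : ℕ) (k : σ) :
    pderiv k (wt f i) = -((-f) ^ i * pderiv k f) := by
  have h : ((i : ℂ) + 1) ≠ 0 := by exact_mod_cast Nat.succ_ne_zero i
  have h1 := congrArg (pderiv k) (wt_smul f i)
  rw [Derivation.map_smul, Derivation.leibniz_pow, Nat.add_sub_cancel, Derivation.map_neg] at h1
  have h2 : ((i : ℂ) + 1) • pderiv k (wt f i) = ((i : ℂ) + 1) • -((-f) ^ i * pderiv k f) := by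
    rw [h1, smul_eq_C_mul, map_add, map_natCast, map_one, nsmul_eq_mul, smul_eq_mul]
    push_cast
    ring
  have h3 := congrArg (fun x => ((i : ℂ) + 1)⁻¹ • x) h2
  simp only [smul_smul, inv_mul_cancel₀ h, one_smul] at h3
  exact h3

/-- the functional `u ^ i v ^ j ↦ δ_{i j} (-f) ^ (i + 1) / (i + 1)` -/
noncomputable def Lam (f : MvPolynomial σ ℂ) :
    MvPolynomial (σ ⊕ Bool) ℂ →ₗ[ℂ] MvPolynomial σ ℂ :=
  (basisMonomials (σ ⊕ Bool) ℂ).constr ℂ fun m =>
    if m (Sum.inr false) = m (Sum.inr true) then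
      monomial (m.comapDomain Sum.inl Sum.inl_injective.injOn) (1 : ℂ) * wt f (m (Sum.inr false))
    else 0

theorem Lam_monomial (f : MvPolynomial σ ℂ) (m : σ ⊕ Bool →₀ ℕ) :
    Lam f (monomial m 1) = if m (Sum.inr false) = m (Sum.inr true) then
      monomial (m.comapDomain Sum.inl Sum.inl_injective.injOn) (1 : ℂ) * wt f (m (Sum.inr false))
    else 0 := by
  have h := (basisMonomials (σ ⊕ Bool) ℂ).constr_basis ℂ (fun m =>
    if m (Sum.inr false) = m (Sum.inr true) then
      monomial (m.comapDomain Sum.inl Sum.inl_injective.injOn) (1 : ℂ) * wt f (m (Sum.inr false))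
    else 0) m
  rw [coe_basisMonomials] at h
  exact h

theorem Lam_X (f : MvPolynomial σ ℂ) (k : σ) (p : MvPolynomial (σ ⊕ Bool) ℂ) :
    Lam f (X (Sum.inl k) * p) = X k * Lam f p := by
  classical
  have h : (Lam f).comp (LinearMap.mulLeft ℂ (X (Sum.inl k))) =
      (LinearMap.mulLeft ℂ (X k)).comp (Lam f) := by
    refine (basisMonomials (σ ⊕ Bool) ℂ).ext fun m => ?_
    rw [coe_basisMonomials, LinearMap.comp_apply, LinearMap.comp_apply,
      LinearMap.mulLeft_apply, LinearMap.mulLeft_apply, X, monomial_mul, one_mul, Lam_monomial,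
      Lam_monomial]
    have h1 : (Finsupp.single (Sum.inl k) 1 + m : σ ⊕ Bool →₀ ℕ) (Sum.inr false) =
        m (Sum.inr false) := by
      simp
    have h2 : (Finsupp.single (Sum.inl k) 1 + m : σ ⊕ Bool →₀ ℕ) (Sum.inr true) =
        m (Sum.inr true) := by
      simp
    rw [h1, h2]
    split_ifs with h3
    · have h4 : (Finsupp.single (Sum.inl k) 1 + m : σ ⊕ Bool →₀ ℕ).comapDomain Sum.inl
          Sum.inl_injective.injOn = Finsupp.single k 1 +
            m.comapDomain Sum.inl Sum.inl_injective.injOn := by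
        ext i
        rw [Finsupp.comapDomain_apply, Finsupp.add_apply, Finsupp.add_apply,
          Finsupp.comapDomain_apply]
        congr 1
        by_cases hik : k = i
        · subst hik
          simp
        · rw [Finsupp.single_apply, Finsupp.single_apply, if_neg hik,
            if_neg fun h => hik (Sum.inl_injective h)]
      rw [h4, ← mul_assoc, X, monomial_mul, one_mul]
    · rw [mul_zero]
  exact LinearMap.congr_fun h p

theorem Lam_ren (f a : MvPolynomial σ ℂ) (p : MvPolynomial (σ ⊕ Bool) ℂ) :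
    Lam f (rename Sum.inl a * p) = a * Lam f p := by
  induction a using MvPolynomial.induction_on generalizing p with
  | C c => rw [rename_C, ← smul_eq_C_mul, map_smul, smul_eq_C_mul]
  | add p q hp hq => rw [map_add, add_mul, map_add, hp, hq, add_mul]
  | mul_X q i hq => rw [map_mul (rename Sum.inl), rename_X, mul_assoc, hq, Lam_X, mul_assoc]

theorem Lam_UV (f : MvPolynomial σ ℂ) (i j : ℕ) :
    Lam f (U σ ^ i * V σ ^ j) = if i = j then wt f i else 0 := by
  classical
  rw [U, V, X_pow_eq_monomial, X_pow_eq_monomial, monomial_mul, one_mul, Lam_monomial]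
  have h1 : (Finsupp.single (Sum.inr false) i + Finsupp.single (Sum.inr true) j :
      σ ⊕ Bool →₀ ℕ) (Sum.inr false) = i := by
    simp
  have h2 : (Finsupp.single (Sum.inr false) i + Finsupp.single (Sum.inr true) j :
      σ ⊕ Bool →₀ ℕ) (Sum.inr true) = j := by
    simp
  rw [h1, h2]
  split_ifs
  · have h3 : (Finsupp.single (Sum.inr false) i + Finsupp.single (Sum.inr true) j :
        σ ⊕ Bool →₀ ℕ).comapDomain Sum.inl Sum.inl_injective.injOn = 0 := by
      ext k
      simp
    rw [h3]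
    exact one_mul _
  · rfl

theorem Lam_term (f a : MvPolynomial σ ℂ) (i j : ℕ) :
    Lam f (rename Sum.inl a * (U σ ^ i * V σ ^ j)) = if i = j then a * wt f i else 0 := by
  rw [Lam_ren, Lam_UV, mul_ite, mul_zero]

theorem term_induction {P : MvPolynomial (σ ⊕ Bool) ℂ → Prop}
    (h1 : ∀ (a : MvPolynomial σ ℂ) (i j : ℕ), P (rename Sum.inl a * (U σ ^ i * V σ ^ j)))
    (h2 : ∀ p q, P p → P q → P (p + q)) (p : MvPolynomial (σ ⊕ Bool) ℂ) : P p := by
  have h3 : p ∈ AddSubmonoid.closure (Set.range fun q : MvPolynomial σ ℂ × ℕ × ℕ =>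
      rename Sum.inl q.1 * (U σ ^ q.2.1 * V σ ^ q.2.2)) := by
    induction p using MvPolynomial.induction_on with
    | C c =>
      refine AddSubmonoid.subset_closure ⟨(C c, 0, 0), ?_⟩
      simp
    | add p q hp hq => exact AddSubmonoid.add_mem _ hp hq
    | mul_X p i hp =>
      induction hp using AddSubmonoid.closure_induction with
      | mem x hx =>
        obtain ⟨⟨a, k, l⟩, rfl⟩ := hx
        rcases i with i | i
        · refine AddSubmonoid.subset_closure ⟨(a * X i, k, l), ?_⟩
          simp only [map_mul, rename_X]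
          ring
        · rcases i with _ | _
          · refine AddSubmonoid.subset_closure ⟨(a, k + 1, l), ?_⟩
            simp only [U]
            ring
          · refine AddSubmonoid.subset_closure ⟨(a, k, l + 1), ?_⟩
            simp only [V]
            ring
      | zero =>
        rw [zero_mul]
        exact AddSubmonoid.zero_mem _
      | add x y _ _ hx hy =>
        rw [add_mul]
        exact AddSubmonoid.add_mem _ hx hy
  have h4 : P 0 := by
    have := h1 0 0 0
    simpa using this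
  induction h3 using AddSubmonoid.closure_induction with
  | mem x hx =>
    obtain ⟨⟨a, k, l⟩, rfl⟩ := hx
    exact h1 a k l
  | zero => exact h4
  | add x y _ _ hx hy => exact h2 x y hx hy

theorem hyp_term (f a : MvPolynomial σ ℂ) (i j : ℕ) :
    hyp f * (rename Sum.inl a * (U σ ^ i * V σ ^ j)) =
      rename Sum.inl (f * a) * (U σ ^ i * V σ ^ j) +
        rename Sum.inl a * (U σ ^ (i + 1) * V σ ^ (j + 1)) := by
  rw [hyp_eq, map_mul]
  ring

theorem Lam_dx (f : MvPolynomial σ ℂ) (k : σ) (q : MvPolynomial (σ ⊕ Bool) ℂ) :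
    Lam f (pderiv (Sum.inl k) (hyp f * q)) = pderiv k (Lam f (hyp f * q)) := by
  refine term_induction (P := fun q => Lam f (pderiv (Sum.inl k) (hyp f * q)) =
    pderiv k (Lam f (hyp f * q))) (fun a i j => ?_) (fun p q hp hq => ?_) q
  · rw [hyp_term, map_add, map_add, map_add, map_add, dx_term, dx_term, Lam_term, Lam_term,
      Lam_term, Lam_term]
    by_cases h : i = j
    · subst h
      rw [if_pos rfl, if_pos rfl, if_pos rfl, if_pos rfl]
      simp only [Derivation.leibniz, smul_eq_mul, pderiv_wt]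
      ring
    · rw [if_neg h, if_neg (fun h' => h (Nat.succ_injective h')), if_neg h,
        if_neg (fun h' => h (Nat.succ_injective h')), map_zero]
  · simp only [mul_add, map_add, hp, hq]

theorem dU_term (a : MvPolynomial σ ℂ) (i j : ℕ) :
    pderiv (Sum.inr false) (rename Sum.inl a * (U σ ^ i * V σ ^ j)) =
      (i : ℂ) • (rename Sum.inl a * (U σ ^ (i - 1) * V σ ^ j)) := by
  have h1 : pderiv (Sum.inr false) (U σ ^ i * V σ ^ j) = (i : ℂ) • (U σ ^ (i - 1) * V σ ^ j) := by
    rw [Derivation.leibniz, Derivation.leibniz_pow, Derivation.leibniz_pow, dU_V, dU_U,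
      smul_zero, smul_zero, smul_zero, zero_add, smul_eq_mul, smul_eq_mul, mul_one, nsmul_eq_mul,
      smul_eq_C_mul, map_natCast]
    ring
  rw [Derivation.leibniz, h1, d_ren, smul_zero, add_zero, smul_eq_mul, mul_smul_comm]

theorem dV_term (a : MvPolynomial σ ℂ) (i j : ℕ) :
    pderiv (Sum.inr true) (rename Sum.inl a * (U σ ^ i * V σ ^ j)) =
      (j : ℂ) • (rename Sum.inl a * (U σ ^ i * V σ ^ (j - 1))) := by
  have h1 : pderiv (Sum.inr true) (U σ ^ i * V σ ^ j) = (j : ℂ) • (U σ ^ i * V σ ^ (j - 1)) := by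
    rw [Derivation.leibniz, Derivation.leibniz_pow, Derivation.leibniz_pow, dV_V, dV_U,
      smul_zero, smul_zero, smul_zero, add_zero, smul_eq_mul, smul_eq_mul, mul_one, nsmul_eq_mul,
      smul_eq_C_mul, map_natCast]
    ring
  rw [Derivation.leibniz, h1, d_ren, smul_zero, add_zero, smul_eq_mul, mul_smul_comm]

theorem fwt (f a : MvPolynomial σ ℂ) (i : ℕ) :
    ((i + 1 : ℕ) : ℂ) • (f * a * wt f i) + ((i + 1 + 1 : ℕ) : ℂ) • (a * wt f (i + 1)) = 0 := by
  have h1 := wt_smul f i
  have h2 := wt_smul f (i + 1)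
  rw [← mul_smul_comm, ← mul_smul_comm]
  push_cast at h1 h2 ⊢
  rw [h1, h2]
  ring

theorem Lam_dU (f : MvPolynomial σ ℂ) (q : MvPolynomial (σ ⊕ Bool) ℂ) :
    Lam f (pderiv (Sum.inr false) (hyp f * q)) = 0 := by
  refine term_induction (P := fun q => Lam f (pderiv (Sum.inr false) (hyp f * q)) = 0)
    (fun a i j => ?_) (fun p q hp hq => ?_) q
  · rw [hyp_term, map_add, dU_term, dU_term, map_add, map_smul, map_smul, Lam_term, Lam_term,
      Nat.add_sub_cancel]
    rcases i with _ | i
    · rw [if_neg (Nat.succ_ne_zero j).symm]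
      simp
    · rw [Nat.add_sub_cancel]
      by_cases h : i = j
      · subst h
        rw [if_pos rfl, if_pos rfl]
        exact fwt f a i
      · rw [if_neg h, if_neg (fun h' => h (Nat.succ_injective h')), smul_zero, smul_zero, add_zero]
  · simp only [mul_add, map_add, hp, hq, add_zero]

theorem Lam_dV (f : MvPolynomial σ ℂ) (q : MvPolynomial (σ ⊕ Bool) ℂ) :
    Lam f (pderiv (Sum.inr true) (hyp f * q)) = 0 := by
  refine term_induction (P := fun q => Lam f (pderiv (Sum.inr true) (hyp f * q)) = 0)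
    (fun a i j => ?_) (fun p q hp hq => ?_) q
  · rw [hyp_term, map_add, dV_term, dV_term, map_add, map_smul, map_smul, Lam_term, Lam_term,
      Nat.add_sub_cancel]
    rcases j with _ | j
    · rw [if_neg (Nat.succ_ne_zero i)]
      simp
    · rw [Nat.add_sub_cancel]
      by_cases h : i = j
      · subst h
        rw [if_pos rfl, if_pos rfl]
        exact fwt f a i
      · rw [if_neg h, if_neg (fun h' => h (Nat.succ_injective h')), smul_zero, smul_zero, add_zero]
  · simp only [mul_add, map_add, hp, hq, add_zero]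

/-! ### the values on the powers of `f + u v` -/

theorem dU_hyp (f : MvPolynomial σ ℂ) : pderiv (Sum.inr false) (hyp f) = V σ := by
  rw [hyp_eq, map_add, Derivation.leibniz, dU_V, dU_U, d_ren]
  simp

theorem Lam_rec (f : MvPolynomial σ ℂ) (i s : ℕ) :
    ((s : ℂ) + 1) • Lam f (U σ ^ (i + 1) * V σ ^ (i + 1) * hyp f ^ s) =
      -(((i : ℂ) + 1) • Lam f (U σ ^ i * V σ ^ i * hyp f ^ (s + 1))) := by
  have h1 := Lam_dU f (U σ ^ (i + 1) * V σ ^ i * hyp f ^ s)
  have h2 : pderiv (Sum.inr false) (hyp f * (U σ ^ (i + 1) * V σ ^ i * hyp f ^ s)) =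
      ((i : ℂ) + 1) • (U σ ^ i * V σ ^ i * hyp f ^ (s + 1)) +
        ((s : ℂ) + 1) • (U σ ^ (i + 1) * V σ ^ (i + 1) * hyp f ^ s) := by
    have h3 : hyp f * (U σ ^ (i + 1) * V σ ^ i * hyp f ^ s) =
        (rename Sum.inl 1 * (U σ ^ (i + 1) * V σ ^ i)) * hyp f ^ (s + 1) := by
      rw [map_one]
      ring
    rw [h3, Derivation.leibniz, dU_term, Derivation.leibniz_pow, dU_hyp, Nat.add_sub_cancel,
      Nat.add_sub_cancel, map_one, smul_eq_mul, smul_eq_mul, nsmul_eq_mul, smul_eq_C_mul,
      smul_eq_C_mul, smul_eq_C_mul, map_natCast, map_add, map_add, map_natCast, map_natCast,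
      map_one, smul_eq_mul]
    push_cast
    ring
  rw [h2, map_add, map_smul, map_smul] at h1
  exact eq_neg_of_add_eq_zero_right h1

theorem Lam_zero (f : MvPolynomial σ ℂ) (s : ℕ) :
    ((s : ℂ) + 1) • Lam f (hyp f ^ s) = -f ^ (s + 1) := by
  induction s with
  | zero =>
    have h1 := Lam_UV f 0 0
    rw [pow_zero, pow_zero, mul_one, if_pos rfl] at h1
    rw [pow_zero, h1, Nat.cast_zero, zero_add, one_smul, wt]
    simp
  | succ s ih =>
    have h1 := Lam_rec f 0 s
    have h2 : hyp f ^ (s + 1) = rename Sum.inl f * hyp f ^ s +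
        U σ ^ (0 + 1) * V σ ^ (0 + 1) * hyp f ^ s := by
      rw [pow_succ, hyp_eq]
      ring
    have h3 := congrArg (Lam f) h2
    rw [map_add, Lam_ren] at h3
    rw [pow_zero, pow_zero, one_mul, one_mul, Nat.cast_zero, zero_add (1 : ℂ), one_smul] at h1
    have h4 : ((s : ℂ) + 1) • Lam f (hyp f ^ (s + 1)) = f * (((s : ℂ) + 1) • Lam f (hyp f ^ s)) +
        ((s : ℂ) + 1) • Lam f (U σ ^ (0 + 1) * V σ ^ (0 + 1) * hyp f ^ s) := by
      conv_lhs => rw [h3]
      rw [smul_add, mul_smul_comm]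
    rw [ih] at h4
    rw [zero_add] at h4
    rw [h1] at h4
    have h5 : (((s + 1 : ℕ) : ℂ) + 1) • Lam f (hyp f ^ (s + 1)) =
        ((s : ℂ) + 1) • Lam f (hyp f ^ (s + 1)) + Lam f (hyp f ^ (s + 1)) := by
      push_cast
      rw [add_smul ((s : ℂ) + 1), one_smul]
    rw [h5, h4]
    ring

theorem Lam_off (f : MvPolynomial σ ℂ) (i j s : ℕ) (hij : i ≠ j) :
    Lam f (U σ ^ i * V σ ^ j * hyp f ^ s) = 0 := by
  rw [pow_hyp, Finset.mul_sum, map_sum]
  refine Finset.sum_eq_zero fun k _ => ?_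
  have h1 : U σ ^ i * V σ ^ j * (((s.choose k : ℕ) : ℂ) •
      (rename Sum.inl (f ^ (s - k)) * (U σ ^ k * V σ ^ k))) = ((s.choose k : ℕ) : ℂ) •
      (rename Sum.inl (f ^ (s - k)) * (U σ ^ (i + k) * V σ ^ (j + k))) := by
    rw [mul_smul_comm]
    congr 1
    ring
  rw [h1, map_smul, Lam_term, if_neg (fun h => hij (Nat.add_right_cancel h)), smul_zero]

/-! ### the sequences -/

theorem evS_unshift (p : Polynomial (weylS σ)) : ∃ q : Polynomial (weylS σ), ∀ (s : ℕ)
    (h : MvPolynomial σ ℂ), evS s q h = evS (s + 1) p h := by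
  refine ⟨∑ m ∈ p.support, cS ((Polynomial.X + 1) ^ m) * Polynomial.C (p.coeff m),
    fun s h => ?_⟩
  conv_rhs => rw [p.as_sum_support_C_mul_X_pow]
  rw [evS_sum, evS_sum]
  refine Finset.sum_congr rfl fun m _ => ?_
  rw [evS_mul_apply, evS_mul_apply, evS_cS, evS_C, evS_C, evS_X_pow_apply, map_smul,
    Polynomial.eval_pow, Polynomial.eval_add, Polynomial.eval_X, Polynomial.eval_one,
    Nat.cast_succ]

theorem QS.shift {f : MvPolynomial σ ℂ} {n : ℕ} {h : ℕ → MvPolynomial σ ℂ} (hh : QS f n h) :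
    QS f (n + 1) fun s => h (s + 1) := by
  obtain ⟨c, p, hc, hp⟩ := hh
  obtain ⟨q, hq⟩ := evS_unshift p
  refine ⟨c.comp (Polynomial.X + 1), q, fun z hz => ?_, fun s => ?_⟩
  · rw [Polynomial.eval_comp, Polynomial.eval_add, Polynomial.eval_X, Polynomial.eval_one] at hz
    obtain ⟨k, hk⟩ := hc _ hz
    refine ⟨k - 1, ?_⟩
    push_cast
    linear_combination hk
  · have h1 := hp (s + 1)
    have h2 : s + (n + 1) = s + 1 + n := by omega
    rw [hq, h2, ← h1, Polynomial.eval_comp, Polynomial.eval_add, Polynomial.eval_X,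
      Polynomial.eval_one, Nat.cast_succ]

theorem QS.mono {f : MvPolynomial σ ℂ} {n m : ℕ} {h : ℕ → MvPolynomial σ ℂ} (hh : QS f n h)
    (hm : m ≤ n) : QS f m h := by
  obtain ⟨c, p, hc, hp⟩ := hh
  refine ⟨c, p * Polynomial.C (mulW (f ^ (n - m))), hc, fun s => ?_⟩
  have h1 : s + n = n - m + (s + m) := by omega
  rw [evS_mul_apply, evS_C, mulW_apply, ← pow_add, ← h1, hp]

theorem qs_diag (f : MvPolynomial σ ℂ) (i : ℕ) :
    QS f (i + 1) fun s => Lam f (U σ ^ i * V σ ^ i * hyp f ^ s) := by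
  have hi : IntR (Polynomial.X + 1) := by
    have := intR_linear 1
    rwa [Int.cast_one, map_one] at this
  induction i with
  | zero =>
    refine QS.div (Polynomial.X + 1) hi ?_
    refine ((QS.pow (f := f) 1 le_rfl).const (-1)).congr 0 fun s _ => ?_
    rw [pow_zero, pow_zero, one_mul, one_mul, Polynomial.eval_add, Polynomial.eval_X,
      Polynomial.eval_one, Lam_zero, neg_smul, one_smul]
  | succ i ih =>
    refine QS.div (Polynomial.X + 1) hi ?_
    refine (ih.shift.const (-((i : ℂ) + 1))).congr 0 fun s _ => ?_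
    rw [Polynomial.eval_add, Polynomial.eval_X, Polynomial.eval_one, Lam_rec, neg_smul]

/-- the sequences whose integrals are in `D[s] f ^ (s + 2)` -/
def PiS (f : MvPolynomial σ ℂ) (H : ℕ → MvPolynomial (σ ⊕ Bool) ℂ) : Prop :=
  (∃ d : ℕ, ∀ s, hyp f ^ (s + 1 - d) ∣ H s) ∧
    ∀ i j : ℕ, QS f 2 fun s => Lam f (U σ ^ i * V σ ^ j * H s)

theorem piS_pow (f : MvPolynomial σ ℂ) : PiS f fun s => hyp f ^ (s + 1) := by
  refine ⟨⟨0, fun s => dvd_rfl⟩, fun i j => ?_⟩
  by_cases h : i = j
  · subst h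
    exact (qs_diag f i).shift.mono (by omega)
  · refine QS.zero.congr 0 fun s _ => ?_
    exact Lam_off f i j (s + 1) h

theorem dvd_deriv (g p : MvPolynomial (σ ⊕ Bool) ℂ) (i : σ ⊕ Bool) (n : ℕ) (h : g ^ n ∣ p) :
    g ^ (n - 1) ∣ pderiv i p := by
  obtain ⟨q, rfl⟩ := h
  rw [Derivation.leibniz, Derivation.leibniz_pow]
  refine dvd_add ?_ ?_
  · exact (pow_dvd_pow g (Nat.sub_le n 1)).mul_right _
  · rw [smul_eq_mul, smul_eq_mul]
    rw [nsmul_eq_mul]
    exact ((dvd_mul_right _ _).mul_left _).mul_left _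

theorem PiS.act {f : MvPolynomial σ ℂ} (Q : Module.End ℂ (MvPolynomial (σ ⊕ Bool) ℂ))
    (hQ : Q ∈ weylS (σ ⊕ Bool)) : ∀ H : ℕ → MvPolynomial (σ ⊕ Bool) ℂ, PiS f H →
      PiS f fun s => Q (H s) := by
  induction hQ using Algebra.adjoin_induction with
  | mem Q hQ =>
    rintro H ⟨⟨d, hd⟩, hH⟩
    rcases hQ with ⟨k, rfl⟩ | ⟨k, rfl⟩
    · refine ⟨⟨d, fun s => (hd s).mul_left _⟩, fun i j => ?_⟩
      rcases k with k | k | k
      · refine ((hH i j).mulp (X k)).congr 0 fun s _ => ?_
        have h1 : U σ ^ i * V σ ^ j * (LinearMap.mulLeft ℂ (X (Sum.inl k))) (H s) =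
            X (Sum.inl k) * (U σ ^ i * V σ ^ j * H s) := by
          rw [LinearMap.mulLeft_apply]
          ring
        rw [h1, Lam_X]
      · refine (hH (i + 1) j).congr 0 fun s _ => ?_
        congr 1
        change _ * (U σ * H s) = _
        ring
      · refine (hH i (j + 1)).congr 0 fun s _ => ?_
        congr 1
        change _ * (V σ * H s) = _
        ring
    · refine ⟨⟨d + 1, fun s => dvd_deriv _ _ _ _ (hd s)⟩, fun i j => ?_⟩
      have h1 : ∀ s, d ≤ s → ∃ q, U σ ^ i * V σ ^ j * H s = hyp f * q := by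
        intro s hs
        obtain ⟨q, hq⟩ := hd s
        refine ⟨hyp f ^ (s - d) * q * (U σ ^ i * V σ ^ j), ?_⟩
        have h2 : s + 1 - d = s - d + 1 := by omega
        rw [hq, h2, pow_succ]
        ring
      have h3 : ∀ p q : MvPolynomial (σ ⊕ Bool) ℂ, p * pderiv k q =
          pderiv k (p * q) - pderiv k p * q := by
        intro p q
        rw [Derivation.leibniz, smul_eq_mul, smul_eq_mul]
        ring
      rcases k with k | k | k
      · have h4 := (hH i j).op (Polynomial.C (dW k))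
        refine h4.congr d fun s hs => ?_
        obtain ⟨q, hq⟩ := h1 s hs
        have h5 : pderiv (Sum.inl k) (U σ ^ i * V σ ^ j) = 0 := by
          have := dx_term k 1 i j
          rw [map_one, one_mul] at this
          rw [this, ← C_1, pderiv_C, map_zero, zero_mul]
        rw [evS_C, dW_apply]
        change Lam f (U σ ^ i * V σ ^ j * pderiv (Sum.inl k) (H s)) = _
        rw [h3, h5, zero_mul, sub_zero, hq, Lam_dx]
      · have h4 := (hH (i - 1) j).const (-(i : ℂ))
        refine h4.congr d fun s hs => ?_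
        obtain ⟨q, hq⟩ := h1 s hs
        have h5 : pderiv (Sum.inr false) (U σ ^ i * V σ ^ j) =
            (i : ℂ) • (U σ ^ (i - 1) * V σ ^ j) := by
          have := dU_term (1 : MvPolynomial σ ℂ) i j
          rw [map_one, one_mul, one_mul] at this
          exact this
        change Lam f (U σ ^ i * V σ ^ j * pderiv (Sum.inr false) (H s)) = _
        rw [h3, h5, hq, map_sub, Lam_dU, zero_sub, smul_mul_assoc, map_smul, neg_smul]
      · have h4 := (hH i (j - 1)).const (-(j : ℂ))
        refine h4.congr d fun s hs => ?_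
        obtain ⟨q, hq⟩ := h1 s hs
        have h5 : pderiv (Sum.inr true) (U σ ^ i * V σ ^ j) =
            (j : ℂ) • (U σ ^ i * V σ ^ (j - 1)) := by
          have := dV_term (1 : MvPolynomial σ ℂ) i j
          rw [map_one, one_mul, one_mul] at this
          exact this
        change Lam f (U σ ^ i * V σ ^ j * pderiv (Sum.inr true) (H s)) = _
        rw [h3, h5, hq, map_sub, Lam_dV, zero_sub, smul_mul_assoc, map_smul, neg_smul]
  | algebraMap c =>
    rintro H ⟨⟨d, hd⟩, hH⟩
    refine ⟨⟨d, fun s => ?_⟩, fun i j => ?_⟩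
    · change _ ∣ (algebraMap ℂ (Module.End ℂ (MvPolynomial (σ ⊕ Bool) ℂ)) c) (H s)
      rw [Module.algebraMap_end_apply, smul_eq_C_mul]
      exact (hd s).mul_left _
    · refine ((hH i j).const c).congr 0 fun s _ => ?_
      change Lam f (_ * (algebraMap ℂ (Module.End ℂ (MvPolynomial (σ ⊕ Bool) ℂ)) c) (H s)) = _
      rw [Module.algebraMap_end_apply, mul_smul_comm, map_smul]
  | add Q1 Q2 _ _ h1 h2 =>
    intro H hH
    obtain ⟨⟨d1, h3⟩, h4⟩ := h1 H hH
    obtain ⟨⟨d2, h5⟩, h6⟩ := h2 H hH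
    refine ⟨⟨max d1 d2, fun s => ?_⟩, fun i j => ?_⟩
    · exact dvd_add ((pow_dvd_pow _ (by omega)).trans (h3 s))
        ((pow_dvd_pow _ (by omega)).trans (h5 s))
    · refine ((h4 i j).add (h6 i j)).congr 0 fun s _ => ?_
      change Lam f (_ * (Q1 (H s) + Q2 (H s))) = _
      rw [mul_add, map_add]
  | mul Q1 Q2 _ _ h1 h2 =>
    intro H hH
    exact h1 _ (h2 H hH)

/-- the value at `u = v = 0` -/
noncomputable def ev0 : MvPolynomial (σ ⊕ Bool) ℂ →ₐ[ℂ] MvPolynomial σ ℂ :=
  aeval (Sum.elim X fun _ => 0)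

theorem ev0_ren (a : MvPolynomial σ ℂ) : ev0 (rename Sum.inl a) = a := by
  rw [ev0, aeval_rename]
  have : (Sum.elim X fun _ => 0 : σ ⊕ Bool → MvPolynomial σ ℂ) ∘ Sum.inl = X := rfl
  rw [this]
  exact aeval_X_left_apply a

theorem qs_unit (f : MvPolynomial σ ℂ) (a : MvPolynomial (σ ⊕ Bool) ℂ) :
    QS f 2 fun s => Lam f (a * hyp f ^ s) - ev0 a * Lam f (hyp f ^ s) := by
  refine term_induction (P := fun a => QS f 2 fun s => Lam f (a * hyp f ^ s) -
    ev0 a * Lam f (hyp f ^ s)) (fun a i j => ?_) (fun p q hp hq => ?_) a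
  · have h1 : ∀ s, Lam f (rename Sum.inl a * (U σ ^ i * V σ ^ j) * hyp f ^ s) =
        a * Lam f (U σ ^ i * V σ ^ j * hyp f ^ s) := fun s => by rw [mul_assoc, Lam_ren]
    have h2 : ev0 (rename Sum.inl a * (U σ ^ i * V σ ^ j)) = if i = 0 ∧ j = 0 then a else 0 := by
      rw [map_mul, map_mul, map_pow, map_pow, ev0_ren]
      have h3 : ev0 (U σ) = 0 := by rw [ev0, U, aeval_X]; rfl
      have h4 : ev0 (V σ) = 0 := by rw [ev0, V, aeval_X]; rfl
      rw [h3, h4]
      rcases i with _ | i
      · rcases j with _ | j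
        · simp
        · simp
      · simp
    by_cases hij : i = j
    · subst hij
      rcases i with _ | i
      · refine QS.zero.congr 0 fun s _ => ?_
        rw [h1, h2, if_pos ⟨rfl, rfl⟩, pow_zero, pow_zero, one_mul, one_mul, sub_self]
      · refine (((qs_diag f (i + 1)).mono (by omega)).mulp a).congr 0 fun s _ => ?_
        rw [h1, h2, if_neg (by omega), zero_mul, sub_zero]
    · refine QS.zero.congr 0 fun s _ => ?_
      rw [h1, h2, if_neg (by omega), zero_mul, sub_zero, Lam_off f i j s hij, mul_zero]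
  · refine (hp.add hq).congr 0 fun s _ => ?_
    rw [add_mul, map_add, map_add, add_mul]
    ring

/-- **A functional equation of `f`**, from one of `f + u v`. -/
theorem UB_of_hyp {f : MvPolynomial σ ℂ} {b : Polynomial ℂ} {a : MvPolynomial (σ ⊕ Bool) ℂ}
    (hb : UB a (hyp f) b) : ∃ c : Polynomial ℂ, IntR c ∧
      UB (ev0 a) f (c * b.comp (Polynomial.X - 1)) := by
  obtain ⟨p, hp⟩ := hb
  have h1 : QS f 2 fun s => Lam f (evS s p (hyp f ^ (s + 1))) := by
    have h2 : ∀ s, Lam f (evS s p (hyp f ^ (s + 1))) = ∑ m ∈ p.support,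
        ((Polynomial.X ^ m : Polynomial ℂ).eval (s : ℂ)) •
          Lam f (U σ ^ 0 * V σ ^ 0 * (p.coeff m : Module.End ℂ (MvPolynomial (σ ⊕ Bool) ℂ))
            (hyp f ^ (s + 1))) := by
      intro s
      conv_lhs => rw [p.as_sum_support_C_mul_X_pow]
      rw [evS_sum, map_sum]
      refine Finset.sum_congr rfl fun m _ => ?_
      rw [evS_mul_apply, evS_C, evS_X_pow_apply, map_smul, map_smul, pow_zero, pow_zero, one_mul,
        one_mul, Polynomial.eval_pow, Polynomial.eval_X]
    simp only [h2]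
    refine QS.sum _ _ fun m _ => ?_
    exact ((PiS.act _ (p.coeff m).2 _ (piS_pow f)).2 0 0).smul _
  have h2 : QS f 2 fun s => C (b.eval (s : ℂ)) * (ev0 a * Lam f (hyp f ^ s)) := by
    have h3 := ((qs_unit f a).smul b).const (-1)
    refine (h1.add h3).congr 0 fun s _ => ?_
    rw [← hp, ← smul_eq_C_mul (a * hyp f ^ s), map_smul, ← smul_eq_C_mul, smul_sub, neg_smul,
      one_smul]
    abel
  have h3 : QS f 2 fun s => C (b.eval (s : ℂ)) * (ev0 a * f ^ (s + 1)) := by
    have h4 := (h2.smul (Polynomial.X + 1)).const (-1)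
    refine h4.congr 0 fun s _ => ?_
    rw [Polynomial.eval_add, Polynomial.eval_X, Polynomial.eval_one, ← mul_smul_comm,
      ← mul_smul_comm ((s : ℂ) + 1) (ev0 a), Lam_zero, neg_smul, one_smul]
    ring
  obtain ⟨c, q, hc, hq⟩ := h3
  obtain ⟨q', hq'⟩ := evS_shift q
  refine ⟨Polynomial.X * c.comp (Polynomial.X - 1), ?_, cS Polynomial.X * q', fun s => ?_⟩
  · refine IntR.mul ?_ ?_
    · have := intR_linear 0
      rwa [Int.cast_zero, map_zero, add_zero] at this
    · intro z hz
      rw [Polynomial.eval_comp, Polynomial.eval_sub, Polynomial.eval_X, Polynomial.eval_one] at hz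
      obtain ⟨k, hk⟩ := hc _ hz
      refine ⟨k + 1, ?_⟩
      push_cast
      linear_combination hk
  · rw [evS_mul_apply, evS_cS]
    rcases s with _ | s
    · simp
    · rw [hq']
      have h4 := hq s
      have h5 : s + 1 + 1 = s + 2 := rfl
      rw [h5, ← h4, smul_smul]
      change _ = _ • (C (b.eval (s : ℂ)) * (ev0 a * f ^ (s + 1)))
      rw [← smul_eq_C_mul, ← smul_eq_C_mul, smul_smul]
      congr 1
      simp only [Polynomial.eval_mul, Polynomial.eval_comp, Polynomial.eval_sub, Polynomial.eval_X,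
        Polynomial.eval_one]
      push_cast
      rw [add_sub_cancel_right]

end Pool.Agent.Helper33K9.HP
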