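import Pool.Agent.Helper33K9.HP.Defs
import Pool.Agent.H628R4.TP.LocDefs

set_option autoImplicit false

/-! # The motivic monodromy conjecture at the origin for a polynomial -/

namespace Pool.Agent.Helper33K9.HP

open MvPolynomial Pool.Agent.H628R4.TP Pool.Agent.W428.MOT Pool.Agent.TH192.MT

/-- Every `b` with `b(s) f ^ s = P(s) f ^ (s + 1)`, `P(s)` a polynomial in `s` whose coefficients are
differential operators with formal power series coefficients at the origin, has a root in `c + ℤ`. As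
these `b` are the multiples of the local Bernstein-Sato polynomial of `f` at the origin, this means
that `exp(2πic)` is `exp(2πiα)` for a root `α` of it, so that (Malgrange, Kashiwara) `exp(2πic)` is an
eigenvalue of the monodromy of `f` at points `x` of `f = 0` in each neighbourhood of the origin. -/
def Eig0 {σ : Type} (f : MvPolynomial σ ℂ) (c : ℂ) : Prop :=
  ∀ b : Polynomial ℂ, IsLocalBFunction f b → ∃ k : ℤ, b.eval (c + k) = 0

/-- The motivic monodromy conjecture at the origin for `f`: there is a finite set of pairs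
`(a, b) = (-σ, m)`, `σ, m > 0`, such that `exp(2πi a / b)` is a monodromy eigenvalue of `f` at points
of `f = 0` in each neighbourhood of the origin, and the local motivic zeta function of `f` is in the
ring generated by `T` and the `1 / (1 - 𝕃 ^ a T ^ b)`. -/
def MMC {σ : Type} [Fintype σ] (f : MvPolynomial σ ℂ) : Prop :=
  ∃ S : Finset (ℤ × ℤ), (∀ p ∈ S, p.1 < 0 ∧ 0 < p.2 ∧ Eig0 f ((p.1 : ℂ) / p.2)) ∧
    zetaO f ∈ ratRing ℂ (S : Set (ℤ × ℤ))

/-- The motivic monodromy conjecture at the origin for `f`, where the numbers `a` in the pairs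
`(a, b)` may be any integers. -/
def WMMC {σ : Type} [Fintype σ] (f : MvPolynomial σ ℂ) : Prop :=
  ∃ S : Finset (ℤ × ℤ), (∀ p ∈ S, 0 < p.2 ∧ Eig0 f ((p.1 : ℂ) / p.2)) ∧
    zetaO f ∈ ratRing ℂ (S : Set (ℤ × ℤ))

/-- `𝕃⁻¹` -/
noncomputable def iL : MK ℂ := (((Lu ℂ)⁻¹ : (MK ℂ)ˣ) : MK ℂ)

/-- The power series `1 - c T`. -/
noncomputable def omT (c : MK ℂ) : PowerSeries (MK ℂ) := 1 - PowerSeries.C c * PowerSeries.X

/-- The relation
`(1 - 𝕃⁻¹ T)(1 - 𝕃^(-m) T) B(T) = 𝕃^(-m) (1 - T)(1 - 𝕃^(-m-1) T) A(𝕃^(-m) T) + 𝕃^(-n-2m) (1 - 𝕃⁻¹)(1 - 𝕃^(-m)) T²`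
between two power series with coefficients in `𝓜_ℂ`. -/
def ZRel (n m : ℕ) (A B : PowerSeries (MK ℂ)) : Prop :=
  omT iL * omT (iL ^ m) * B =
    PowerSeries.C (iL ^ m) * omT 1 * omT (iL ^ (m + 1)) * PowerSeries.rescale (iL ^ m) A +
      PowerSeries.C (iL ^ (n + 2 * m) * (1 - iL) * (1 - iL ^ m)) * PowerSeries.X ^ 2

/-- The polynomial `h(x) + ∑_k v_k (x_{n + k} - x_{a k} x_{b k})` in the variables `x_i`, `i < n + r`
(`Sum.inl i`), and `v_k`, `k < r` (`Sum.inr k`). -/
noncomputable def cubicH {n r : ℕ} (h : MvPolynomial (Fin (n + r)) ℂ) (a b : Fin r → Fin (n + r)) :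
    MvPolynomial (Fin (n + r) ⊕ Fin r) ℂ :=
  rename Sum.inl h +
    ∑ k, X (Sum.inr k) * (X (Sum.inl (Fin.natAdd n k)) - X (Sum.inl (a k)) * X (Sum.inl (b k)))

end Pool.Agent.Helper33K9.HP
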