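import Pool.Agent.Helper33K9.HP.Ser
import Pool.Agent.TH192.MU.Spec

set_option autoImplicit false
set_option linter.unusedSectionVars false
set_option linter.unusedVariables false

/-! # The topological zeta function of `f + u v` -/

namespace Pool.Agent.Helper33K9.HP

open MvPolynomial Pool.Agent.W428.MOT Pool.Agent.TH192.MT Pool.Agent.TH192.MU
  Pool.Agent.TH192.DT

/-! ### the motivic zeta function -/

section mot

variable {K : Type} [Field K] [CharZero K] {σ : Type} [Fintype σ]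

theorem zetaM_eq_zz (M : Meas K (MK K)) (hM : ∀ (ι : Type) [Fintype ι] (S : Set (Pt K ι)),
    M.χ ι S = algebraMap (K0 K) (MK K) (cls ι S)) (f : MvPolynomial σ K) (W : Set (Pt K σ)) :
    zetaM f W {c | c ≠ 0} = zz M (((Lu K)⁻¹ : (MK K)ˣ) : MK K) f W := by
  unfold zetaM zz aa
  congr 1
  funext d
  rw [hM, inv_pow_eq, Nat.mul_comm]

/-- **The motivic zeta function of `f + u v`.** -/
theorem zetaM_hyp (f : MvPolynomial σ K) : zetaM (hyp f) Set.univ {c | c ≠ 0} =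
    PowerSeries.rescale (((Lu K)⁻¹ : (MK K)ˣ) : MK K)
      (PowerSeries.C ((Lu K : (MK K)ˣ) : MK K) * zetaM f Set.univ {c | c ≠ 0} +
        PowerSeries.C ((((Lu K : (MK K)ˣ) : MK K) - 1) ^ 2) * (g1 (MK K) * g1 (MK K)) *
        (PowerSeries.C (((Lu K : (MK K)ˣ) : MK K) ^ Fintype.card σ) -
          PowerSeries.X * zetaM f Set.univ {c | c ≠ 0})) := by
  obtain ⟨M, hL, hM⟩ := exists_meas K
  have hv : M.L * (((Lu K)⁻¹ : (MK K)ˣ) : MK K) = 1 := by rw [hL, Units.mul_inv]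
  have h1 := zz_hyp M _ hv f (Constr.univ (K := K) (ι := σ))
  have h2 : WW (Set.univ : Set (Pt K σ)) 0 = Set.univ := by
    ext w
    simp [WW]
  rw [h2, bb_univ, hL] at h1
  rw [zetaM_eq_zz M hM, zetaM_eq_zz M hM, h1]

end mot

/-! ### specialisation -/

section spec

variable {R : Type} [CommRing R] {u : Rˣ} {ε : R →+* ℂ}

theorem coe_comp (P : Polynomial R) (a : R) :
    ((P.comp (Polynomial.C a * Polynomial.X) : Polynomial R) : PowerSeries R) =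
      PowerSeries.rescale a (P : PowerSeries R) := by
  ext n
  rw [Polynomial.coeff_coe, Polynomial.comp_C_mul_X_coeff, PowerSeries.coeff_rescale,
    Polynomial.coeff_coe, mul_comm]

theorem specAt_rescale (Z : PowerSeries R) (a : Rˣ) (s t : ℕ) (c : ℂ)
    (h : a * (u⁻¹) ^ t = (u⁻¹) ^ s) (hZ : SpecAt u ε Z s c) :
    SpecAt u ε (PowerSeries.rescale (a : R) Z) t c := by
  obtain ⟨P, Q, x, y, h1, h2, h3, h4, h5⟩ := hZ
  have h6 : ∀ P : Polynomial R, (P.comp (Polynomial.C (a : R) * Polynomial.X)).eval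
      (((u⁻¹) ^ t : Rˣ) : R) = P.eval (((u⁻¹) ^ s : Rˣ) : R) := by
    intro P
    rw [Polynomial.eval_comp, Polynomial.eval_mul, Polynomial.eval_C, Polynomial.eval_X, ← h,
      Units.val_mul]
  refine ⟨P.comp (Polynomial.C (a : R) * Polynomial.X), Q.comp (Polynomial.C (a : R) *
    Polynomial.X), x, y, ?_, ?_, ?_, h4, h5⟩
  · rw [coe_comp, coe_comp, ← h1, map_mul]
  · rw [h6]
    exact h2
  · rw [h6, h6]
    exact h3

theorem rescale_rescale_unit (a : Rˣ) (Z : PowerSeries R) :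
    PowerSeries.rescale (a : R) (PowerSeries.rescale ((a⁻¹ : Rˣ) : R) Z) = Z := by
  ext n
  rw [PowerSeries.coeff_rescale, PowerSeries.coeff_rescale, ← mul_assoc, ← mul_pow,
    Units.mul_inv, one_pow, one_mul]

theorem specAt_down (Z : PowerSeries R) (s : ℕ) (c : ℂ) :
    SpecAt u ε (PowerSeries.rescale ((u⁻¹ : Rˣ) : R) Z) s c ↔ SpecAt u ε Z (s + 1) c := by
  constructor
  · intro h
    have h1 := specAt_rescale _ u s (s + 1) c (by rw [pow_succ', mul_inv_cancel_left]) h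
    rwa [rescale_rescale_unit] at h1
  · intro h
    exact specAt_rescale _ u⁻¹ (s + 1) s c (by rw [pow_succ']) h

variable [IsDomain R]

theorem specAt_neg {Z : PowerSeries R} {s : ℕ} {c : ℂ} (h : SpecAt u ε Z s c) :
    SpecAt u ε (-Z) s (-c) := by
  obtain ⟨P, Q, x, y, h1, h2, h3, h4, h5⟩ := h
  refine ⟨-P, Q, -x, y, ?_, h2, ?_, h4, ?_⟩
  · rw [mul_neg, h1, Polynomial.coe_neg]
  · rw [Polynomial.eval_neg, neg_mul, h3, neg_mul]
  · rw [map_neg, h5, neg_mul]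

theorem specAt_sub {Z Z' : PowerSeries R} {s : ℕ} {c c' : ℂ} (h : SpecAt u ε Z s c)
    (h' : SpecAt u ε Z' s c') : SpecAt u ε (Z - Z') s (c - c') := by
  rw [sub_eq_add_neg, sub_eq_add_neg]
  exact specAt_add h (specAt_neg h')

theorem specAt_div {A Z : PowerSeries R} {s : ℕ} {α β : ℂ} (hα : α ≠ 0)
    (hA : SpecAt u ε A s α) (hZ : SpecAt u ε (A * Z) s β) : SpecAt u ε Z s (β / α) := by
  obtain ⟨P, Q, x, y, h1, h2, h3, h4, h5⟩ := hA
  obtain ⟨P', Q', x', y', h1', h2', h3', h4', h5'⟩ := hZ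
  have hx : ε x ≠ 0 := by
    rw [h5]
    exact mul_ne_zero hα h4
  have hx0 : x ≠ 0 := by
    rintro rfl
    exact hx (map_zero _)
  have hP : P.eval (((u⁻¹) ^ s : Rˣ) : R) ≠ 0 := by
    intro h
    rw [h, zero_mul] at h3
    exact mul_ne_zero hx0 h2 h3.symm
  refine ⟨Q * P', P * Q', x' * y, y' * x, ?_, ?_, ?_, ?_, ?_⟩
  · rw [Polynomial.coe_mul, Polynomial.coe_mul, ← h1', ← h1]
    ring
  · rw [Polynomial.eval_mul]
    exact mul_ne_zero hP h2'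
  · rw [Polynomial.eval_mul, Polynomial.eval_mul]
    linear_combination (Q.eval (((u⁻¹) ^ s : Rˣ) : R) * x) * h3' -
      (x' * Q'.eval (((u⁻¹) ^ s : Rˣ) : R)) * h3
  · rw [map_mul]
    exact mul_ne_zero h4' hx
  · rw [map_mul, map_mul, h5, h5']
    field_simp

theorem map_rescale' {S : Type} [CommRing S] (E : S →+* R) (a : S) (Z : PowerSeries S) :
    PowerSeries.map E (PowerSeries.rescale a Z) = PowerSeries.rescale (E a) (PowerSeries.map E Z) := by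
  ext n
  rw [PowerSeries.coeff_map, PowerSeries.coeff_rescale, PowerSeries.coeff_rescale,
    PowerSeries.coeff_map, map_mul, map_pow]

theorem map_g1 {S : Type} [CommRing S] (E : S →+* R) : PowerSeries.map E (g1 S) = g1 R := by
  ext n
  rw [PowerSeries.coeff_map, g1, g1, PowerSeries.coeff_mk, PowerSeries.coeff_mk, map_one]

theorem specAt_g1 (h1 : ε (u : R) = 1) (hu : (u : R) ≠ 1) (s : ℕ) :
    SpecAt u ε (PowerSeries.rescale ((u⁻¹ : Rˣ) : R) (PowerSeries.C ((u : R) - 1) * g1 R)) s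
      (1 / ((s : ℂ) + 1)) := by
  have h2 := specAt_geo (u := u) (ε := ε) h1 hu (a := -1) (b := 1) (by norm_num) (by norm_num)
    (Z := PowerSeries.rescale ((u⁻¹ : Rˣ) : R) (PowerSeries.C ((u : R) - 1) * g1 R)) ?_ s
  · have h3 : (1 : ℂ) / (((1 : ℤ) : ℂ) * s - ((-1 : ℤ) : ℂ)) = 1 / ((s : ℂ) + 1) := by
      push_cast
      ring
    rw [h3] at h2
    exact h2
  · have h3 : (1 - PowerSeries.C ((u ^ (-1 : ℤ) : Rˣ) : R) * PowerSeries.X ^ (1 : ℤ).toNat) =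
        PowerSeries.rescale ((u⁻¹ : Rˣ) : R) (1 - PowerSeries.X) := by
      rw [map_sub, map_one, PowerSeries.rescale_X, zpow_neg_one]
      simp
    rw [h3, ← map_mul]
    have h4 : (1 - PowerSeries.X) * (PowerSeries.C ((u : R) - 1) * g1 R) =
        PowerSeries.C ((u : R) - 1) := by
      rw [mul_left_comm, g1_mul, mul_one]
    rw [h4]
    ext n
    rw [PowerSeries.coeff_rescale, PowerSeries.coeff_C]
    split_ifs with h
    · rw [h, pow_zero, one_mul]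
    · rw [mul_zero]

end spec

section top

variable {R : Type} [CommRing R] [IsDomain R] (E : MK ℂ →+* R) (ε : R →+* ℂ)
  {σ : Type} [Fintype σ]

variable {E ε} (h1 : ε (E ((Lu ℂ : (MK ℂ)ˣ) : MK ℂ)) = 1) (hu : E ((Lu ℂ : (MK ℂ)ˣ) : MK ℂ) ≠ 1)
include h1 hu

theorem val_unique {f : MvPolynomial σ ℂ} {s : ℕ} {c c' : ℂ} (h : Val E ε f s c)
    (h' : Val E ε f s c') : c = c' := specAt_unique h h'

/-- the two parts of the zeta function -/
theorem map_zeta_hyp (f : MvPolynomial σ ℂ) :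
    ∃ G : PowerSeries R, (∀ s : ℕ, SpecAt (Units.map (E : MK ℂ →* R) (Lu ℂ)) ε G s
      (1 / ((s : ℂ) + 1))) ∧ PowerSeries.map E (zetaM (hyp f) Set.univ {c | c ≠ 0}) =
      (PowerSeries.C (E ((Lu ℂ : (MK ℂ)ˣ) : MK ℂ)) -
        G * G * (PowerSeries.C (E (((Lu ℂ)⁻¹ : (MK ℂ)ˣ) : MK ℂ)) * PowerSeries.X)) *
        PowerSeries.rescale (E (((Lu ℂ)⁻¹ : (MK ℂ)ˣ) : MK ℂ))
          (PowerSeries.map E (zetaM f Set.univ {c | c ≠ 0})) +
      G * G * PowerSeries.C (E (((Lu ℂ : (MK ℂ)ˣ) : MK ℂ) ^ Fintype.card σ)) := by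
  refine ⟨PowerSeries.rescale (E (((Lu ℂ)⁻¹ : (MK ℂ)ˣ) : MK ℂ))
    (PowerSeries.C (E ((Lu ℂ : (MK ℂ)ˣ) : MK ℂ) - 1) * g1 R), fun s => ?_, ?_⟩
  · exact specAt_g1 (u := Units.map (E : MK ℂ →* R) (Lu ℂ)) h1 hu s
  · rw [zetaM_hyp, map_rescale']
    simp only [map_add, map_mul, map_sub, map_pow, PowerSeries.map_C, PowerSeries.map_X, map_g1,
      map_one]
    rw [PowerSeries.rescale_X]
    have h2 : ∀ a b : R, PowerSeries.rescale a (PowerSeries.C b) = PowerSeries.C b := by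
      intro a b
      ext n
      rw [PowerSeries.coeff_rescale, PowerSeries.coeff_C]
      split_ifs with h
      · rw [h, pow_zero, one_mul]
      · rw [mul_zero]
    simp only [h2]
    ring

theorem val_up {f : MvPolynomial σ ℂ} {s : ℕ} {c : ℂ} (h : Val E ε f (s + 1) c) :
    Val E ε (hyp f) s (c + (1 / ((s : ℂ) + 1)) ^ 2 * (1 - c)) := by
  obtain ⟨G, hG, h2⟩ := map_zeta_hyp h1 hu f
  unfold Val at h ⊢
  rw [h2]
  have h3 := (specAt_down (u := Units.map (E : MK ℂ →* R) (Lu ℂ)) _ s c).2 h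
  have h4 := specAt_C (u := Units.map (E : MK ℂ →* R) (Lu ℂ)) (ε := ε)
    (E ((Lu ℂ : (MK ℂ)ˣ) : MK ℂ)) s
  have h5 := specAt_C (u := Units.map (E : MK ℂ →* R) (Lu ℂ)) (ε := ε)
    (E (((Lu ℂ)⁻¹ : (MK ℂ)ˣ) : MK ℂ)) s
  have h6 := specAt_C (u := Units.map (E : MK ℂ →* R) (Lu ℂ)) (ε := ε)
    (E (((Lu ℂ : (MK ℂ)ˣ) : MK ℂ) ^ Fintype.card σ)) s
  have h7 := specAt_X (u := Units.map (E : MK ℂ →* R) (Lu ℂ)) (ε := ε) h1 s
  have hinv : ε (E (((Lu ℂ)⁻¹ : (MK ℂ)ˣ) : MK ℂ)) = 1 := by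
    have h8 : ε (E (((Lu ℂ)⁻¹ : (MK ℂ)ˣ) : MK ℂ)) * ε (E ((Lu ℂ : (MK ℂ)ˣ) : MK ℂ)) = 1 := by
      rw [← map_mul, ← map_mul, Units.inv_mul, map_one, map_one]
    rwa [h1, mul_one] at h8
  rw [h1] at h4
  rw [hinv] at h5
  have hpow : ε (E (((Lu ℂ : (MK ℂ)ˣ) : MK ℂ) ^ Fintype.card σ)) = 1 := by
    rw [map_pow, map_pow, h1, one_pow]
  rw [hpow] at h6
  have h8 := specAt_add (specAt_mul (specAt_sub h4 (specAt_mul (specAt_mul (hG s) (hG s))
    (specAt_mul h5 h7))) h3) (specAt_mul (specAt_mul (hG s) (hG s)) h6)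
  have h9 : (1 - 1 / ((s : ℂ) + 1) * (1 / ((s : ℂ) + 1)) * (1 * 1)) * c +
      1 / ((s : ℂ) + 1) * (1 / ((s : ℂ) + 1)) * 1 =
      c + (1 / ((s : ℂ) + 1)) ^ 2 * (1 - c) := by ring
  rw [h9] at h8
  exact h8

theorem val_down {f : MvPolynomial σ ℂ} {s : ℕ} (hs : 0 < s) {c : ℂ}
    (h : Val E ε (hyp f) s c) : ∃ c', Val E ε f (s + 1) c' := by
  obtain ⟨G, hG, h2⟩ := map_zeta_hyp h1 hu f
  unfold Val at h ⊢
  rw [h2] at h
  have h4 := specAt_C (u := Units.map (E : MK ℂ →* R) (Lu ℂ)) (ε := ε)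
    (E ((Lu ℂ : (MK ℂ)ˣ) : MK ℂ)) s
  have h5 := specAt_C (u := Units.map (E : MK ℂ →* R) (Lu ℂ)) (ε := ε)
    (E (((Lu ℂ)⁻¹ : (MK ℂ)ˣ) : MK ℂ)) s
  have h6 := specAt_C (u := Units.map (E : MK ℂ →* R) (Lu ℂ)) (ε := ε)
    (E (((Lu ℂ : (MK ℂ)ˣ) : MK ℂ) ^ Fintype.card σ)) s
  have h7 := specAt_X (u := Units.map (E : MK ℂ →* R) (Lu ℂ)) (ε := ε) h1 s
  have hinv : ε (E (((Lu ℂ)⁻¹ : (MK ℂ)ˣ) : MK ℂ)) = 1 := by
    have h8 : ε (E (((Lu ℂ)⁻¹ : (MK ℂ)ˣ) : MK ℂ)) * ε (E ((Lu ℂ : (MK ℂ)ˣ) : MK ℂ)) = 1 := by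
      rw [← map_mul, ← map_mul, Units.inv_mul, map_one, map_one]
    rwa [h1, mul_one] at h8
  rw [h1] at h4
  rw [hinv] at h5
  have h8 := specAt_sub h4 (specAt_mul (specAt_mul (hG s) (hG s)) (specAt_mul h5 h7))
  have h9 := specAt_sub h (specAt_mul (specAt_mul (hG s) (hG s)) h6)
  rw [add_sub_cancel_right] at h9
  have h10 : (1 : ℂ) - 1 / ((s : ℂ) + 1) * (1 / ((s : ℂ) + 1)) * (1 * 1) ≠ 0 := by
    have h11 : ((s : ℂ) + 1) ≠ 0 := by exact_mod_cast Nat.succ_ne_zero s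
    have h12 : (s : ℂ) ≠ 0 := by exact_mod_cast hs.ne'
    have h13 : (s : ℂ) + 2 ≠ 0 := by exact_mod_cast (Nat.succ_ne_zero (s + 1))
    have h14 : (1 : ℂ) - 1 / ((s : ℂ) + 1) * (1 / ((s : ℂ) + 1)) * (1 * 1) =
        (s : ℂ) * (s + 2) / (s + 1) ^ 2 := by
      field_simp
      ring
    rw [h14]
    exact div_ne_zero (mul_ne_zero h12 h13) (pow_ne_zero _ h11)
  exact ⟨_, (specAt_down (u := Units.map (E : MK ℂ →* R) (Lu ℂ)) _ s _).1
    (specAt_div h10 h8 h9)⟩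

end top

end Pool.Agent.Helper33K9.HP
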