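import Pool.Agent.Helper33K9.HP.Cubic
import Pool.Agent.Helper33K9.HP.Top
import Pool.Agent.Helper33K9.HP.BF2
import Pool.Agent.W574.HS.Minus

set_option autoImplicit false
set_option linter.unusedSectionVars false
set_option linter.unusedVariables false

/-! # The topological monodromy conjecture for `f` and for `f + u v` -/

namespace Pool.Agent.Helper33K9.HP

open MvPolynomial Pool.Agent.H628R4.TP Pool.Agent.W428.MOT Pool.Agent.TH192.MT
  Pool.Agent.TH192.MU

/-! ### the polynomials `f + u v` -/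

section basic

variable {σ : Type}

theorem eval_hyp (f : MvPolynomial σ ℂ) (x : σ → ℂ) (u v : ℂ) :
    eval (Sum.elim x fun b => if b = true then v else u) (hyp f) = eval x f + u * v := by
  rw [hyp, map_add, map_mul, eval_X, eval_X, eval_rename]
  rfl

theorem hyp_ne_zero (f : MvPolynomial σ ℂ) : hyp f ≠ 0 := by
  intro h
  have h1 := eval_hyp f 0 1 (1 - eval 0 f)
  rw [h, map_zero] at h1
  have h2 : eval (0 : σ → ℂ) f + 1 * (1 - eval 0 f) = 1 := by ring
  rw [h2] at h1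
  exact zero_ne_one h1

theorem hyp_not_isUnit (f : MvPolynomial σ ℂ) : ¬ IsUnit (hyp f) := by
  intro h
  have h1 := h.map (eval (Sum.elim (0 : σ → ℂ) fun b => if b = true then -(eval 0 f) else 1))
  rw [eval_hyp] at h1
  have h2 : eval (0 : σ → ℂ) f + 1 * -(eval 0 f) = 0 := by ring
  rw [h2] at h1
  exact not_isUnit_zero h1

theorem UB.neg_one {H f : MvPolynomial σ ℂ} {b : Polynomial ℂ} (h : UB H f b) (hf : f ≠ 0)
    (hH : ¬ f ∣ H) : b.eval (-1) = 0 := by
  obtain ⟨P, hP⟩ := (sum_iff (fun s => C (b.eval (s : ℂ)) * (H * f ^ s))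
    (fun s => f ^ (s + 1))).2 h
  refine Pool.Agent.W574.HS.minus_one f H hf hH b P fun s => ?_
  rw [← hP s]
  ring

theorem isB_neg_one {f : MvPolynomial σ ℂ} {b : Polynomial ℂ} (h : IsBFunction f b) (hf : f ≠ 0)
    (hu : ¬ IsUnit f) : b.eval (-1) = 0 :=
  ((isB_UB f b).1 h).neg_one hf fun h' => hu (isUnit_of_dvd_one h')

/-! ### eigenvalues -/

theorem eig_int {f : MvPolynomial σ ℂ} (hf : f ≠ 0) (hu : ¬ IsUnit f) (k : ℤ) :
    Eig f (k : ℂ) := by
  intro b hb
  refine ⟨-1 - k, ?_⟩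
  have h1 : (k : ℂ) + ((-1 - k : ℤ) : ℂ) = -1 := by
    push_cast
    ring
  rw [h1]
  exact isB_neg_one hb hf hu

theorem eig_shift {f : MvPolynomial σ ℂ} {c : ℂ} (k : ℤ) (h : Eig f (c + k)) : Eig f c := by
  intro b hb
  obtain ⟨l, hl⟩ := h b hb
  refine ⟨k + l, ?_⟩
  push_cast
  rw [← add_assoc]
  exact hl

/-- **The eigenvalues of `f` and of `f + u v`.** -/
theorem eig_hyp {f : MvPolynomial σ ℂ} (hf : f ≠ 0) (hu : ¬ IsUnit f) (c : ℂ) :
    Eig (hyp f) c ↔ Eig f c := by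
  constructor
  · intro h b hb
    have h1 : IsBFunction (hyp f) ((Polynomial.X + 1) * b.comp (Polynomial.X + 1)) := by
      rw [isB_UB] at hb ⊢
      have h2 := UB_hyp hb
      rwa [map_one] at h2
    obtain ⟨k, hk⟩ := h _ h1
    simp only [Polynomial.eval_mul, Polynomial.eval_add, Polynomial.eval_X, Polynomial.eval_one,
      Polynomial.eval_comp] at hk
    rcases mul_eq_zero.1 hk with h2 | h2
    · refine ⟨k, ?_⟩
      have h3 : c + k = -1 := by linear_combination h2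
      rw [h3]
      exact isB_neg_one hb hf hu
    · refine ⟨k + 1, ?_⟩
      push_cast
      rw [← add_assoc]
      exact h2
  · intro h b hb
    obtain ⟨d, hd, h1⟩ := UB_of_hyp ((isB_UB _ _).1 hb)
    rw [map_one, ← isB_UB] at h1
    obtain ⟨k, hk⟩ := h _ h1
    simp only [Polynomial.eval_mul, Polynomial.eval_sub, Polynomial.eval_X, Polynomial.eval_one,
      Polynomial.eval_comp] at hk
    rcases mul_eq_zero.1 hk with h2 | h2
    · obtain ⟨l, hl⟩ := hd _ h2
      have h3 : c = ((l - k : ℤ) : ℂ) := by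
        push_cast
        linear_combination hl
      rw [h3]
      exact eig_int (hyp_ne_zero f) (hyp_not_isUnit f) _ b hb
    · refine ⟨k - 1, ?_⟩
      push_cast
      rw [add_sub_assoc] at h2
      exact h2

theorem eig_iso {σ τ : Type} [Fintype τ] (Φ : MvPolynomial σ ℂ ≃ₐ[ℂ] MvPolynomial τ ℂ)
    (f : MvPolynomial σ ℂ) (c : ℂ) (h : Eig (Φ f) c) : Eig f c := by
  intro b hb
  refine h b ?_
  rw [isB_UB] at hb ⊢
  have h1 := hb.iso Φ
  rwa [map_one] at h1

end basic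

/-! ### the topological zeta functions -/

section top

theorem exists_coprime (N D : Polynomial ℂ) (hD : D ≠ 0) :
    ∃ p q : Polynomial ℂ, IsCoprime p q ∧ p * D = N * q ∧ q ≠ 0 := by
  refine ⟨N / gcd N D, D / gcd N D, isCoprime_div_gcd_div_gcd hD, ?_, ?_⟩
  · have h1 := EuclideanDomain.mul_div_cancel' (gcd_ne_zero_of_right hD) (gcd_dvd_left N D)
    have h2 := EuclideanDomain.mul_div_cancel' (gcd_ne_zero_of_right hD) (gcd_dvd_right N D)
    linear_combination (D / gcd N D) * h1 - (N / gcd N D) * h2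
  · have h2 := EuclideanDomain.mul_div_cancel' (gcd_ne_zero_of_right hD) (gcd_dvd_right N D)
    intro h
    rw [h, mul_zero] at h2
    exact hD h2.symm

variable {R : Type} [CommRing R] [IsDomain R] {E : MK ℂ →+* R} {ε : R →+* ℂ}
  (h1 : ε (E ((Lu ℂ : (MK ℂ)ˣ) : MK ℂ)) = 1) (hu : E ((Lu ℂ : (MK ℂ)ˣ) : MK ℂ) ≠ 1)
  {σ : Type} [Fintype σ]

theorem coprime_ne {p q : Polynomial ℂ} (h : IsCoprime p q) (z : ℂ) (hz : q.eval z = 0) :
    p.eval z ≠ 0 := by
  obtain ⟨a, b, hab⟩ := h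
  intro h2
  have h3 := congrArg (Polynomial.eval z) hab
  rw [Polynomial.eval_add, Polynomial.eval_mul, Polynomial.eval_mul, h2, hz,
    Polynomial.eval_one] at h3
  simp at h3

theorem isTop_ne {f : MvPolynomial σ ℂ} {p q : Polynomial ℂ} (h : IsTop E ε f p q) :
    ∃ s₁ : ℕ, ∀ s : ℕ, s₁ ≤ s → q.eval (s : ℂ) ≠ 0 := by
  obtain ⟨h2, s₁, h3⟩ := h
  refine ⟨s₁, fun s hs h4 => ?_⟩
  obtain ⟨c, _, hc⟩ := h3 s hs
  rw [h4, mul_zero] at hc
  exact coprime_ne h2 _ h4 hc

/-- the relation between the topological zeta functions of `f` and of `f + u v` -/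
def TopRel (p q p' q' : Polynomial ℂ) : Prop :=
  p' * ((Polynomial.X + 1) ^ 2 * q.comp (Polynomial.X + 1)) =
    (q.comp (Polynomial.X + 1) + Polynomial.X * (Polynomial.X + 2) *
      p.comp (Polynomial.X + 1)) * q'

theorem TopRel.at {p q p' q' : Polynomial ℂ} (h : TopRel p q p' q') (z : ℂ) :
    p'.eval z * ((z + 1) ^ 2 * q.eval (z + 1)) =
      (q.eval (z + 1) + z * (z + 2) * p.eval (z + 1)) * q'.eval z := by
  have h2 := congrArg (Polynomial.eval z) h
  simp only [Polynomial.eval_mul, Polynomial.eval_add, Polynomial.eval_pow, Polynomial.eval_X,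
    Polynomial.eval_one, Polynomial.eval_comp, Polynomial.eval_ofNat] at h2
  exact h2

include h1 hu

/-- **The topological zeta function of `f + u v`.** -/
theorem isTop_up {f : MvPolynomial σ ℂ} {p q p' q' : Polynomial ℂ} (h : IsTop E ε f p q)
    (hc : IsCoprime p' q') (hr : TopRel p q p' q') : IsTop E ε (hyp f) p' q' := by
  obtain ⟨s₀, hs₀⟩ := isTop_ne h
  obtain ⟨h2, s₁, h3⟩ := h
  refine ⟨hc, max s₀ s₁, fun s hs => ?_⟩
  obtain ⟨c, hc1, hc2⟩ := h3 (s + 1) (by omega)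
  have hq := hs₀ (s + 1) (by omega)
  refine ⟨_, val_up h1 hu hc1, ?_⟩
  have h4 := hr.at (s : ℂ)
  push_cast at hc2 hq
  rw [hc2] at h4
  have h5 : ((s : ℂ) + 1) ≠ 0 := by exact_mod_cast Nat.succ_ne_zero s
  have h6 : (((s : ℂ) + 1) ^ 2 * q.eval ((s : ℂ) + 1)) ≠ 0 := mul_ne_zero (pow_ne_zero _ h5) hq
  apply mul_right_cancel₀ h6
  rw [h4]
  field_simp
  ring

theorem isTop_down {f : MvPolynomial σ ℂ} {p q p' q' : Polynomial ℂ}
    (h : IsTop E ε (hyp f) p' q') (hc : IsCoprime p q) (hr : TopRel p q p' q') :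
    IsTop E ε f p q := by
  obtain ⟨s₀, hs₀⟩ := isTop_ne h
  obtain ⟨h2, s₁, h3⟩ := h
  refine ⟨hc, max s₀ s₁ + 2, fun s hs => ?_⟩
  obtain ⟨t, rfl⟩ : ∃ t, s = t + 1 := ⟨s - 1, by omega⟩
  obtain ⟨c, hc1, hc2⟩ := h3 t (by omega)
  have hq := hs₀ t (by omega)
  obtain ⟨c', hc'⟩ := val_down h1 hu (by omega) hc1
  refine ⟨c', hc', ?_⟩
  have h4 := val_unique h1 hu hc1 (val_up h1 hu hc')
  have h5 := hr.at (t : ℂ)
  rw [hc2, h4] at h5
  have h6 : ((t : ℂ) + 1) ≠ 0 := by exact_mod_cast Nat.succ_ne_zero t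
  have h7 : (t : ℂ) ≠ 0 := by
    have : t ≠ 0 := by omega
    exact_mod_cast this
  have h8 : (t : ℂ) + 2 ≠ 0 := by exact_mod_cast (Nat.succ_ne_zero (t + 1))
  have h9 : ((t : ℂ) * (t + 2)) ≠ 0 := mul_ne_zero h7 h8
  apply mul_right_cancel₀ h9
  push_cast
  field_simp at h5
  linear_combination -h5

/-- **The monodromy conjecture for `f` and for `f + u v`.** -/
theorem MC_hyp {f : MvPolynomial σ ℂ} (hf : f ≠ 0) (hfu : ¬ IsUnit f) :
    MC E ε (hyp f) ↔ MC E ε f := by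
  have hX : ((Polynomial.X + 1 : Polynomial ℂ)) ≠ 0 := Polynomial.X_add_C_ne_zero 1
  constructor
  · intro h p q hpq s₀ hs₀
    have hq : q ≠ 0 := by
      rintro rfl
      obtain ⟨s₁, h2⟩ := isTop_ne hpq
      exact h2 s₁ le_rfl (Polynomial.eval_zero)
    have hD : (Polynomial.X + 1) ^ 2 * q.comp (Polynomial.X + 1) ≠ 0 := by
      refine mul_ne_zero (pow_ne_zero _ hX) ?_
      intro h2
      have h3 := congrArg (fun r : Polynomial ℂ => r.comp (Polynomial.X - 1)) h2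
      simp only [Polynomial.comp_assoc, Polynomial.add_comp, Polynomial.X_comp,
        Polynomial.one_comp, sub_add_cancel, Polynomial.comp_X, Polynomial.zero_comp] at h3
      exact hq h3
    obtain ⟨p', q', hc, hr, -⟩ := exists_coprime _ _ hD
    have hpq' := isTop_up h1 hu hpq hc hr
    have h2 := TopRel.at hr (s₀ - 1)
    rw [sub_add_cancel, hs₀, mul_zero, mul_zero, zero_add] at h2
    have h3 : ((s₀ - 1) * (s₀ - 1 + 2)) * (p.eval s₀ * q'.eval (s₀ - 1)) = 0 := by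
      linear_combination -h2
    rcases mul_eq_zero.1 h3 with h4 | h4
    · rcases mul_eq_zero.1 h4 with h5 | h5
      · have h6 : s₀ = ((1 : ℤ) : ℂ) := by
          push_cast
          linear_combination h5
        rw [h6]
        exact eig_int hf hfu 1
      · have h6 : s₀ = ((-1 : ℤ) : ℂ) := by
          push_cast
          linear_combination h5
        rw [h6]
        exact eig_int hf hfu (-1)
    · have h5 := (mul_eq_zero.1 h4).resolve_left (coprime_ne hpq.1 _ hs₀)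
      have h6 := (eig_hyp hf hfu _).1 (h p' q' hpq' _ h5)
      refine eig_shift (-1) ?_
      push_cast
      rw [← sub_eq_add_neg]
      exact h6
  · intro h p' q' hpq t ht
    have hq : q' ≠ 0 := by
      rintro rfl
      obtain ⟨s₁, h2⟩ := isTop_ne hpq
      exact h2 s₁ le_rfl (Polynomial.eval_zero)
    set D : Polynomial ℂ := (Polynomial.X * (Polynomial.X + 2) * q').comp (Polynomial.X - 1)
      with hDdef
    have hcomp : ∀ r : Polynomial ℂ, (r.comp (Polynomial.X - 1)).comp (Polynomial.X + 1) = r := by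
      intro r
      rw [Polynomial.comp_assoc, Polynomial.sub_comp, Polynomial.X_comp, Polynomial.one_comp,
        add_sub_cancel_right, Polynomial.comp_X]
    have hX2 : ((Polynomial.X + 2 : Polynomial ℂ)) ≠ 0 := Polynomial.X_add_C_ne_zero 2
    have hD : D ≠ 0 := by
      intro h2
      have h3 := hcomp (Polynomial.X * (Polynomial.X + 2) * q')
      rw [← hDdef, h2, Polynomial.zero_comp] at h3
      exact mul_ne_zero (mul_ne_zero Polynomial.X_ne_zero hX2) hq h3.symm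
    obtain ⟨p, q, hc, hr, hq0⟩ := exists_coprime
      (((Polynomial.X + 1) ^ 2 * p' - q').comp (Polynomial.X - 1)) _ hD
    have hrel : TopRel p q p' q' := by
      have h2 := congrArg (fun r : Polynomial ℂ => r.comp (Polynomial.X + 1)) hr
      simp only [Polynomial.mul_comp] at h2
      rw [hDdef, hcomp, hcomp] at h2
      unfold TopRel
      linear_combination -h2
    have hpq' := isTop_down h1 hu hpq hc hrel
    have h2 := hrel.at t
    rw [ht, mul_zero] at h2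
    have h3 := (mul_eq_zero.1 h2).resolve_left (coprime_ne hpq.1 _ ht)
    rcases mul_eq_zero.1 h3 with h4 | h4
    · have h5 : t = ((-1 : ℤ) : ℂ) := by
        have := pow_eq_zero_iff (two_ne_zero) |>.1 h4
        push_cast
        linear_combination this
      rw [h5]
      exact eig_int (hyp_ne_zero f) (hyp_not_isUnit f) (-1)
    · refine (eig_hyp hf hfu t).2 (eig_shift 1 ?_)
      push_cast
      exact h p q hpq' _ h4

/-- **The strong monodromy conjecture for `f + u v` implies the one for `f`.** -/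
theorem SMC_hyp {f : MvPolynomial σ ℂ} (hf : f ≠ 0) (hfu : ¬ IsUnit f)
    (h : SMC E ε (hyp f)) : SMC E ε f := by
  have hX : ((Polynomial.X + 1 : Polynomial ℂ)) ≠ 0 := Polynomial.X_add_C_ne_zero 1
  intro p q hpq s₀ hre hs₀ b hb
  have hq : q ≠ 0 := by
    rintro rfl
    obtain ⟨s₁, h2⟩ := isTop_ne hpq
    exact h2 s₁ le_rfl (Polynomial.eval_zero)
  have hD : (Polynomial.X + 1) ^ 2 * q.comp (Polynomial.X + 1) ≠ 0 := by
    refine mul_ne_zero (pow_ne_zero _ hX) ?_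
    intro h2
    have h3 := congrArg (fun r : Polynomial ℂ => r.comp (Polynomial.X - 1)) h2
    simp only [Polynomial.comp_assoc, Polynomial.add_comp, Polynomial.X_comp,
      Polynomial.one_comp, sub_add_cancel, Polynomial.comp_X, Polynomial.zero_comp] at h3
    exact hq h3
  obtain ⟨p', q', hc, hr, -⟩ := exists_coprime _ _ hD
  have hpq' := isTop_up h1 hu hpq hc hr
  have h2 := TopRel.at hr (s₀ - 1)
  rw [sub_add_cancel, hs₀, mul_zero, mul_zero, zero_add] at h2
  have h3 : ((s₀ - 1) * (s₀ - 1 + 2)) * (p.eval s₀ * q'.eval (s₀ - 1)) = 0 := by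
    linear_combination -h2
  rcases mul_eq_zero.1 h3 with h4 | h4
  · rcases mul_eq_zero.1 h4 with h5 | h5
    · exfalso
      have h6 : s₀ = 1 := by linear_combination h5
      rw [h6, Complex.one_re] at hre
      exact absurd hre (by norm_num)
    · have h6 : s₀ = -1 := by linear_combination h5
      rw [h6]
      exact isB_neg_one hb hf hfu
  · have h5 := (mul_eq_zero.1 h4).resolve_left (coprime_ne hpq.1 _ hs₀)
    have h7 : IsBFunction (hyp f) ((Polynomial.X + 1) * b.comp (Polynomial.X + 1)) := by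
      rw [isB_UB] at hb ⊢
      have h2 := UB_hyp hb
      rwa [map_one] at h2
    have h8 := h p' q' hpq' (s₀ - 1) (by rw [Complex.sub_re, Complex.one_re]; linarith) h5 _ h7
    simp only [Polynomial.eval_mul, Polynomial.eval_add, Polynomial.eval_X, Polynomial.eval_one,
      Polynomial.eval_comp, sub_add_cancel] at h8
    rcases mul_eq_zero.1 h8 with h9 | h9
    · exfalso
      rw [h9, Complex.zero_re] at hre
      exact lt_irrefl _ hre
    · exact h9

omit h1 hu in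
theorem isTop_iso {σ τ : Type} [Fintype σ] [Fintype τ]
    (Φ : MvPolynomial σ ℂ ≃ₐ[ℂ] MvPolynomial τ ℂ) (hcard : Fintype.card σ = Fintype.card τ)
    (f : MvPolynomial σ ℂ) {p q : Polynomial ℂ} (h : IsTop E ε f p q) : IsTop E ε (Φ f) p q := by
  have h2 := zetaM_iso Φ hcard f (Constr.univ (K := ℂ) (ι := σ))
  have h3 : WT (Φ : MvPolynomial σ ℂ →ₐ[ℂ] MvPolynomial τ ℂ) (Set.univ : Set (Pt ℂ σ)) =
      Set.univ := by
    ext w
    simp [WT]
  rw [h3] at h2
  unfold IsTop Val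
  rw [h2]
  exact h

omit h1 hu in
theorem SMC_iso {σ τ : Type} [Fintype σ] [Fintype τ]
    (Φ : MvPolynomial σ ℂ ≃ₐ[ℂ] MvPolynomial τ ℂ) (hcard : Fintype.card σ = Fintype.card τ)
    (f : MvPolynomial σ ℂ) (h : SMC E ε (Φ f)) : SMC E ε f := by
  intro p q hpq s₀ hre hs₀ b hb
  refine h p q (isTop_iso Φ hcard f hpq) s₀ hre hs₀ b ?_
  rw [isB_UB] at hb ⊢
  have h1 := hb.iso Φ
  rwa [map_one] at h1

omit h1 hu in
theorem MC_iso {σ τ : Type} [Fintype σ] [Fintype τ]
    (Φ : MvPolynomial σ ℂ ≃ₐ[ℂ] MvPolynomial τ ℂ) (hcard : Fintype.card σ = Fintype.card τ)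
    (f : MvPolynomial σ ℂ) (h : MC E ε (Φ f)) : MC E ε f := by
  intro p q hpq s₀ hs₀
  refine eig_iso Φ f s₀ (h p q ?_ s₀ hs₀)
  have h2 := zetaM_iso Φ hcard f (Constr.univ (K := ℂ) (ι := σ))
  have h3 : WT (Φ : MvPolynomial σ ℂ →ₐ[ℂ] MvPolynomial τ ℂ) (Set.univ : Set (Pt ℂ σ)) =
      Set.univ := by
    ext w
    simp [WT]
  rw [h3] at h2
  unfold IsTop Val
  rw [h2]
  exact hpq

/-- constants -/
theorem no_pole (a : ℂ) (ha : a ≠ 0) {p q : Polynomial ℂ}
    (hpq : IsTop E ε (C a : MvPolynomial σ ℂ) p q) {s₀ : ℂ} (hs₀ : q.eval s₀ = 0) : False := by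
  obtain ⟨M, hL, hM⟩ := exists_meas ℂ
  have h2 : zetaM (C a : MvPolynomial σ ℂ) Set.univ {c | c ≠ 0} =
      PowerSeries.C (((Lu ℂ : (MK ℂ)ˣ) : MK ℂ) ^ Fintype.card σ) := by
    ext d
    rw [zetaM, PowerSeries.coeff_mk, ← hM, PowerSeries.coeff_C]
    have h3 : ∀ (z : Pt ℂ (σ × Fin (d + 1))) (k : ℕ), PowerSeries.coeff k
        (aeval (ar z) (C a : MvPolynomial σ ℂ)) = if k = 0 then algebraMap ℂ _ a else 0 := by
      intro z k
      rw [algHom_C, PowerSeries.algebraMap_apply, PowerSeries.coeff_C]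
    have ha' : algebraMap ℂ (AlgebraicClosure ℂ) a ≠ 0 := by
      rw [Ne, map_eq_zero]
      exact ha
    split_ifs with hd
    · subst hd
      have h4 : JetS (C a : MvPolynomial σ ℂ) (Set.univ : Set (Pt ℂ σ)) {c | c ≠ 0} 0 =
          Set.univ := by
        ext z
        simp only [JetS, Set.mem_ofPred_eq, h3, Set.mem_univ, true_and, iff_true]
        refine ⟨fun j hj => absurd hj (Nat.not_lt_zero j), ?_⟩
        simpa using ha'
      rw [h4, chi_univ, hL, Fintype.card_prod, Fintype.card_fin, Nat.zero_add, Nat.mul_one,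
        Nat.mul_zero]
      simp
    · have h4 : JetS (C a : MvPolynomial σ ℂ) (Set.univ : Set (Pt ℂ σ)) {c | c ≠ 0} d = ∅ := by
        ext z
        simp only [JetS, Set.mem_ofPred_eq, Set.mem_empty_iff_false, iff_false]
        rintro ⟨_, h5, _⟩
        have h6 := h5 0 (Nat.pos_of_ne_zero hd)
        rw [h3, if_pos rfl] at h6
        exact ha' h6
      rw [h4, Pool.Agent.W375.MT.chi_empty, zero_mul]
  obtain ⟨h3, s₁, h4⟩ := hpq
  have h5 : ∀ s, s₁ ≤ s → p.eval (s : ℂ) = q.eval (s : ℂ) := by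
    intro s hs
    obtain ⟨c, hc, hc'⟩ := h4 s hs
    unfold Val at hc
    rw [h2, PowerSeries.map_C] at hc
    have h6 := specAt_unique hc (specAt_C (u := Units.map (E : MK ℂ →* R) (Lu ℂ)) (ε := ε) _ s)
    rw [map_pow, map_pow, h1, one_pow] at h6
    rw [hc', h6, one_mul]
  have h6 : p = q := by
    refine Polynomial.eq_of_infinite_eval_eq p q ?_
    have h7 : Set.Infinite {s : ℕ | s₁ ≤ s} := Set.Ici_infinite s₁
    refine Set.Infinite.mono ?_ (h7.image (f := fun s : ℕ => (s : ℂ))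
      (fun a _ b _ h => Nat.cast_injective h))
    rintro _ ⟨s, hs, rfl⟩
    exact h5 s hs
  rw [h6] at h3
  exact coprime_ne h3 s₀ hs₀ hs₀

theorem MC_const (a : ℂ) (ha : a ≠ 0) : MC E ε (C a : MvPolynomial σ ℂ) :=
  fun _ _ hpq _ hs₀ => (no_pole h1 hu a ha hpq hs₀).elim

theorem SMC_const (a : ℂ) (ha : a ≠ 0) : SMC E ε (C a : MvPolynomial σ ℂ) :=
  fun _ _ hpq _ _ hs₀ => (no_pole h1 hu a ha hpq hs₀).elim

omit h1 hu in
theorem eig_iso_iff {σ τ : Type} [Fintype σ] [Fintype τ]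
    (Φ : MvPolynomial σ ℂ ≃ₐ[ℂ] MvPolynomial τ ℂ)
    (f : MvPolynomial σ ℂ) (c : ℂ) : Eig (Φ f) c ↔ Eig f c := by
  refine ⟨eig_iso Φ f c, fun h => eig_iso Φ.symm (Φ f) c ?_⟩
  rw [AlgEquiv.symm_apply_apply]
  exact h

omit h1 hu in
theorem val_iso {σ τ : Type} [Fintype σ] [Fintype τ]
    (Φ : MvPolynomial σ ℂ ≃ₐ[ℂ] MvPolynomial τ ℂ) (hcard : Fintype.card σ = Fintype.card τ)
    (f : MvPolynomial σ ℂ) (s : ℕ) (c : ℂ) : Val E ε (Φ f) s c ↔ Val E ε f s c := by
  have h2 := zetaM_iso Φ hcard f (Constr.univ (K := ℂ) (ι := σ))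
  have h3 : WT (Φ : MvPolynomial σ ℂ →ₐ[ℂ] MvPolynomial τ ℂ) (Set.univ : Set (Pt ℂ σ)) =
      Set.univ := by
    ext w
    simp [WT]
  rw [h3] at h2
  unfold Val
  rw [h2]

/-- `g` has the same eigenvalues as `f`, and its topological zeta function is that of `f` plus `m`
hyperbolic planes -/
def Stab (E : MK ℂ →+* R) (ε : R →+* ℂ) {σ τ : Type} [Fintype σ] [Fintype τ]
    (f : MvPolynomial σ ℂ) (g : MvPolynomial τ ℂ) (m : ℕ) : Prop :=
  (∀ z, Eig g z ↔ Eig f z) ∧ (∀ (s : ℕ) (c : ℂ), 0 < s → Val E ε f (s + m) c →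
    Val E ε g s ((m + s * (s + m + 1) * c) / ((s + 1) * (s + m)))) ∧
    (MC E ε g ↔ MC E ε f) ∧ (SMC E ε g → SMC E ε f)

/-- **Reduction of the topological monodromy conjecture to cubic polynomials.** -/
theorem exists_cubic (n : ℕ) (f : MvPolynomial (Fin n) ℂ) (hf : f ≠ 0) (hfu : ¬ IsUnit f) :
    ∃ (r : ℕ) (c₀ : ℂ) (c : Fin (n + r) → ℂ) (a b : Fin r → Fin (n + r)),
      (∀ k, (a k : ℕ) < n + k) ∧ (∀ k, (b k : ℕ) < n + k) ∧ cubic c₀ c a b ≠ 0 ∧
        Stab E ε f (cubic c₀ c a b) r := by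
  have key := reduction (fun σ _ f => f ≠ 0 → ¬ IsUnit f →
    ∃ (r m : ℕ) (c₀ : ℂ) (c : Fin (n + r) → ℂ) (a b : Fin r → Fin (n + r)),
      Fintype.card σ + 2 * m = n + 2 * r ∧
      (∀ k, (a k : ℕ) < n + k) ∧ (∀ k, (b k : ℕ) < n + k) ∧ cubic c₀ c a b ≠ 0 ∧
        Stab E ε f (cubic c₀ c a b) m) 1 (Or.inl rfl) ?_ ?_ n ?_ f hf hfu
  · obtain ⟨r, m, c₀, c, a, b, h2, h3, h4, h0, h5⟩ := key
    rw [Fintype.card_fin] at h2
    obtain rfl : m = r := by omega
    exact ⟨m, c₀, c, a, b, h3, h4, h0, h5⟩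
  · intro σ τ _ _ Φ f hcard _ h hf hfu
    obtain ⟨r, m, c₀, c, a, b, h2, h3, h4, h0, h5, h6, h7, h7'⟩ := h
      (by rw [Ne, map_eq_zero_iff Φ Φ.injective]; exact hf)
      (by
        intro h8
        apply hfu
        have h9 := h8.map Φ.symm
        rwa [AlgEquiv.symm_apply_apply] at h9)
    refine ⟨r, m, c₀, c, a, b, by rw [hcard]; exact h2, h3, h4, h0, fun z => ?_,
      fun s c hs hc => ?_, ?_, fun h8 => SMC_iso Φ hcard f (h7' h8)⟩
    · rw [h5, eig_iso_iff]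
    · exact h6 s c hs ((val_iso Φ hcard f _ _).2 hc)
    · rw [h7]
      refine ⟨MC_iso Φ hcard f, fun h8 => MC_iso Φ.symm hcard.symm (Φ f) ?_⟩
      rw [AlgEquiv.symm_apply_apply]
      exact h8
  · intro σ _ f h hf hfu
    obtain ⟨r, m, c₀, c, a, b, h2, h3, h4, h0, h5, h6, h7, h7'⟩ :=
      h (hyp_ne_zero f) (hyp_not_isUnit f)
    rw [Fintype.card_sum, Fintype.card_bool] at h2
    refine ⟨r, m + 1, c₀, c, a, b, by omega, h3, h4, h0, fun z => ?_, fun s c hs hc => ?_, ?_,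
      fun h8 => SMC_hyp h1 hu hf hfu (h7' h8)⟩
    · rw [h5, eig_hyp hf hfu]
    · have h8 := h6 s _ hs (val_up h1 hu hc)
      have h9 : ((s : ℂ) + 1) ≠ 0 := by exact_mod_cast Nat.succ_ne_zero s
      have h10 : ((s : ℂ) + m) ≠ 0 := by exact_mod_cast (by omega : s + m ≠ 0)
      have h11 : ((s : ℂ) + m + 1) ≠ 0 := by exact_mod_cast Nat.succ_ne_zero (s + m)
      convert h8 using 1
      push_cast
      have h12 : ((s : ℂ) + (m + 1)) ≠ 0 := by
        rw [← add_assoc]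
        exact h11
      field_simp
      ring
    · rw [h7, MC_hyp h1 hu hf hfu]
  · intro r a b h ha hb hh hf hfu
    obtain ⟨c₀, c, rfl⟩ := deg_one h hh
    refine ⟨r, 0, c₀, c, a, b, ?_, ha, hb, ?_, ?_⟩
    · rw [Fintype.card_sum, Fintype.card_fin, Fintype.card_fin]
      ring
    · rw [← lin_cubic]
      exact hf
    · rw [lin_cubic]
      refine ⟨fun z => Iff.rfl, fun s c hs hc => ?_, Iff.rfl, id⟩
      have h9 : ((s : ℂ) + 1) ≠ 0 := by exact_mod_cast Nat.succ_ne_zero s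
      have h10 : (s : ℂ) ≠ 0 := by exact_mod_cast hs.ne'
      have h11 : (((0 : ℕ) : ℂ) + s * (s + ((0 : ℕ) : ℂ) + 1) * c) /
          ((s + 1) * (s + ((0 : ℕ) : ℂ))) = c := by
        rw [Nat.cast_zero, add_zero, zero_add]
        field_simp
      rw [h11]
      exact hc

theorem exists_cubic_const (n : ℕ) (z : ℂ) (hz : z ≠ 0) :
    ∃ (r : ℕ) (c₀ : ℂ) (c : Fin (n + r) → ℂ) (a b : Fin r → Fin (n + r)),
      (∀ k, (a k : ℕ) < n + k) ∧ (∀ k, (b k : ℕ) < n + k) ∧ cubic c₀ c a b ≠ 0 ∧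
        Stab E ε (C z : MvPolynomial (Fin n) ℂ) (cubic c₀ c a b) r := by
  have h2 : cubic (n := n) (r := 0) z (fun _ => 0) (fun k => k.elim0) (fun k => k.elim0) = C z := by
    rw [cubic, Finset.univ_eq_empty (α := Fin 0), Finset.sum_empty, add_zero]
    simp
  refine ⟨0, z, fun _ => 0, fun k => k.elim0, fun k => k.elim0, fun k => k.elim0,
    fun k => k.elim0, ?_, ?_, fun s c hs hc => ?_, ?_, fun _ => ?_⟩
  · rw [h2]
    exact fun h => hz (C_injective _ _ (h.trans C_0.symm))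
  · intro w
    rw [h2]
    have e : Fin n ≃ Fin (n + 0) ⊕ Fin 0 := (Equiv.sumEmpty (Fin (n + 0)) (Fin 0)).symm
    have h3 := eig_iso_iff (renameEquiv ℂ e) (C z) w
    rw [renameEquiv_apply, rename_C] at h3
    exact h3
  · rw [h2]
    have e : Fin n ≃ Fin (n + 0) ⊕ Fin 0 := (Equiv.sumEmpty (Fin (n + 0)) (Fin 0)).symm
    have h3 := val_iso (E := E) (ε := ε) (renameEquiv ℂ e) (Fintype.card_congr e) (C z) s c
    rw [renameEquiv_apply, rename_C] at h3
    have h9 : ((s : ℂ) + 1) ≠ 0 := by exact_mod_cast Nat.succ_ne_zero s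
    have h10 : (s : ℂ) ≠ 0 := by exact_mod_cast hs.ne'
    have h11 : (((0 : ℕ) : ℂ) + s * (s + ((0 : ℕ) : ℂ) + 1) * c) /
        ((s + 1) * (s + ((0 : ℕ) : ℂ))) = c := by
      rw [Nat.cast_zero, add_zero, zero_add]
      field_simp
    rw [h11]
    exact h3.2 hc
  · rw [h2]
    exact ⟨fun _ => MC_const h1 hu z hz, fun _ => MC_const h1 hu z hz⟩
  · exact SMC_const h1 hu z hz

/-- the reduction, including the constants -/
theorem exists_cubic' (n : ℕ) (f : MvPolynomial (Fin n) ℂ) (hf : f ≠ 0) :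
    ∃ (r : ℕ) (c₀ : ℂ) (c : Fin (n + r) → ℂ) (a b : Fin r → Fin (n + r)),
      (∀ k, (a k : ℕ) < n + k) ∧ (∀ k, (b k : ℕ) < n + k) ∧ cubic c₀ c a b ≠ 0 ∧
        Stab E ε f (cubic c₀ c a b) r := by
  by_cases hfu : IsUnit f
  · obtain ⟨a, ha, rfl⟩ := MvPolynomial.isUnit_iff_eq_C_of_isReduced.1 hfu
    exact exists_cubic_const h1 hu n a ha.ne_zero
  · exact exists_cubic h1 hu n f hf hfu

end top

end Pool.Agent.Helper33K9.HP
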