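import Pool.Agent.Helper33K9.HP.Cubic
import Pool.Agent.Helper33K9.HP.Top
import Pool.Agent.Helper33K9.HP.BF2
import Pool.Agent.Helper33K9.HP.LDefs
import Pool.Agent.W574.HS.Flat
import Pool.Agent.Helper33K9.HP.MC

set_option autoImplicit false
set_option linter.unusedSectionVars false
set_option linter.unusedVariables false

/-! # The motivic monodromy conjecture at the origin for `f` and for `f + u v` -/

namespace Pool.Agent.Helper33K9.HP

open MvPolynomial Pool.Agent.H628R4.TP Pool.Agent.W428.MOT Pool.Agent.TH192.MT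
  Pool.Agent.TH192.MU Pool.Agent.TH192.DT

/-! ### local functional equations -/

section loc

variable {σ : Type} [Finite σ]

theorem local_UB {f : MvPolynomial σ ℂ} (hf : f ≠ 0) (b : Polynomial ℂ) :
    IsLocalBFunction f b ↔ ∃ H, constantCoeff H ≠ 0 ∧ UB H f b := by
  constructor
  · intro h
    obtain ⟨H, P, hH, hP⟩ := Pool.Agent.W574.HS.algebraic_of_local f hf b h
    refine ⟨H, hH, (sum_iff (fun s => C (b.eval (s : ℂ)) * (H * f ^ s))
      (fun s => f ^ (s + 1))).1 ⟨P, fun s => ?_⟩⟩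
    rw [← hP s]
    ring
  · rintro ⟨H, hH, hb⟩
    obtain ⟨P, hP⟩ := (sum_iff (fun s => C (b.eval (s : ℂ)) * (H * f ^ s))
      (fun s => f ^ (s + 1))).2 hb
    obtain ⟨a, ha⟩ : ∃ a : MvPowerSeries σ ℂ, a * (H : MvPowerSeries σ ℂ) = 1 := by
      refine ⟨(H : MvPowerSeries σ ℂ)⁻¹, MvPowerSeries.inv_mul_cancel _ ?_⟩
      rw [← MvPowerSeries.coeff_zero_eq_constantCoeff_apply, coeff_coe]
      exact hH
    refine ⟨P.support.card, fun i => ((P.support.equivFin.symm i : ℕ)), fun _ => a,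
      fun i => P (P.support.equivFin.symm i), fun s => ?_⟩
    have h1 := congrArg (fun q : MvPolynomial σ ℂ => a * (q : MvPowerSeries σ ℂ)) (hP s)
    simp only [MvPolynomial.coe_mul, MvPolynomial.coe_C] at h1
    have h2 : a * (MvPowerSeries.C (b.eval (s : ℂ)) * ((H : MvPowerSeries σ ℂ) *
        ((f ^ s : MvPolynomial σ ℂ) : MvPowerSeries σ ℂ))) =
        MvPowerSeries.C (b.eval (s : ℂ)) * ((f ^ s : MvPolynomial σ ℂ) : MvPowerSeries σ ℂ) := by
      linear_combination (MvPowerSeries.C (b.eval (s : ℂ)) *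
        ((f ^ s : MvPolynomial σ ℂ) : MvPowerSeries σ ℂ)) * ha
    rw [← h2, h1, Finsupp.sum, ← Finset.sum_coe_sort, ← Equiv.sum_comp P.support.equivFin.symm]
    have h3 : ∀ (q : Fin P.support.card → MvPolynomial σ ℂ), ((∑ i, q i : MvPolynomial σ ℂ) :
        MvPowerSeries σ ℂ) = ∑ i, (q i : MvPowerSeries σ ℂ) := fun q =>
      map_sum (MvPolynomial.coeToMvPowerSeries.ringHom (R := ℂ) (σ := σ)) q Finset.univ
    rw [h3, Finset.mul_sum]
    refine Finset.sum_congr rfl fun i _ => ?_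
    rw [smul_eq_C_mul, MvPolynomial.coe_mul, MvPolynomial.coe_C]
    ring

theorem cc_hyp (f : MvPolynomial σ ℂ) : constantCoeff (hyp f) = constantCoeff f := by
  rw [hyp, map_add, map_mul, constantCoeff_X, zero_mul, add_zero, constantCoeff_rename]

theorem cc_ev0 (a : MvPolynomial (σ ⊕ Bool) ℂ) : constantCoeff (ev0 a) = constantCoeff a := by
  rw [ev0, ← eval_zero', ← eval_zero']
  have h1 : (eval (0 : σ → ℂ)).comp ((aeval (Sum.elim X fun _ => 0) :
      MvPolynomial (σ ⊕ Bool) ℂ →ₐ[ℂ] MvPolynomial σ ℂ) : MvPolynomial (σ ⊕ Bool) ℂ →+* _) =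
      eval (0 : σ ⊕ Bool → ℂ) := by
    refine MvPolynomial.ringHom_ext (fun c => ?_) fun i => ?_
    · simp
    · rcases i with i | i <;> simp
  exact DFunLike.congr_fun h1 a

theorem local_neg_one {f : MvPolynomial σ ℂ} {b : Polynomial ℂ} (h : IsLocalBFunction f b)
    (hf : f ≠ 0) (h0 : constantCoeff f = 0) : b.eval (-1) = 0 := by
  obtain ⟨H, hH, h1⟩ := (local_UB hf b).1 h
  refine h1.neg_one hf ?_
  rintro ⟨g, rfl⟩
  rw [map_mul, h0, zero_mul] at hH
  exact hH rfl

theorem eig0_int {f : MvPolynomial σ ℂ} (hf : f ≠ 0) (h0 : constantCoeff f = 0) (k : ℤ) :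
    Eig0 f (k : ℂ) := by
  intro b hb
  refine ⟨-1 - k, ?_⟩
  have h1 : (k : ℂ) + ((-1 - k : ℤ) : ℂ) = -1 := by
    push_cast
    ring
  rw [h1]
  exact local_neg_one hb hf h0

theorem eig0_shift {f : MvPolynomial σ ℂ} {c : ℂ} (k : ℤ) (h : Eig0 f (c + k)) : Eig0 f c := by
  intro b hb
  obtain ⟨l, hl⟩ := h b hb
  refine ⟨k + l, ?_⟩
  push_cast
  rw [← add_assoc]
  exact hl

/-- **The eigenvalues of `f` and of `f + u v` near the origin.** -/
theorem eig0_hyp {f : MvPolynomial σ ℂ} (hf : f ≠ 0) (h0 : constantCoeff f = 0) (c : ℂ) :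
    Eig0 (hyp f) c ↔ Eig0 f c := by
  constructor
  · intro h b hb
    have h1 : IsLocalBFunction (hyp f) ((Polynomial.X + 1) * b.comp (Polynomial.X + 1)) := by
      rw [local_UB hf] at hb
      obtain ⟨H, hH, hb⟩ := hb
      rw [local_UB (hyp_ne_zero f)]
      refine ⟨rename Sum.inl H, ?_, UB_hyp hb⟩
      rw [constantCoeff_rename]
      exact hH
    obtain ⟨k, hk⟩ := h _ h1
    simp only [Polynomial.eval_mul, Polynomial.eval_add, Polynomial.eval_X, Polynomial.eval_one,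
      Polynomial.eval_comp] at hk
    rcases mul_eq_zero.1 hk with h2 | h2
    · refine ⟨k, ?_⟩
      have h3 : c + k = -1 := by linear_combination h2
      rw [h3]
      exact local_neg_one hb hf h0
    · refine ⟨k + 1, ?_⟩
      push_cast
      rw [← add_assoc]
      exact h2
  · intro h b hb
    have hb' := hb
    rw [local_UB (hyp_ne_zero f)] at hb
    obtain ⟨H, hH, hb⟩ := hb
    obtain ⟨d, hd, h1⟩ := UB_of_hyp hb
    have h2 : IsLocalBFunction f (d * b.comp (Polynomial.X - 1)) := by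
      rw [local_UB hf]
      exact ⟨ev0 H, by rw [cc_ev0]; exact hH, h1⟩
    obtain ⟨k, hk⟩ := h _ h2
    simp only [Polynomial.eval_mul, Polynomial.eval_sub, Polynomial.eval_X, Polynomial.eval_one,
      Polynomial.eval_comp] at hk
    rcases mul_eq_zero.1 hk with h2 | h2
    · obtain ⟨l, hl⟩ := hd _ h2
      have h3 : c = ((l - k : ℤ) : ℂ) := by
        push_cast
        linear_combination hl
      rw [h3]
      exact eig0_int (hyp_ne_zero f) (by rw [cc_hyp]; exact h0) _ b hb'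
    · refine ⟨k - 1, ?_⟩
      push_cast
      rw [add_sub_assoc] at h2
      exact h2

theorem eig0_iso {σ τ : Type} [Fintype σ] [Fintype τ]
    (Φ : MvPolynomial σ ℂ ≃ₐ[ℂ] MvPolynomial τ ℂ)
    (hΦ : ∀ a, constantCoeff (Φ a) = constantCoeff a) {f : MvPolynomial σ ℂ} (hf : f ≠ 0) (c : ℂ)
    (h : Eig0 (Φ f) c) : Eig0 f c := by
  intro b hb
  refine h b ?_
  rw [local_UB hf] at hb
  obtain ⟨H, hH, hb⟩ := hb
  rw [local_UB (by rw [Ne, map_eq_zero_iff Φ Φ.injective]; exact hf)]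
  exact ⟨Φ H, by rw [hΦ]; exact hH, hb.iso Φ⟩

theorem eig0_iso_iff {σ τ : Type} [Fintype σ] [Fintype τ]
    (Φ : MvPolynomial σ ℂ ≃ₐ[ℂ] MvPolynomial τ ℂ)
    (hΦ : ∀ a, constantCoeff (Φ a) = constantCoeff a) {f : MvPolynomial σ ℂ} (hf : f ≠ 0) (c : ℂ) :
    Eig0 (Φ f) c ↔ Eig0 f c := by
  refine ⟨eig0_iso Φ hΦ hf c, fun h => eig0_iso Φ.symm (fun a => ?_) ?_ c ?_⟩
  · rw [← hΦ, AlgEquiv.apply_symm_apply]
  · rw [Ne, map_eq_zero_iff Φ Φ.injective]
    exact hf
  · rw [AlgEquiv.symm_apply_apply]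
    exact h

end loc

/-! ### the local zeta functions -/

section zeta

variable {K : Type} [Field K] {σ : Type} [Fintype σ] {R : Type} [CommRing R] (M : Meas K R)

theorem constr_zero : Constr ({0} : Set (Pt K σ)) := by
  have h := constr_point (K := K) (fun _ : σ => (0 : K))
  simp only [map_zero] at h
  exact h

theorem chi_zero {ι : Type} [Fintype ι] : M.χ ι {z : Pt K ι | ∀ i, z i = 0} = 1 := by
  rw [← M.point (ι := Empty)]
  refine M.iso _ _ ?_ Constr.univ (fun _ i => i.elim) (fun _ _ => 0) (fun i => i.elim)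
    (fun i => IsPF.zero.isRF _) (fun _ _ => trivial) (fun _ _ _ => rfl) ?_ ?_
  · exact Constr.all fun i => Constr.eqz (IsPF.coord i)
  · intro z hz
    funext i
    exact (hz i).symm
  · intro w _
    funext i
    exact i.elim

theorem bb_zero_zero (v : R) (f : MvPolynomial σ K) : bb M v f {0} 0 = 1 := by
  rw [bb_zero, ← chi_zero M (ι := σ × Fin (0 + 1))]
  congr 1
  ext z
  simp only [AJ, Set.mem_ofPred_eq, Set.mem_singleton_iff]
  constructor
  · rintro ⟨h, _⟩ ⟨i, j⟩
    obtain rfl : j = 0 := Fin.eq_zero j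
    exact congrFun h i
  · intro h
    exact ⟨funext fun i => h _, fun k hk => absurd hk (Nat.not_lt_zero k)⟩

theorem aa_zero (v : R) {f : MvPolynomial σ K} (h0 : constantCoeff f = 0) :
    aa M v f {0} 0 = 0 := by
  have h1 : JetS f ({0} : Set (Pt K σ)) {c | c ≠ 0} 0 = ∅ := by
    ext z
    simp only [JetS, Set.mem_ofPred_eq, Set.mem_empty_iff_false, iff_false, Set.mem_singleton_iff]
    rintro ⟨h, _, h2⟩
    apply h2
    rw [coeff_zero_aevalK]
    have h3 : (fun i => PowerSeries.coeff 0 (ar z i)) = (0 : σ → AlgebraicClosure K) := by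
      rw [← h]
      funext i
      exact coeff_ar_zero z i
    rw [h3, aeval_zero, h0, map_zero]
  rw [aa, h1, Pool.Agent.W375.MT.chi_empty, zero_mul]

theorem bb_one (v : R) (hv : M.L * v = 1) {f : MvPolynomial σ K} (h0 : constantCoeff f = 0) :
    bb M v f {0} 1 = 1 := by
  have h1 := aa_eq M v hv f (constr_zero (σ := σ)) 0
  rw [aa_zero M v h0, bb_zero_zero] at h1
  exact (sub_eq_zero.1 h1.symm).symm

/-- the local zeta function -/
noncomputable def zA (v : R) (f : MvPolynomial σ K) : PowerSeries R :=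
  PowerSeries.mk fun l => if l = 0 then 0 else aa M v f {0} l

theorem series1 (b : ℕ → R) : (1 - PowerSeries.X) *
    (PowerSeries.mk fun d => ∑ i ∈ Finset.Ico 2 (d + 1), b i) =
      PowerSeries.mk fun d => if d < 2 then 0 else b d := by
  ext d
  rw [sub_mul, one_mul, map_sub, PowerSeries.coeff_mk, PowerSeries.coeff_mk]
  rcases d with _ | d
  · rw [PowerSeries.coeff_zero_X_mul]
    simp
  · rw [PowerSeries.coeff_succ_X_mul, PowerSeries.coeff_mk]
    rcases d with _ | d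
    · simp
    · rw [Finset.sum_Ico_succ_top (by omega : 2 ≤ d + 1 + 1), if_neg (by omega)]
      ring

theorem series2 (b : ℕ → R) : (1 - PowerSeries.X) *
    (PowerSeries.mk fun d => if d < 2 then 0 else b d) =
      PowerSeries.C (b 1) * PowerSeries.X ^ 2 - PowerSeries.X *
        PowerSeries.mk fun d => if d = 0 then 0 else b d - b (d + 1) := by
  ext d
  rw [sub_mul, one_mul, map_sub, map_sub, PowerSeries.coeff_mk, PowerSeries.coeff_C_mul_X_pow]
  rcases d with _ | d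
  · rw [PowerSeries.coeff_zero_X_mul, PowerSeries.coeff_zero_X_mul]
    simp
  · rw [PowerSeries.coeff_succ_X_mul, PowerSeries.coeff_succ_X_mul, PowerSeries.coeff_mk,
      PowerSeries.coeff_mk]
    rcases d with _ | _ | d
    · simp
    · simp
    · rw [if_neg (by omega), if_neg (by omega), if_neg (by omega), if_neg (by omega)]
      ring

theorem zA_hyp (v : R) (hv : M.L * v = 1) {f : MvPolynomial σ K} (h0 : constantCoeff f = 0) :
    (1 - PowerSeries.C v * PowerSeries.X) ^ 2 * zA M v (hyp f) =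
      PowerSeries.C M.L * (1 - PowerSeries.X) * (1 - PowerSeries.C (v ^ 2) * PowerSeries.X) *
        PowerSeries.rescale v (zA M v f) + PowerSeries.C ((1 - v) ^ 2) * PowerSeries.X ^ 2 := by
  have hWW : WW ({0} : Set (Pt K σ)) 1 = {0} := by
    ext w
    simp only [WW, Set.mem_ofPred_eq, Set.mem_singleton_iff]
    constructor
    · rintro ⟨h1, h2⟩
      funext i
      rcases i with i | i
      · exact congrFun h1 i
      · cases i
        · exact (h2 one_pos).1
        · exact (h2 one_pos).2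
    · rintro rfl
      exact ⟨rfl, fun _ => ⟨rfl, rfl⟩⟩
  set D : PowerSeries R := PowerSeries.mk fun d => ∑ i ∈ Finset.Ico 2 (d + 1), bb M v f {0} i
    with hD
  have h1 : zA M v (hyp f) = PowerSeries.rescale v
      (PowerSeries.C M.L * zA M v f + PowerSeries.C ((M.L - 1) ^ 2) * D) := by
    ext d
    rw [zA, PowerSeries.coeff_mk, PowerSeries.coeff_rescale, map_add, PowerSeries.coeff_C_mul,
      PowerSeries.coeff_C_mul, zA, PowerSeries.coeff_mk, hD, PowerSeries.coeff_mk]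
    rcases d with _ | d
    · simp
    · rw [if_neg (by omega), if_neg (by omega)]
      have h2 := aa_hyp M v hv f (constr_zero (σ := σ)) 1 (d + 1) le_rfl (by omega)
      rw [hWW] at h2
      exact h2
  have h2 : (1 - PowerSeries.X) ^ 2 * D = PowerSeries.X ^ 2 - PowerSeries.X * zA M v f := by
    have h3 : zA M v f = PowerSeries.mk fun d => if d = 0 then 0 else
        bb M v f {0} d - bb M v f {0} (d + 1) := by
      rw [zA]
      congr 1
      funext d
      rw [aa_eq M v hv f (constr_zero (σ := σ))]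
    rw [h3, pow_two, mul_assoc, hD, series1, series2, bb_one M v hv h0, map_one, one_mul]
  have h3 : PowerSeries.rescale v ((1 - PowerSeries.X) ^ 2) =
      (1 - PowerSeries.C v * PowerSeries.X) ^ 2 := by
    rw [map_pow, map_sub, map_one, PowerSeries.rescale_X]
  have hL : PowerSeries.C M.L * PowerSeries.C v = (1 : PowerSeries R) := by
    rw [← map_mul, hv, map_one]
  have h4 : (1 - PowerSeries.X) ^ 2 *
      (PowerSeries.C M.L * zA M v f + PowerSeries.C ((M.L - 1) ^ 2) * D) =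
      PowerSeries.C M.L * (1 - PowerSeries.C M.L * PowerSeries.X) *
        (1 - PowerSeries.C v * PowerSeries.X) * zA M v f +
        PowerSeries.C ((M.L - 1) ^ 2) * PowerSeries.X ^ 2 := by
    rw [map_pow, map_sub, map_one]
    linear_combination (PowerSeries.C M.L - 1) ^ 2 * h2 +
      (PowerSeries.X * zA M v f - PowerSeries.C M.L * PowerSeries.X ^ 2 * zA M v f) * hL
  have h5 := congrArg (PowerSeries.rescale v) h4
  rw [map_mul, h3, ← h1] at h5
  rw [h5]
  simp only [map_add, map_mul, map_sub, map_one, map_pow, PowerSeries.rescale_X]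
  have hC : ∀ c : R, PowerSeries.rescale v (PowerSeries.C c) = PowerSeries.C c := by
    intro c
    ext n
    rw [PowerSeries.coeff_rescale, PowerSeries.coeff_C]
    split_ifs with h
    · rw [h, pow_zero, one_mul]
    · rw [mul_zero]
  simp only [hC]
  linear_combination (PowerSeries.X ^ 2 * (PowerSeries.C M.L * PowerSeries.C v + 1 -
    2 * PowerSeries.C v) - PowerSeries.C M.L * PowerSeries.X *
    (1 - PowerSeries.C v ^ 2 * PowerSeries.X) * PowerSeries.rescale v (zA M v f)) * hL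

theorem resc_C (v c : R) : PowerSeries.rescale v (PowerSeries.C c) = PowerSeries.C c := by
  ext n
  rw [PowerSeries.coeff_rescale, PowerSeries.coeff_C]
  split_ifs with h
  · rw [h, pow_zero, one_mul]
  · rw [mul_zero]

end zeta

section rel

variable {σ : Type} [Fintype σ]

theorem zrel_iff (n m : ℕ) (A B : PowerSeries (MK ℂ)) : ZRel n m A B ↔
    (1 - PowerSeries.C iL * PowerSeries.X) * (1 - PowerSeries.C (iL ^ m) * PowerSeries.X) * B =
    PowerSeries.C (iL ^ m) * (1 - PowerSeries.X) *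
      (1 - PowerSeries.C (iL ^ (m + 1)) * PowerSeries.X) * PowerSeries.rescale (iL ^ m) A +
      PowerSeries.C (iL ^ (n + 2 * m) * (1 - iL) * (1 - iL ^ m)) * PowerSeries.X ^ 2 := by
  unfold ZRel omT
  rw [map_one, one_mul]

theorem zetaO_eq (M : Meas ℂ (MK ℂ)) (hM : ∀ (ι : Type) [Fintype ι] (S : Set (Pt ℂ ι)),
    M.χ ι S = algebraMap (K0 ℂ) (MK ℂ) (cls ι S)) (f : MvPolynomial σ ℂ) :
    zetaO f = PowerSeries.C (iL ^ Fintype.card σ) * zA M iL f := by
  unfold zetaO zA aa iL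
  rw [inv_pow_eq]
  congr 2
  funext d
  split_ifs with h
  · rfl
  · rw [hM, inv_pow_eq, Nat.mul_comm]

/-- **The local motivic zeta function of `f + u v`.** -/
theorem zrel_hyp {f : MvPolynomial σ ℂ} (h0 : constantCoeff f = 0) :
    ZRel (Fintype.card σ) 1 (zetaO f) (zetaO (hyp f)) := by
  obtain ⟨M, hL, hM⟩ := exists_meas ℂ
  have hv : M.L * iL = 1 := by rw [hL, iL, Units.mul_inv]
  have h1 := zA_hyp M iL hv h0
  have hC : PowerSeries.C M.L * PowerSeries.C iL = (1 : PowerSeries (MK ℂ)) := by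
    rw [← map_mul, hv, map_one]
  rw [zrel_iff, zetaO_eq M hM, zetaO_eq M hM, Fintype.card_sum, Fintype.card_bool]
  simp only [map_mul, map_sub, map_one, map_pow, pow_one, resc_C] at h1 hC ⊢
  linear_combination PowerSeries.C iL ^ (Fintype.card σ + 2) * h1 +
    PowerSeries.C iL ^ (Fintype.card σ + 1) * (1 - PowerSeries.X) *
    (1 - PowerSeries.C iL ^ 2 * PowerSeries.X) * PowerSeries.rescale iL (zA M iL f) * hC

theorem isUnit_one_sub (c : MK ℂ) : IsUnit (1 - PowerSeries.C c * PowerSeries.X) := by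
  rw [PowerSeries.isUnit_iff_constantCoeff]
  simp

theorem ZRel.comp {n m : ℕ} {A C B : PowerSeries (MK ℂ)} (h1 : ZRel n 1 A C)
    (h2 : ZRel (n + 2) m C B) : ZRel n (m + 1) A B := by
  rw [zrel_iff] at h1 h2 ⊢
  have h3 := congrArg (PowerSeries.rescale (iL ^ m)) h1
  have h4 : PowerSeries.rescale (iL ^ m) (PowerSeries.rescale iL A) =
      PowerSeries.rescale (iL ^ (m + 1)) A := by
    rw [PowerSeries.rescale_rescale, pow_succ']
  simp only [map_mul, map_sub, map_one, map_pow, map_add, pow_one, resc_C, PowerSeries.rescale_X,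
    h4] at h2 h3 ⊢
  apply (isUnit_one_sub (iL ^ m)).mul_left_cancel
  simp only [map_pow]
  linear_combination (1 - PowerSeries.C iL ^ (m + 1) * PowerSeries.X) * h2 +
    PowerSeries.C iL ^ m * (1 - PowerSeries.X) * h3

theorem ZRel.refl (n : ℕ) (A : PowerSeries (MK ℂ)) : ZRel n 0 A A := by
  rw [zrel_iff]
  simp only [pow_zero, zero_add, pow_one, map_one, one_mul, PowerSeries.rescale_one,
    RingHom.id_apply, sub_self, mul_zero, map_zero, zero_mul, add_zero]
  ring

end rel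

/-! ### rationality -/

section rat

variable {R : Type} [CommRing R] (u : Rˣ)

theorem geoU_unique {a b : ℤ} (hb : 0 < b) {Z : PowerSeries R}
    (h : (1 - PowerSeries.C ((u ^ a : Rˣ) : R) * PowerSeries.X ^ b.toNat) * Z = 1) :
    Z = geoU u a b := by
  calc Z = ((1 - PowerSeries.C ((u ^ a : Rˣ) : R) * PowerSeries.X ^ b.toNat) * geoU u a b) * Z := by
        rw [geoU_mul u a b hb, one_mul]
    _ = ((1 - PowerSeries.C ((u ^ a : Rˣ) : R) * PowerSeries.X ^ b.toNat) * Z) * geoU u a b := by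
        ring
    _ = geoU u a b := by rw [h, one_mul]

theorem rescale_geoU (k a b : ℤ) (hb : 0 < b) :
    PowerSeries.rescale ((u ^ k : Rˣ) : R) (geoU u a b) = geoU u (a + k * b) b := by
  apply geoU_unique u hb
  have h1 := congrArg (PowerSeries.rescale ((u ^ k : Rˣ) : R)) (geoU_mul u a b hb)
  rw [map_mul, map_sub, map_one, map_mul, map_pow, resc_C, PowerSeries.rescale_X, mul_pow,
    ← map_pow, ← mul_assoc, ← map_mul, ← Units.val_pow_eq_pow_val, ← Units.val_mul] at h1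
  have h2 : u ^ a * (u ^ k) ^ b.toNat = u ^ (a + k * b) := by
    rw [← zpow_natCast, ← zpow_mul, ← zpow_add, Int.toNat_of_nonneg hb.le]
  rw [h2] at h1
  exact h1

theorem rescale_rat (k : ℤ) {D D' : Set (ℤ × ℤ)} (hD : ∀ p ∈ D, 0 < p.2)
    (hD' : ∀ p ∈ D, (p.1 + k * p.2, p.2) ∈ D') {Z : PowerSeries R} (hZ : Z ∈ ratU u D) :
    PowerSeries.rescale ((u ^ k : Rˣ) : R) Z ∈ ratU u D' := by
  unfold ratU at hZ
  induction hZ using Algebra.adjoin_induction with
  | mem x hx =>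
    rcases hx with hx | ⟨p, hp, rfl⟩
    · rw [Set.mem_singleton_iff] at hx
      rw [hx, PowerSeries.rescale_X]
      exact Subalgebra.mul_mem _ (rat_C u _) (rat_X u)
    · rw [rescale_geoU u k p.1 p.2 (hD p hp)]
      exact Algebra.subset_adjoin (Or.inr ⟨_, hD' p hp, rfl⟩)
  | algebraMap r =>
    change PowerSeries.rescale _ (PowerSeries.C r) ∈ _
    rw [resc_C]
    exact rat_C u r
  | add x y _ _ hx hy =>
    rw [map_add]
    exact Subalgebra.add_mem _ hx hy
  | mul x y _ _ hx hy =>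
    rw [map_mul]
    exact Subalgebra.mul_mem _ hx hy

theorem ratRing_eq (S : Set (ℤ × ℤ)) : ratRing ℂ S = ratU (Lu ℂ) S := rfl

theorem iL_eq : iL = (((Lu ℂ) ^ (-1 : ℤ) : (MK ℂ)ˣ) : MK ℂ) := by
  rw [zpow_neg_one]
  rfl

theorem geo_neg_one : (1 - PowerSeries.C iL * PowerSeries.X) * geoU (Lu ℂ) (-1) 1 = 1 := by
  have h := geoU_mul (Lu ℂ) (-1) 1 one_pos
  rw [← iL_eq] at h
  simpa using h

variable {σ : Type} [Fintype σ]

/-- **The motivic monodromy conjecture for `f` implies the one for `f + u v`.** -/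
theorem rat_up {A B : PowerSeries (MK ℂ)} {n : ℕ} (h : ZRel n 1 A B) {D D' : Set (ℤ × ℤ)}
    (hD : ∀ p ∈ D, 0 < p.2) (hD' : ∀ p ∈ D, (p.1 - p.2, p.2) ∈ D') (h1 : (-1, 1) ∈ D')
    (hA : A ∈ ratRing ℂ D) : B ∈ ratRing ℂ D' := by
  rw [ratRing_eq] at hA ⊢
  have h2 : PowerSeries.rescale iL A ∈ ratU (Lu ℂ) D' := by
    rw [iL_eq]
    refine rescale_rat (Lu ℂ) (-1) hD (fun p hp => ?_) hA
    have := hD' p hp
    rw [sub_eq_add_neg] at this
    rw [neg_one_mul]
    exact this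
  rw [zrel_iff] at h
  simp only [pow_one] at h
  have h3 : B = geoU (Lu ℂ) (-1) 1 * (geoU (Lu ℂ) (-1) 1 *
      (PowerSeries.C iL * (1 - PowerSeries.X) * (1 - PowerSeries.C (iL ^ (1 + 1)) *
        PowerSeries.X) * PowerSeries.rescale iL A +
      PowerSeries.C (iL ^ (n + 2 * 1) * (1 - iL) * (1 - iL)) * PowerSeries.X ^ 2)) := by
    rw [← h]
    linear_combination -B * (1 + (1 - PowerSeries.C iL * PowerSeries.X) *
      geoU (Lu ℂ) (-1) 1) * geo_neg_one
  rw [h3]
  have hg : geoU (Lu ℂ) (-1) 1 ∈ ratU (Lu ℂ) D' := Algebra.subset_adjoin (Or.inr ⟨_, h1, rfl⟩)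
  refine Subalgebra.mul_mem _ hg (Subalgebra.mul_mem _ hg (Subalgebra.add_mem _
    (Subalgebra.mul_mem _ (Subalgebra.mul_mem _ (Subalgebra.mul_mem _ (rat_C _ _) ?_) ?_) h2) ?_))
  · exact Subalgebra.sub_mem _ (Subalgebra.one_mem _) (rat_X _)
  · exact Subalgebra.sub_mem _ (Subalgebra.one_mem _)
      (Subalgebra.mul_mem _ (rat_C _ _) (rat_X _))
  · exact Subalgebra.mul_mem _ (rat_C _ _) (Subalgebra.pow_mem _ (rat_X _) 2)

theorem down_alg {S : Type} [CommRing S] (V L X A B : S) (n : ℕ) (hVL : V * L = 1)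
    (h : (1 - V * (L * X)) * (1 - V * (L * X)) * B = V * (1 - L * X) * (1 - V ^ (1 + 1) * (L * X)) *
      A + V ^ (n + 2 * 1) * (1 - V) * (1 - V) * (L * X) ^ 2) :
    (1 - L * X) * (1 - V * X) * A = L * ((1 - X) ^ 2 * B - V ^ n * (1 - V) ^ 2 * X ^ 2) := by
  have e1 : V * (L * X) = X := by linear_combination X * hVL
  have e2 : V ^ (1 + 1) * (L * X) = V * X := by linear_combination V * X * hVL
  have e3 : V ^ (n + 2 * 1) * (1 - V) * (1 - V) * (L * X) ^ 2 =
      V ^ n * (1 - V) ^ 2 * X ^ 2 := by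
    linear_combination (V ^ n * (1 - V) ^ 2 * X ^ 2 * (V * L + 1)) * hVL
  rw [e1, e2, e3] at h
  linear_combination -L * h + (-(1 - L * X) * (1 - V * X) * A) * hVL

theorem down_alg' {S : Type} [CommRing S] (P Q A Z g g' : S) (h1 : P * g = 1) (h2 : Q * g' = 1)
    (h : P * Q * A = Z) : A = g * (g' * Z) := by
  rw [← h]
  linear_combination (-A * Q * g') * h1 - A * h2

theorem resc_down {A B : PowerSeries (MK ℂ)} {n : ℕ} (h : ZRel n 1 A B) :
    (1 - PowerSeries.C ((Lu ℂ : (MK ℂ)ˣ) : MK ℂ) * PowerSeries.X) *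
      (1 - PowerSeries.C iL * PowerSeries.X) * A =
      PowerSeries.C ((Lu ℂ : (MK ℂ)ˣ) : MK ℂ) * ((1 - PowerSeries.X) ^ 2 *
        PowerSeries.rescale ((Lu ℂ : (MK ℂ)ˣ) : MK ℂ) B -
        PowerSeries.C iL ^ n * (1 - PowerSeries.C iL) ^ 2 * PowerSeries.X ^ 2) := by
  generalize hL : ((Lu ℂ : (MK ℂ)ˣ) : MK ℂ) = L
  have hLi : iL * L = 1 := by
    rw [← hL, iL, Units.inv_mul]
  have h3 := congrArg (PowerSeries.rescale L) ((zrel_iff _ _ _ _).1 h)
  have h4 : PowerSeries.rescale L (PowerSeries.rescale iL A) = A := by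
    rw [PowerSeries.rescale_rescale, hLi, PowerSeries.rescale_one, RingHom.id_apply]
  simp only [map_mul, map_sub, map_one, map_pow, map_add, pow_one, resc_C, PowerSeries.rescale_X,
    h4] at h3
  refine down_alg _ _ _ _ _ n ?_ h3
  rw [← map_mul, hLi, map_one]

theorem rat_down {A B : PowerSeries (MK ℂ)} {n : ℕ} (h : ZRel n 1 A B) {D D' : Set (ℤ × ℤ)}
    (hD : ∀ p ∈ D, 0 < p.2) (hD' : ∀ p ∈ D, (p.1 + p.2, p.2) ∈ D') (h1 : (-1, 1) ∈ D')
    (h1' : (1, 1) ∈ D') (hB : B ∈ ratRing ℂ D) : A ∈ ratRing ℂ D' := by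
  rw [ratRing_eq] at hB ⊢
  have h2 : PowerSeries.rescale ((Lu ℂ : (MK ℂ)ˣ) : MK ℂ) B ∈ ratU (Lu ℂ) D' := by
    have h3 := rescale_rat (Lu ℂ) 1 hD (D' := D') (fun p hp => by rw [one_mul]; exact hD' p hp) hB
    rwa [zpow_one] at h3
  have h5 : (1 - PowerSeries.C ((Lu ℂ : (MK ℂ)ˣ) : MK ℂ) * PowerSeries.X) *
      geoU (Lu ℂ) 1 1 = 1 := by
    have h := geoU_mul (Lu ℂ) 1 1 one_pos
    rw [zpow_one] at h
    simpa using h
  rw [down_alg' _ _ _ _ _ _ h5 geo_neg_one (resc_down h)]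
  have hg : geoU (Lu ℂ) (-1) 1 ∈ ratU (Lu ℂ) D' := Algebra.subset_adjoin (Or.inr ⟨_, h1, rfl⟩)
  have hg' : geoU (Lu ℂ) 1 1 ∈ ratU (Lu ℂ) D' := Algebra.subset_adjoin (Or.inr ⟨_, h1', rfl⟩)
  refine Subalgebra.mul_mem _ hg' (Subalgebra.mul_mem _ hg (Subalgebra.mul_mem _ (rat_C _ _) ?_))
  refine Subalgebra.sub_mem _ (Subalgebra.mul_mem _ ?_ h2) (Subalgebra.mul_mem _
    (Subalgebra.mul_mem _ ?_ ?_) ?_)
  · exact Subalgebra.pow_mem _ (Subalgebra.sub_mem _ (Subalgebra.one_mem _) (rat_X _)) 2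
  · exact Subalgebra.pow_mem _ (rat_C _ _) n
  · exact Subalgebra.pow_mem _ (Subalgebra.sub_mem _ (Subalgebra.one_mem _) (rat_C _ _)) 2
  · exact Subalgebra.pow_mem _ (rat_X _) 2

end rat

end Pool.Agent.Helper33K9.HP
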