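import Pool.Agent.TH192.MU.TDefs
import Pool.Agent.H628R4.TP.Defs

set_option autoImplicit false

/-! # The topological monodromy conjecture for a polynomial -/

namespace Pool.Agent.Helper33K9.HP

open MvPolynomial Pool.Agent.H628R4.TP Pool.Agent.W428.MOT Pool.Agent.TH192.MT
  Pool.Agent.TH192.MU

/-- Every `b` with `b(s) f ^ s = P(s) f ^ (s + 1)`, `P(s) ∈ D[s]`, has a root in `c + ℤ`. As these
`b` are the multiples of the Bernstein-Sato polynomial of `f`, this means that `exp(2πic)` is
`exp(2πiα)` for a root `α` of the Bernstein-Sato polynomial, so that (Malgrange, Kashiwara)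
`exp(2πic)` is an eigenvalue of the monodromy of `f` at some point of `f = 0`. -/
def Eig {σ : Type} (f : MvPolynomial σ ℂ) (c : ℂ) : Prop :=
  ∀ b : Polynomial ℂ, IsBFunction f b → ∃ k : ℤ, b.eval (c + k) = 0

/-- `c` is the value of the topological zeta function of `f` at the integer `s`: the value under `ε`
of the value at `T = 𝕃 ^ (-s)` of the motivic zeta function `∑_d [X_d] 𝕃 ^ (-n d) T ^ d` of `f` in
`R[[T]]`, after the realisation `E` (`X_d` is the set of the `d`-jets on which `f` has the order `d`).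
Here `R` is a domain, `E 𝕃 ≠ 1`, and `ε ∘ E` is the Euler characteristic. -/
def Val {R : Type} [CommRing R] (E : MK ℂ →+* R) (ε : R →+* ℂ) {σ : Type} [Fintype σ]
    (f : MvPolynomial σ ℂ) (s : ℕ) (c : ℂ) : Prop :=
  SpecAt (Units.map (E : MK ℂ →* R) (Lu ℂ)) ε
    (PowerSeries.map E (zetaM f Set.univ {c | c ≠ 0})) s c

/-- The rational function `p / q`, in lowest terms, is the topological zeta function of `f`: its
value at `s` is `p(s) / q(s)` for all large integers `s`. -/
def IsTop {R : Type} [CommRing R] (E : MK ℂ →+* R) (ε : R →+* ℂ) {σ : Type} [Fintype σ]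
    (f : MvPolynomial σ ℂ) (p q : Polynomial ℂ) : Prop :=
  IsCoprime p q ∧ ∃ s₁ : ℕ, ∀ s : ℕ, s₁ ≤ s → ∃ c, Val E ε f s c ∧
    p.eval (s : ℂ) = c * q.eval (s : ℂ)

/-- The topological monodromy conjecture for `f`: for every pole `s₀` of the topological zeta
function, `exp(2πi s₀)` is an eigenvalue of the monodromy of `f` at some point of `f = 0`. -/
def MC {R : Type} [CommRing R] (E : MK ℂ →+* R) (ε : R →+* ℂ) {σ : Type} [Fintype σ]
    (f : MvPolynomial σ ℂ) : Prop :=
  ∀ p q : Polynomial ℂ, IsTop E ε f p q → ∀ s₀ : ℂ, q.eval s₀ = 0 → Eig f s₀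

/-- The strong topological monodromy conjecture for `f`: every pole of the topological zeta function
(all poles are negative rational numbers) is a root of the Bernstein-Sato polynomial of `f`, that is,
of every `b` with `b(s) f ^ s = P(s) f ^ (s + 1)`, `P(s) ∈ D[s]`. -/
def SMC {R : Type} [CommRing R] (E : MK ℂ →+* R) (ε : R →+* ℂ) {σ : Type} [Fintype σ]
    (f : MvPolynomial σ ℂ) : Prop :=
  ∀ p q : Polynomial ℂ, IsTop E ε f p q → ∀ s₀ : ℂ, s₀.re < 0 → q.eval s₀ = 0 →
    ∀ b : Polynomial ℂ, IsBFunction f b → b.eval s₀ = 0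

/-- The polynomial `f + u v` with two new variables `u`, `v` (the variables `Sum.inr false`,
`Sum.inr true`). -/
noncomputable def hyp {σ A : Type} [CommSemiring A] (f : MvPolynomial σ A) :
    MvPolynomial (σ ⊕ Bool) A :=
  rename Sum.inl f + X (Sum.inr false) * X (Sum.inr true)

/-- The polynomial `c₀ + ∑_i c_i x_i + ∑_k v_k (x_{n + k} - x_{a k} x_{b k})` of degree at most three
in the variables `x_i`, `i < n + r` (`Sum.inl i`), and `v_k`, `k < r` (`Sum.inr k`). -/
noncomputable def cubic {n r : ℕ} (c₀ : ℂ) (c : Fin (n + r) → ℂ) (a b : Fin r → Fin (n + r)) :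
    MvPolynomial (Fin (n + r) ⊕ Fin r) ℂ :=
  C c₀ + ∑ i, C (c i) * X (Sum.inl i) +
    ∑ k, X (Sum.inr k) * (X (Sum.inl (Fin.natAdd n k)) - X (Sum.inl (a k)) * X (Sum.inl (b k)))

end Pool.Agent.Helper33K9.HP
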