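import Pool.Agent.TH192.MT.YP
import Pool.Agent.TH192.MT.Top
import Pool.Agent.Helper33K9.HP.Defs

set_option autoImplicit false
set_option linter.unusedSectionVars false
set_option linter.unusedVariables false

/-! # The classes of the jets on which `f + u v` has order at least `m` -/

namespace Pool.Agent.Helper33K9.HP

open MvPolynomial Pool.Agent.W428.MOT Pool.Agent.TH192.MT

variable {K : Type} [Field K] {σ : Type}

theorem pf_ck {κ : Type} {N : ℕ} (φ : Pt K κ → σ × Fin (N + 1) → AlgebraicClosure K)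
    (hφ : ∀ i, IsPF fun z => φ z i) (f : MvPolynomial σ K) (j : ℕ) :
    IsPF (fun z : Pt K κ => PowerSeries.coeff j (aeval (ar (φ z)) f)) := by
  revert j
  induction f using MvPolynomial.induction_on with
  | C a =>
    intro j
    simp only [MvPolynomial.algHom_C, PowerSeries.algebraMap_apply, PowerSeries.coeff_C]
    split_ifs
    · exact IsPF.const a
    · exact IsPF.zero
  | add p q hp hq =>
    intro j
    simp only [map_add]
    exact (hp j).add (hq j)
  | mul_X p i hp =>
    intro j
    simp only [map_mul, aeval_X, PowerSeries.coeff_mul]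
    refine IsPF.sum _ _ fun q _ => (hp q.1).mul ?_
    simp only [coeff_ar]
    split_ifs
    · exact hφ _
    · exact IsPF.zero

theorem cg_aevalK (f : MvPolynomial σ K) (q : ℕ) (γ δ : σ → PowerSeries (AlgebraicClosure K))
    (h : ∀ i, Cg q (γ i) (δ i)) : Cg q (aeval γ f) (aeval δ f) := by
  induction f using MvPolynomial.induction_on with
  | C a =>
    intro k _
    simp only [MvPolynomial.algHom_C]
  | add p q hp hq =>
    intro k hk
    simp only [map_add, hp k hk, hq k hk]
  | mul_X p i hp =>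
    intro k hk
    simp only [map_mul, aeval_X, PowerSeries.coeff_mul]
    refine Finset.sum_congr rfl fun ab hab => ?_
    have := Finset.HasAntidiagonal.mem_antidiagonal.1 hab
    rw [hp ab.1 (by omega), h i ab.2 (by omega)]

/-- The `d`-jets `φ` with `φ(0) ∈ W` on which `f` has order at least `m`. -/
def AJ (f : MvPolynomial σ K) (W : Set (Pt K σ)) (d m : ℕ) : Set (Pt K (σ × Fin (d + 1))) :=
  {z | (fun i => z (i, 0)) ∈ W ∧ ∀ k < m, PowerSeries.coeff k (aeval (ar z) f) = 0}

theorem constr_AJ (f : MvPolynomial σ K) {W : Set (Pt K σ)} (hW : Constr W) (d m : ℕ) :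
    Constr (AJ f W d m) := by
  refine Constr.and (hW.preimage _ fun i => IsPF.coord _) ?_
  exact Constr.allLt _ fun k _ => Constr.eqz (pf_ck _ (fun i => IsPF.coord _) _ _)

/-- the last coordinates of the jets -/
def eLast (σ : Type) (N : ℕ) : (σ × Fin (N + 1)) ⊕ σ ≃ σ × Fin (N + 2) where
  toFun := fun x => match x with
    | Sum.inl q => (q.1, q.2.castSucc)
    | Sum.inr i => (i, Fin.last _)
  invFun := fun x => match x with
    | (i, j) => Fin.lastCases (motive := fun _ => (σ × Fin (N + 1)) ⊕ σ)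
        (Sum.inr i) (fun j => Sum.inl (i, j)) j
  left_inv := by
    rintro (⟨i, j⟩ | i)
    · simp only [Fin.lastCases_castSucc]
    · simp only [Fin.lastCases_last]
  right_inv := by
    rintro ⟨i, j⟩
    refine Fin.lastCases ?_ (fun j => ?_) j
    · simp only [Fin.lastCases_last]
    · simp only [Fin.lastCases_castSucc]

section chi

variable {R : Type} [CommRing R] (M : Meas K R) [Fintype σ]

theorem chi_AJ_succ (f : MvPolynomial σ K) {W : Set (Pt K σ)} (hW : Constr W) (d m : ℕ)
    (hm : m ≤ d + 1) : M.χ _ (AJ f W (d + 1) m) = M.χ _ (AJ f W d m) * M.L ^ Fintype.card σ := by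
  refine chi_split M (eLast σ d) _ _ (constr_AJ f hW d m) fun z => ?_
  have h1 : ∀ i, Cg d (ar z i) (ar (N := d) (fun x => z (eLast σ d (Sum.inl x))) i) := by
    intro i k hk
    rw [coeff_ar, coeff_ar, dif_pos (by omega), dif_pos (by omega)]
    rfl
  have h2 := cg_aevalK f d _ _ h1
  unfold AJ
  rw [Set.mem_ofPred_eq, Set.mem_ofPred_eq]
  refine and_congr Iff.rfl (forall₂_congr fun k hk => ?_)
  rw [h2 k (by omega)]

/-- the arc of `f` -/
noncomputable def fa (f : MvPolynomial σ K) {d : ℕ} (z : Pt K ((σ ⊕ Bool) × Fin (d + 1))) :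
    PowerSeries (AlgebraicClosure K) := aeval (fun i => ar z (Sum.inl i)) f

theorem pf_fa (f : MvPolynomial σ K) {d : ℕ} (k : ℕ) :
    IsPF (fun z : Pt K ((σ ⊕ Bool) × Fin (d + 1)) => PowerSeries.coeff k (fa f z)) :=
  pf_ck (fun (z : Pt K ((σ ⊕ Bool) × Fin (d + 1))) (q : σ × Fin (d + 1)) => z (Sum.inl q.1, q.2))
    (fun i => IsPF.coord _) f k

theorem pf_ar {ι : Type} {d : ℕ} (i : ι) (k : ℕ) :
    IsPF (fun z : Pt K (ι × Fin (d + 1)) => PowerSeries.coeff k (ar z i)) := by
  simp only [coeff_ar]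
  split_ifs
  · exact IsPF.coord _
  · exact IsPF.zero

theorem pf_hyp (f : MvPolynomial σ K) {d : ℕ} (k : ℕ) :
    IsPF (fun z : Pt K ((σ ⊕ Bool) × Fin (d + 1)) =>
      PowerSeries.coeff k (fa f z + ar z (Sum.inr false) * ar z (Sum.inr true))) := by
  simp only [map_add, PowerSeries.coeff_mul]
  exact (pf_fa f k).add (IsPF.sum _ _ fun q _ => (pf_ar _ _).mul (pf_ar _ _))

theorem aeval_hyp (f : MvPolynomial σ K) {d : ℕ} (z : Pt K ((σ ⊕ Bool) × Fin (d + 1))) :
    aeval (ar z) (hyp f) = fa f z + ar z (Sum.inr false) * ar z (Sum.inr true) := by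
  rw [hyp, map_add, map_mul, aeval_X, aeval_X, aeval_rename]
  rfl

/-- `f` has order at least `J`, `u` has order at least `j`, `v` has order at least `e` -/
def BJ (f : MvPolynomial σ K) (W : Set (Pt K σ)) (e d J j : ℕ) :
    Set (Pt K ((σ ⊕ Bool) × Fin (d + 1))) :=
  {z | ((fun i => z (Sum.inl i, 0)) ∈ W ∧ ∀ k < J, PowerSeries.coeff k (fa f z) = 0) ∧
    (∀ k < j, PowerSeries.coeff k (ar z (Sum.inr false)) = 0) ∧
    ∀ k < e, PowerSeries.coeff k (ar z (Sum.inr true)) = 0}

/-- `f + u v` has order at least `m`, `u` has order at least `j`, `v` has order at least `e` -/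
def TJ (f : MvPolynomial σ K) (W : Set (Pt K σ)) (e d m j : ℕ) :
    Set (Pt K ((σ ⊕ Bool) × Fin (d + 1))) :=
  {z | ((fun i => z (Sum.inl i, 0)) ∈ W ∧ ∀ k < m, PowerSeries.coeff k
      (fa f z + ar z (Sum.inr false) * ar z (Sum.inr true)) = 0) ∧
    (∀ k < j, PowerSeries.coeff k (ar z (Sum.inr false)) = 0) ∧
    ∀ k < e, PowerSeries.coeff k (ar z (Sum.inr true)) = 0}

theorem constr_BJ (f : MvPolynomial σ K) {W : Set (Pt K σ)} (hW : Constr W) (e d J j : ℕ) :
    Constr (BJ f W e d J j) := by
  refine Constr.and (Constr.and (hW.preimage _ fun i => IsPF.coord _) ?_) (Constr.and ?_ ?_)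
  · exact Constr.allLt _ fun k _ => Constr.eqz (pf_fa f k)
  · exact Constr.allLt _ fun k _ => Constr.eqz (pf_ar _ _)
  · exact Constr.allLt _ fun k _ => Constr.eqz (pf_ar _ _)

theorem constr_TJ (f : MvPolynomial σ K) {W : Set (Pt K σ)} (hW : Constr W) (e d m j : ℕ) :
    Constr (TJ f W e d m j) := by
  refine Constr.and (Constr.and (hW.preimage _ fun i => IsPF.coord _) ?_) (Constr.and ?_ ?_)
  · exact Constr.allLt _ fun k _ => Constr.eqz (pf_hyp f k)
  · exact Constr.allLt _ fun k _ => Constr.eqz (pf_ar _ _)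
  · exact Constr.allLt _ fun k _ => Constr.eqz (pf_ar _ _)

open Classical in
/-- the coordinates of `u` below `j` and the coordinates of `v` below `e` -/
noncomputable def zs (σ : Type) (d j e : ℕ) : Finset ((σ ⊕ Bool) × Fin (d + 1)) :=
  ((Finset.univ.filter fun k : Fin (d + 1) => (k : ℕ) < j).image fun k => (Sum.inr false, k)) ∪
    ((Finset.univ.filter fun k : Fin (d + 1) => (k : ℕ) < e).image fun k => (Sum.inr true, k))

theorem card_lt (d j : ℕ) (hj : j ≤ d + 1) :
    (Finset.univ.filter fun k : Fin (d + 1) => (k : ℕ) < j).card = j := by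
  rw [Fin.card_filter_val_lt]
  omega

theorem card_zs (d j e : ℕ) (hj : j ≤ d + 1) (he : e ≤ d + 1) : (zs σ d j e).card = j + e := by
  classical
  unfold zs
  rw [Finset.card_union_of_disjoint, Finset.card_image_of_injective,
    Finset.card_image_of_injective, card_lt d j hj, card_lt d e he]
  · intro a b h
    exact (Prod.ext_iff.1 h).2
  · intro a b h
    exact (Prod.ext_iff.1 h).2
  · rw [Finset.disjoint_left]
    intro x h1 h2
    obtain ⟨k, _, rfl⟩ := Finset.mem_image.1 h1
    obtain ⟨k', _, h3⟩ := Finset.mem_image.1 h2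
    have := (Prod.ext_iff.1 h3).1
    simp at this

theorem ar_zero_iff {ι : Type} {d : ℕ} (z : Pt K (ι × Fin (d + 1))) (i : ι) (j : ℕ) :
    (∀ k < j, PowerSeries.coeff k (ar z i) = 0) ↔ ∀ k : Fin (d + 1), (k : ℕ) < j → z (i, k) = 0 := by
  constructor
  · intro h k hk
    have := h k hk
    rw [coeff_ar, dif_pos k.2] at this
    exact this
  · intro h k hk
    rw [coeff_ar]
    split_ifs with h1
    · exact h ⟨k, h1⟩ hk
    · rfl

theorem chi_BJ (f : MvPolynomial σ K) {W : Set (Pt K σ)} (hW : Constr W) (e d J j : ℕ)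
    (hj : j ≤ d + 1) (he : e ≤ d + 1) :
    M.χ _ (BJ f W e d J j) * M.L ^ (j + e) = M.χ _ (AJ f W d J) * M.L ^ (2 * (d + 1)) := by
  classical
  set S : Set (Pt K ((σ ⊕ Bool) × Fin (d + 1))) :=
    {z | (fun i => z (Sum.inl i, 0)) ∈ W ∧ ∀ k < J, PowerSeries.coeff k (fa f z) = 0} with hS
  have hSc : Constr S := Constr.and (hW.preimage _ fun i => IsPF.coord _)
    (Constr.allLt _ fun k _ => Constr.eqz (pf_fa f k))
  have h1 : M.χ _ S = M.χ _ (AJ f W d J) * M.L ^ (2 * (d + 1)) := by
    have h2 := chi_split M (Equiv.sumProdDistrib σ Bool (Fin (d + 1))).symm S (AJ f W d J)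
      (constr_AJ f hW d J) fun z => Iff.rfl
    rw [h2, Fintype.card_prod, Fintype.card_bool, Fintype.card_fin]
  have h2 := Pool.Agent.W417.MT.Free.main M S ∅ (zs σ d j e) (fun _ => 0)
    (Finset.disjoint_empty_left _) hSc ?_
  · simp only [Finset.notMem_empty, false_imp_iff, implies_true, Set.ofPred_true, Set.inter_univ,
      Finset.empty_union, map_zero, Finset.card_empty, pow_zero, mul_one] at h2
    rw [card_zs d j e hj he] at h2
    rw [← h1, h2]
    congr 2
    ext z
    simp only [Set.mem_inter_iff, Set.mem_ofPred_eq, BJ, hS]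
    refine and_congr Iff.rfl ?_
    rw [ar_zero_iff, ar_zero_iff]
    constructor
    · rintro ⟨h3, h4⟩ i hi
      unfold zs at hi
      rcases Finset.mem_union.1 hi with h5 | h5
      · obtain ⟨k, hk, rfl⟩ := Finset.mem_image.1 h5
        exact h3 k (Finset.mem_filter.1 hk).2
      · obtain ⟨k, hk, rfl⟩ := Finset.mem_image.1 h5
        exact h4 k (Finset.mem_filter.1 hk).2
    · intro h3
      refine ⟨fun k hk => h3 _ ?_, fun k hk => h3 _ ?_⟩
      · exact Finset.mem_union_left _ (Finset.mem_image.2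
          ⟨k, Finset.mem_filter.2 ⟨Finset.mem_univ _, hk⟩, rfl⟩)
      · exact Finset.mem_union_right _ (Finset.mem_image.2
          ⟨k, Finset.mem_filter.2 ⟨Finset.mem_univ _, hk⟩, rfl⟩)
  · intro z w hzw hz
    have h3 : ∀ i k, w (Sum.inl i, k) = z (Sum.inl i, k) := by
      intro i k
      refine hzw _ (Finset.notMem_empty _) ?_
      intro h4
      rcases Finset.mem_union.1 h4 with h5 | h5
      · obtain ⟨k', _, h6⟩ := Finset.mem_image.1 h5
        have := (Prod.ext_iff.1 h6).1
        simp at this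
      · obtain ⟨k', _, h6⟩ := Finset.mem_image.1 h5
        have := (Prod.ext_iff.1 h6).1
        simp at this
    have h4 : fa f w = fa f z := by
      refine congrArg (fun γ : σ → PowerSeries (AlgebraicClosure K) => aeval γ f) (funext fun i => ?_)
      ext k
      rw [coeff_ar, coeff_ar]
      split_ifs
      · exact h3 _ _
      · rfl
    rw [hS, Set.mem_ofPred_eq] at hz ⊢
    rw [h4]
    simp only [h3]
    exact hz

/-- the part where `u` has order exactly `j` -/
theorem chi_layer (f : MvPolynomial σ K) {W : Set (Pt K σ)} (hW : Constr W) (e d m j : ℕ)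
    (he : e ≤ j) (hj : j + e ≤ m) (hm : m ≤ d + 1) :
    (M.χ _ (TJ f W e d m j) - M.χ _ (TJ f W e d m (j + 1))) * M.L ^ (m - j - e) =
      M.χ _ (BJ f W e d (j + e) j) - M.χ _ (BJ f W e d (j + e) (j + 1)) := by
  classical
  set N : Set (Pt K ((σ ⊕ Bool) × Fin (d + 1))) :=
    {z | PowerSeries.coeff j (ar z (Sum.inr false)) ≠ 0} with hN
  have hNc : Constr N := Constr.not (Constr.eqz (pf_ar _ _))
  have h1 : ∀ (S S' : Set (Pt K ((σ ⊕ Bool) × Fin (d + 1)))), Constr S → Constr S' →
      (S = (S ∩ N) ∪ S') → Disjoint (S ∩ N) S' → M.χ _ S - M.χ _ S' = M.χ _ (S ∩ N) := by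
    intro S S' hS hS' h2 h3
    have h4 := M.add _ _ (hS.inter hNc) hS' h3
    rw [← h2] at h4
    rw [h4, add_sub_cancel_right]
  have hsucc : ∀ z : Pt K ((σ ⊕ Bool) × Fin (d + 1)),
      (∀ k < j + 1, PowerSeries.coeff k (ar z (Sum.inr false)) = 0) ↔
        (∀ k < j, PowerSeries.coeff k (ar z (Sum.inr false)) = 0) ∧ z ∉ N := by
    intro z
    rw [hN, Set.mem_ofPred_eq, not_not]
    constructor
    · intro h
      exact ⟨fun k hk => h k (by omega), h j (by omega)⟩
    · rintro ⟨h, h'⟩ k hk
      rcases Nat.lt_succ_iff_lt_or_eq.1 hk with h3 | h3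
      · exact h k h3
      · rw [h3]
        exact h'
  have h2 : M.χ _ (TJ f W e d m j) - M.χ _ (TJ f W e d m (j + 1)) =
      M.χ _ (TJ f W e d m j ∩ N) := by
    refine h1 _ _ (constr_TJ f hW e d m j) (constr_TJ f hW e d m (j + 1)) ?_ ?_
    · ext z
      simp only [TJ, Set.mem_union, Set.mem_inter_iff, Set.mem_ofPred_eq, hsucc z]
      by_cases h : z ∈ N
      · tauto
      · tauto
    · rw [Set.disjoint_left]
      rintro z ⟨_, h3⟩ h4
      simp only [TJ, Set.mem_ofPred_eq, hsucc z] at h4
      exact h4.2.1.2 h3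
  have h3 : M.χ _ (BJ f W e d (j + e) j) - M.χ _ (BJ f W e d (j + e) (j + 1)) =
      M.χ _ (BJ f W e d (j + e) j ∩ N) := by
    refine h1 _ _ (constr_BJ f hW e d (j + e) j) (constr_BJ f hW e d (j + e) (j + 1)) ?_ ?_
    · ext z
      simp only [BJ, Set.mem_union, Set.mem_inter_iff, Set.mem_ofPred_eq, hsucc z]
      by_cases h : z ∈ N
      · tauto
      · tauto
    · rw [Set.disjoint_left]
      rintro z ⟨_, h3⟩ h4
      simp only [BJ, Set.mem_ofPred_eq, hsucc z] at h4
      exact h4.2.1.2 h3
  rw [h2, h3]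
  set S := BJ f W e d (j + e) j ∩ N with hS
  have hSc : Constr S := (constr_BJ f hW e d (j + e) j).inter hNc
  set C : Finset ((σ ⊕ Bool) × Fin (d + 1)) :=
    (Finset.univ.filter fun k : Fin (d + 1) => e ≤ (k : ℕ)).image fun k => (Sum.inr true, k) with hC
  have hCmem : ∀ i, i ∈ C ↔ ∃ k : Fin (d + 1), e ≤ (k : ℕ) ∧ (Sum.inr true, k) = i := by
    intro i
    rw [hC, Finset.mem_image]
    simp only [Finset.mem_filter, Finset.mem_univ, true_and]
  set D : Fin (m - j - e) → ((σ ⊕ Bool) × Fin (d + 1)) → Pt K ((σ ⊕ Bool) × Fin (d + 1)) →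
      AlgebraicClosure K := fun p v z => if (v.2 : ℕ) ≤ j + e + p then
        PowerSeries.coeff (j + e + p - v.2) (ar z (Sum.inr false)) else 0 with hD
  set h : Fin (m - j - e) → Pt K ((σ ⊕ Bool) × Fin (d + 1)) → AlgebraicClosure K :=
    fun p z => PowerSeries.coeff (j + e + p) (fa f z) with hh
  -- the conditions
  have hcond : ∀ z ∈ BJ f W e d (j + e) j, ∀ p : Fin (m - j - e),
      ∑ v ∈ C, D p v z * z v + h p z = PowerSeries.coeff (j + e + p)
        (fa f z + ar z (Sum.inr false) * ar z (Sum.inr true)) := by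
    intro z hz p
    rw [map_add, mul_comm (ar z (Sum.inr false)), coeff_ar_mul, hC, Finset.sum_image, add_comm]
    · congr 1
      rw [Finset.sum_filter]
      refine Finset.sum_congr rfl fun k _ => ?_
      split_ifs with h5 h6 h6
      · rw [hD]
        simp only
        rw [if_pos h6, mul_comm]
      · rw [hD]
        simp only
        rw [if_neg h6, zero_mul, mul_zero]
      · have h7 := (ar_zero_iff z (Sum.inr true) e).1 hz.2.2 k (by omega)
        rw [h7, zero_mul]
      · rw [mul_zero]
    · intro a _ b _ hab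
      exact (Prod.ext_iff.1 hab).2
  have hlow : ∀ z : Pt K ((σ ⊕ Bool) × Fin (d + 1)),
      (∀ k < j, PowerSeries.coeff k (ar z (Sum.inr false)) = 0) →
      (∀ k < e, PowerSeries.coeff k (ar z (Sum.inr true)) = 0) → ∀ k < j + e,
      PowerSeries.coeff k (fa f z + ar z (Sum.inr false) * ar z (Sum.inr true)) =
        PowerSeries.coeff k (fa f z) := by
    intro z h4 h5 k hk
    rw [map_add, PowerSeries.coeff_mul, Finset.sum_eq_zero, add_zero]
    intro q hq
    have h6 := Finset.HasAntidiagonal.mem_antidiagonal.1 hq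
    rcases lt_or_ge q.1 j with h7 | h7
    · rw [h4 _ h7, zero_mul]
    · rw [h5 _ (by omega), mul_zero]
  have hset : TJ f W e d m j ∩ N = S ∩ {z | ∀ p, ∑ v ∈ C, D p v z * z v + h p z = 0} := by
    ext z
    constructor
    · rintro ⟨⟨⟨h4, h5⟩, h6, h7⟩, h8⟩
      have hz : z ∈ BJ f W e d (j + e) j := by
        refine ⟨⟨h4, fun k hk => ?_⟩, h6, h7⟩
        rw [← hlow z h6 h7 k hk]
        exact h5 k (by omega)
      refine ⟨⟨hz, h8⟩, fun p => ?_⟩
      rw [hcond z hz p]
      exact h5 _ (by have := p.2; omega)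
    · rintro ⟨⟨hz, h8⟩, h9⟩
      obtain ⟨⟨h4, h5⟩, h6, h7⟩ := hz
      refine ⟨⟨⟨h4, fun k hk => ?_⟩, h6, h7⟩, h8⟩
      rcases lt_or_ge k (j + e) with h10 | h10
      · rw [hlow z h6 h7 k h10]
        exact h5 k h10
      · have h11 := h9 ⟨k - (j + e), by omega⟩
        rw [hcond z ⟨⟨h4, h5⟩, h6, h7⟩] at h11
        simp only at h11
        rw [Nat.add_sub_cancel' h10] at h11
        exact h11
  rw [hset]
  refine sLin' M C (m - j - e) S D h hSc ?_ ?_ ?_ ?_
  · intro p v
    rw [hD]
    simp only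
    split_ifs
    · exact pf_ar _ _
    · exact IsPF.zero
  · intro p
    exact pf_fa f _
  · intro z w hzw
    have hnC : ∀ (i : σ ⊕ Bool) (k : Fin (d + 1)), i ≠ Sum.inr true → (i, k) ∉ C := by
      intro i k hi h4
      obtain ⟨k', _, h5⟩ := (hCmem _).1 h4
      exact hi (Prod.ext_iff.1 h5).1.symm
    have har : ∀ i : σ ⊕ Bool, i ≠ Sum.inr true → ar w i = ar z i := by
      intro i hi
      ext k
      rw [coeff_ar, coeff_ar]
      split_ifs
      · exact hzw _ (hnC _ _ hi)
      · rfl
    have hfa : fa f w = fa f z :=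
      congrArg (fun γ : σ → PowerSeries (AlgebraicClosure K) => aeval γ f)
        (funext fun i => har _ (by simp))
    have huu := har (Sum.inr false) (by simp)
    refine ⟨fun hz => ?_, fun p v => ?_, fun p => ?_⟩
    · obtain ⟨⟨⟨h4, h5⟩, h6, h7⟩, h8⟩ := hz
      refine ⟨⟨⟨?_, ?_⟩, ?_, ?_⟩, ?_⟩
      · have : (fun i => w (Sum.inl i, 0)) = fun i => z (Sum.inl i, 0) := by
          funext i
          exact hzw _ (hnC _ _ (by simp))
        rw [this]
        exact h4
      · rw [hfa]
        exact h5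
      · rw [huu]
        exact h6
      · rw [ar_zero_iff] at h7 ⊢
        intro k hk
        rw [hzw]
        · exact h7 k hk
        · intro h9
          obtain ⟨k', h10, h11⟩ := (hCmem _).1 h9
          have h12 := (Prod.ext_iff.1 h11).2
          simp only at h12
          rw [h12] at h10
          omega
      · rw [hN, Set.mem_ofPred_eq] at h8 ⊢
        rw [huu]
        exact h8
    · rw [hD]
      simp only
      rw [huu]
    · rw [hh]
      simp only
      rw [hfa]
  · intro z hz l hl
    obtain ⟨⟨⟨h4, h5⟩, h6, h7⟩, h8⟩ := hz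
    have key : ∀ (k : ℕ) (s : Fin (m - j - e)), m - j - e ≤ (s : ℕ) + k → l s = 0 := by
      intro k
      induction k with
      | zero =>
        intro s hs
        have := s.2
        omega
      | succ k ih =>
        intro s hs
        have hs1 := s.2
        have h9 := hl (Sum.inr true, ⟨e + s, by omega⟩)
          ((hCmem _).2 ⟨⟨e + s, by omega⟩, by simp, rfl⟩)
        rw [Finset.sum_eq_single s] at h9
        · have h10 : D s (Sum.inr true, ⟨e + s, by omega⟩) z =
              PowerSeries.coeff j (ar z (Sum.inr false)) := by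
            rw [hD]
            simp only
            rw [if_pos (by omega)]
            congr 2
            omega
          rw [h10] at h9
          exact (mul_eq_zero.1 h9).resolve_right h8
        · intro s' _ hs'
          rcases lt_or_gt_of_ne (fun h => hs' (Fin.ext h) : (s' : ℕ) ≠ s) with h10 | h10
          · have h11 : D s' (Sum.inr true, ⟨e + s, by omega⟩) z = 0 := by
              rw [hD]
              simp only
              split_ifs with h12
              · exact h6 _ (by omega)
              · rfl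
            rw [h11, mul_zero]
          · rw [ih s' (by omega), zero_mul]
        · intro h10
          exact absurd (Finset.mem_univ _) h10
    intro p
    exact key (m - j - e) p (Nat.le_add_left _ _)

end chi

end Pool.Agent.Helper33K9.HP
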