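import Pool.Agent.Helper33K9.HP.Ops
import Pool.Agent.Helper33K9.HP.Jet

set_option autoImplicit false
set_option linter.unusedSectionVars false
set_option linter.unusedVariables false

/-! # From functional equations of `f` to functional equations of `f + u v` -/

namespace Pool.Agent.Helper33K9.HP

open MvPolynomial Pool.Agent.H628R4.TP

variable {σ : Type}

/-- the new variables -/
noncomputable def U (σ : Type) : MvPolynomial (σ ⊕ Bool) ℂ := X (Sum.inr false)

/-- the new variables -/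
noncomputable def V (σ : Type) : MvPolynomial (σ ⊕ Bool) ℂ := X (Sum.inr true)

theorem hyp_eq (f : MvPolynomial σ ℂ) : hyp f = U σ * V σ + rename Sum.inl f := by
  rw [hyp, add_comm]
  rfl

theorem dU_U : pderiv (Sum.inr false) (U σ) = 1 := pderiv_X_self _

theorem dV_V : pderiv (Sum.inr true) (V σ) = 1 := pderiv_X_self _

theorem dU_V : pderiv (Sum.inr false) (V σ) = 0 := pderiv_X_of_ne (by simp)

theorem dV_U : pderiv (Sum.inr true) (U σ) = 0 := pderiv_X_of_ne (by simp)

theorem dx_U (i : σ) : pderiv (Sum.inl i) (U σ) = 0 := pderiv_X_of_ne (by simp)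

theorem dx_V (i : σ) : pderiv (Sum.inl i) (V σ) = 0 := pderiv_X_of_ne (by simp)

theorem d_ren (b : Bool) (a : MvPolynomial σ ℂ) : pderiv (Sum.inr b) (rename Sum.inl a) = 0 := by
  induction a using MvPolynomial.induction_on with
  | C c => rw [rename_C, pderiv_C]
  | add p q hp hq => rw [map_add, map_add, hp, hq, add_zero]
  | mul_X p i hp => rw [map_mul, Derivation.leibniz, hp, rename_X, pderiv_X_of_ne (by simp)]; simp

theorem dx_ren (i : σ) (a : MvPolynomial σ ℂ) :
    pderiv (Sum.inl i) (rename (Sum.inl : σ → σ ⊕ Bool) a) = rename Sum.inl (pderiv i a) :=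
  pderiv_rename Sum.inl_injective i a

theorem dx_term (i : σ) (a : MvPolynomial σ ℂ) (k l : ℕ) :
    pderiv (Sum.inl i) (rename Sum.inl a * (U σ ^ k * V σ ^ l)) =
      rename Sum.inl (pderiv i a) * (U σ ^ k * V σ ^ l) := by
  have h1 : pderiv (Sum.inl i) (U σ ^ k * V σ ^ l) = 0 := by
    rw [Derivation.leibniz, Derivation.leibniz_pow, Derivation.leibniz_pow, dx_U, dx_V,
      smul_zero, smul_zero, smul_zero, smul_zero, smul_zero, smul_zero, add_zero]
  rw [Derivation.leibniz, h1, dx_ren, smul_zero, zero_add, smul_eq_mul, mul_comm]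

/-- extension of the operators to two more variables -/
theorem ext_op (Q : Module.End ℂ (MvPolynomial σ ℂ)) (hQ : Q ∈ weylS σ) :
    ∃ Q' : weylS (σ ⊕ Bool), ∀ (a : MvPolynomial σ ℂ) (i j : ℕ),
      (Q' : Module.End ℂ (MvPolynomial (σ ⊕ Bool) ℂ)) (rename Sum.inl a * (U σ ^ i * V σ ^ j)) =
        rename Sum.inl (Q a) * (U σ ^ i * V σ ^ j) := by
  induction hQ using Algebra.adjoin_induction with
  | mem Q hQ =>
    rcases hQ with ⟨i, rfl⟩ | ⟨i, rfl⟩
    · refine ⟨mulW (X (Sum.inl i)), fun a k l => ?_⟩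
      rw [mulW_apply, ← mul_assoc, LinearMap.mulLeft_apply, map_mul, rename_X]
    · refine ⟨dW (Sum.inl i), fun a k l => ?_⟩
      rw [dW_apply, dx_term]
      rfl
  | algebraMap c =>
    refine ⟨algebraMap ℂ _ c, fun a k l => ?_⟩
    rw [Subalgebra.coe_algebraMap, Module.algebraMap_end_apply, Module.algebraMap_end_apply,
      map_smul, smul_mul_assoc]
  | add Q1 Q2 _ _ h1 h2 =>
    obtain ⟨Q1', h1⟩ := h1
    obtain ⟨Q2', h2⟩ := h2
    refine ⟨Q1' + Q2', fun a k l => ?_⟩
    rw [Subalgebra.coe_add, LinearMap.add_apply, LinearMap.add_apply, h1, h2, map_add, add_mul]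
  | mul Q1 Q2 _ _ h1 h2 =>
    obtain ⟨Q1', h1⟩ := h1
    obtain ⟨Q2', h2⟩ := h2
    refine ⟨Q1' * Q2', fun a k l => ?_⟩
    rw [Subalgebra.coe_mul, Module.End.mul_apply, Module.End.mul_apply, h2, h1]

/-- the Euler operator `u ∂_u` -/
noncomputable def EE (σ : Type) : weylS (σ ⊕ Bool) := mulW (U σ) * dW (Sum.inr false)

theorem EE_apply (h : MvPolynomial (σ ⊕ Bool) ℂ) :
    (EE σ : Module.End ℂ (MvPolynomial (σ ⊕ Bool) ℂ)) h = U σ * pderiv (Sum.inr false) h := rfl

theorem EE_term (a : MvPolynomial σ ℂ) (i j : ℕ) :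
    (EE σ : Module.End ℂ (MvPolynomial (σ ⊕ Bool) ℂ)) (rename Sum.inl a * (U σ ^ i * V σ ^ j)) =
      (i : ℂ) • (rename Sum.inl a * (U σ ^ i * V σ ^ j)) := by
  rw [EE_apply, Derivation.leibniz, Derivation.leibniz, Derivation.leibniz_pow,
    Derivation.leibniz_pow, dU_U, dU_V, d_ren]
  rcases i with _ | i
  · simp
  · rw [Nat.add_sub_cancel, smul_eq_C_mul, map_natCast]
    simp only [smul_zero, smul_eq_mul, mul_one, mul_zero, add_zero, nsmul_eq_mul, zero_add,
      pow_succ]
    ring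

/-- the operator `s - u ∂_u` -/
noncomputable def TT (σ : Type) (s : ℕ) : Module.End ℂ (MvPolynomial (σ ⊕ Bool) ℂ) :=
  evS s (Polynomial.X + Polynomial.C (-EE σ))

theorem TT_apply (s : ℕ) (h : MvPolynomial (σ ⊕ Bool) ℂ) :
    TT σ s h = (s : ℂ) • h - (EE σ : Module.End ℂ (MvPolynomial (σ ⊕ Bool) ℂ)) h := by
  rw [TT, evS_add_apply, evS_X, evS_C, sub_eq_add_neg]
  rfl

theorem aeval_eigen {M : Type} [AddCommGroup M] [Module ℂ M] (T : Module.End ℂ M) (μ : ℂ) (h : M)
    (hT : T h = μ • h) (b : Polynomial ℂ) : (Polynomial.aeval T b) h = (b.eval μ) • h := by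
  induction b using Polynomial.induction_on' with
  | add p q hp hq => rw [map_add, LinearMap.add_apply, hp, hq, Polynomial.eval_add, add_smul]
  | monomial m a =>
    have h1 : ∀ m : ℕ, (T ^ m) h = (μ ^ m) • h := by
      intro m
      induction m with
      | zero => simp
      | succ m ih =>
        rw [pow_succ']
        change T ((T ^ m) h) = _
        rw [ih, map_smul, hT, smul_smul, pow_succ]
    rw [Polynomial.aeval_monomial, Polynomial.eval_monomial]
    change (algebraMap ℂ (Module.End ℂ M) a) ((T ^ m) h) = _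
    rw [Module.algebraMap_end_apply, h1, smul_smul]

/-- division with remainder by `u ∂_u + 1` -/
theorem exists_W (b : Polynomial ℂ) : ∃ W : Polynomial (weylS (σ ⊕ Bool)), ∀ (s : ℕ)
    (h : MvPolynomial (σ ⊕ Bool) ℂ), (Polynomial.aeval (TT σ s) b) h +
      evS s W ((EE σ : Module.End ℂ (MvPolynomial (σ ⊕ Bool) ℂ)) h + h) =
        (b.eval ((s : ℂ) + 1)) • h := by
  induction b using Polynomial.induction_on with
  | C a =>
    refine ⟨0, fun s h => ?_⟩
    rw [map_zero, Polynomial.aeval_C, Polynomial.eval_C, Module.algebraMap_end_apply,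
      LinearMap.zero_apply, add_zero]
  | add p q hp hq =>
    obtain ⟨W1, h1⟩ := hp
    obtain ⟨W2, h2⟩ := hq
    refine ⟨W1 + W2, fun s h => ?_⟩
    rw [map_add, LinearMap.add_apply, evS_add_apply, Polynomial.eval_add, add_smul, ← h1, ← h2]
    abel
  | monomial n a ih =>
    obtain ⟨W, h1⟩ := ih
    refine ⟨cS ((Polynomial.C a * Polynomial.X ^ n).comp (Polynomial.X + 1)) +
      (Polynomial.X + Polynomial.C (-EE σ)) * W, fun s h => ?_⟩
    have h2 : (Polynomial.C a * Polynomial.X ^ (n + 1) : Polynomial ℂ) =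
        Polynomial.X * (Polynomial.C a * Polynomial.X ^ n) := by ring
    rw [h2, map_mul, Polynomial.aeval_X]
    change TT σ s ((Polynomial.aeval (TT σ s) (Polynomial.C a * Polynomial.X ^ n)) h) + _ = _
    rw [evS_add_apply, evS_mul_apply, evS_cS]
    change TT σ s _ + (_ + TT σ s _) = _
    have h3 := congrArg (TT σ s) (h1 s h)
    rw [map_add, map_smul, TT_apply s h] at h3
    rw [add_left_comm, h3]
    have h4 : ((Polynomial.C a * Polynomial.X ^ n).comp (Polynomial.X + 1)).eval (s : ℂ) =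
        (Polynomial.C a * Polynomial.X ^ n : Polynomial ℂ).eval ((s : ℂ) + 1) := by
      rw [Polynomial.eval_comp, Polynomial.eval_add, Polynomial.eval_X, Polynomial.eval_one]
    have h5 : (Polynomial.X * (Polynomial.C a * Polynomial.X ^ n) : Polynomial ℂ).eval
        ((s : ℂ) + 1) = (Polynomial.C a * Polynomial.X ^ n : Polynomial ℂ).eval ((s : ℂ) + 1) *
          ((s : ℂ) + 1) := by
      rw [mul_comm, Polynomial.eval_mul, Polynomial.eval_X]
    rw [h4, h5, mul_smul, ← smul_add]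
    congr 1
    rw [add_smul, one_smul]
    abel

/-- the equation of `f` for the operators which are extended to the new variables -/
theorem exists_hat (p : Polynomial (weylS σ)) : ∃ q : Polynomial (weylS (σ ⊕ Bool)),
    (∀ (s k : ℕ) (a : MvPolynomial σ ℂ), k ≤ s →
      evS s q (rename Sum.inl a * (U σ ^ k * V σ ^ k)) =
        rename Sum.inl (evS (s - k) p a) * (U σ ^ k * V σ ^ k)) ∧
    ∀ (s k : ℕ) (a : MvPolynomial σ ℂ), ∃ a' : MvPolynomial σ ℂ,
      evS s q (rename Sum.inl a * (U σ ^ k * V σ ^ k)) =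
        rename Sum.inl a' * (U σ ^ k * V σ ^ k) := by
  choose Q' hQ' using fun m => ext_op (p.coeff m : Module.End ℂ (MvPolynomial σ ℂ)) (p.coeff m).2
  have key : ∀ (s k : ℕ) (a : MvPolynomial σ ℂ),
      evS s (∑ m ∈ p.support, (Polynomial.X + Polynomial.C (-EE σ)) ^ m * Polynomial.C (Q' m))
        (rename Sum.inl a * (U σ ^ k * V σ ^ k)) =
      rename Sum.inl (∑ m ∈ p.support, (((s : ℂ) - k) ^ m) •
        (p.coeff m : Module.End ℂ (MvPolynomial σ ℂ)) a) * (U σ ^ k * V σ ^ k) := by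
    intro s k a
    rw [evS_sum, map_sum, Finset.sum_mul]
    refine Finset.sum_congr rfl fun m _ => ?_
    rw [evS_mul_apply, evS_C, hQ', map_smul, smul_mul_assoc, map_pow]
    have h1 : ∀ h : MvPolynomial (σ ⊕ Bool) ℂ, TT σ s h = ((s : ℂ) - k) • h →
        (TT σ s ^ m) h = (((s : ℂ) - k) ^ m) • h := by
      intro h hh
      have := aeval_eigen (TT σ s) _ h hh (Polynomial.X ^ m)
      rw [map_pow, Polynomial.aeval_X, Polynomial.eval_pow, Polynomial.eval_X] at this
      exact this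
    change (TT σ s ^ m) _ = _
    rw [h1]
    rw [TT_apply, EE_term, sub_smul]
  refine ⟨_, fun s k a hk => ?_, fun s k a => ⟨_, key s k a⟩⟩
  rw [key]
  conv_rhs => rw [p.as_sum_support_C_mul_X_pow]
  rw [evS_sum]
  congr 2
  refine Finset.sum_congr rfl fun m _ => ?_
  rw [evS_mul_apply, evS_C, evS_X_pow_apply, map_smul, Nat.cast_sub hk]

theorem pow_hyp (f : MvPolynomial σ ℂ) (n : ℕ) : hyp f ^ n =
    ∑ k ∈ Finset.range (n + 1), (n.choose k : ℂ) •
      (rename Sum.inl (f ^ (n - k)) * (U σ ^ k * V σ ^ k)) := by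
  rw [hyp_eq, add_pow]
  refine Finset.sum_congr rfl fun k _ => ?_
  rw [map_pow, mul_pow, smul_eq_C_mul, map_natCast]
  ring

/-- the Euler operator and the powers of `f + u v` -/
theorem dd_hyp (f : MvPolynomial σ ℂ) (s : ℕ) :
    pderiv (Sum.inr false) (pderiv (Sum.inr true) (hyp f ^ (s + 1))) =
      ((s : ℂ) + 1) • ((EE σ : Module.End ℂ (MvPolynomial (σ ⊕ Bool) ℂ)) (hyp f ^ s) +
        hyp f ^ s) := by
  have h1 : pderiv (Sum.inr true) (hyp f) = U σ := by
    rw [hyp_eq, map_add, Derivation.leibniz, dV_V, dV_U, d_ren]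
    simp
  have h2 : pderiv (Sum.inr true) (hyp f ^ (s + 1)) = ((s : ℂ) + 1) • (U σ * hyp f ^ s) := by
    rw [Derivation.leibniz_pow, h1, Nat.add_sub_cancel, smul_eq_C_mul, map_add, map_natCast,
      map_one, nsmul_eq_mul, smul_eq_mul]
    push_cast
    ring
  rw [h2, Derivation.map_smul, Derivation.leibniz, dU_U, EE_apply, smul_eq_mul, smul_eq_mul,
    mul_one]

/-- **A functional equation of `f + u v`.** -/
theorem UB_hyp {H f : MvPolynomial σ ℂ} {b : Polynomial ℂ} (hb : UB H f b) :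
    UB (rename Sum.inl H) (hyp f) ((Polynomial.X + 1) * b.comp (Polynomial.X + 1)) := by
  obtain ⟨p, hp⟩ := hb
  obtain ⟨q, hq, hq'⟩ := exists_hat p
  obtain ⟨W, hW⟩ := exists_W (σ := σ) b
  refine ⟨(Polynomial.X + Polynomial.C (1 + -EE σ)) * q +
    Polynomial.C (mulW (rename Sum.inl H)) *
      (W * Polynomial.C (dW (Sum.inr false) * dW (Sum.inr true))), fun s => ?_⟩
  have hS : ∀ h : MvPolynomial (σ ⊕ Bool) ℂ,
      evS s (Polynomial.X + Polynomial.C (1 + -EE σ)) h = ((s : ℂ) + 1) • h -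
        (EE σ : Module.End ℂ (MvPolynomial (σ ⊕ Bool) ℂ)) h := by
    intro h
    rw [evS_add_apply, evS_X, evS_C, add_smul, one_smul, sub_eq_add_neg, add_assoc]
    rfl
  have h1 : evS s ((Polynomial.X + Polynomial.C (1 + -EE σ)) * q) (hyp f ^ (s + 1)) =
      ((s : ℂ) + 1) • (rename Sum.inl H * (Polynomial.aeval (TT σ s) b) (hyp f ^ s)) := by
    rw [evS_mul_apply, pow_hyp, pow_hyp, map_sum, map_sum, map_sum, Finset.sum_range_succ,
      Finset.mul_sum, Finset.smul_sum]
    have h2 : evS s (Polynomial.X + Polynomial.C (1 + -EE σ)) (evS s q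
        ((((s + 1).choose (s + 1) : ℕ) : ℂ) • (rename Sum.inl (f ^ (s + 1 - (s + 1))) *
          (U σ ^ (s + 1) * V σ ^ (s + 1))))) = 0 := by
      obtain ⟨a', ha'⟩ := hq' s (s + 1) (f ^ (s + 1 - (s + 1)))
      rw [map_smul, ha', map_smul, hS, EE_term, Nat.cast_succ, sub_self, smul_zero]
    rw [h2, add_zero]
    refine Finset.sum_congr rfl fun k hk => ?_
    have hk' : k ≤ s := Nat.lt_succ_iff.1 (Finset.mem_range.1 hk)
    rw [map_smul, map_smul, hq s k _ hk', hS, EE_term, ← sub_smul]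
    have h3 : s + 1 - k = s - k + 1 := by omega
    have h4 := aeval_eigen (TT σ s) ((s : ℂ) - k)
      (((s.choose k : ℕ) : ℂ) • (rename Sum.inl (f ^ (s - k)) * (U σ ^ k * V σ ^ k))) (by
        rw [map_smul, TT_apply, EE_term, ← sub_smul, smul_comm]) b
    rw [h3, ← hp, h4, map_mul, rename_C, map_mul, Nat.cast_sub hk']
    have h5 : ((s.choose k : ℕ) : ℂ) * (s + 1) = (((s + 1).choose k : ℕ) : ℂ) * (s + 1 - k) := by
      have h6 := congrArg (Nat.cast (R := ℂ)) (Nat.choose_mul_succ_eq s k)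
      push_cast at h6
      rw [Nat.cast_sub (by omega)] at h6
      push_cast at h6
      exact h6
    rw [mul_assoc, ← smul_eq_C_mul, smul_smul, smul_smul, mul_smul_comm, mul_smul_comm, smul_smul,
      smul_smul, ← mul_assoc (rename Sum.inl H)]
    congr 1
    linear_combination (-(b.eval ((s : ℂ) - k))) * h5
  rw [evS_add_apply, h1, evS_mul_apply, evS_C, mulW_apply, evS_mul_apply, evS_C]
  change _ = _ + rename Sum.inl H *
    evS s W (pderiv (Sum.inr false) (pderiv (Sum.inr true) (hyp f ^ (s + 1))))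
  rw [dd_hyp, map_smul, mul_smul_comm, ← smul_add, ← mul_add, hW, mul_smul_comm, smul_smul,
    smul_eq_C_mul, Polynomial.eval_mul, Polynomial.eval_comp, Polynomial.eval_add,
    Polynomial.eval_X, Polynomial.eval_one]

end Pool.Agent.Helper33K9.HP
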