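import Pool.Agent.Helper33K9.HP.Inv

set_option autoImplicit false
set_option linter.unusedSectionVars false
set_option linter.unusedVariables false

/-! # Reduction to cubic polynomials -/

namespace Pool.Agent.Helper33K9.HP

open MvPolynomial

/-- The polynomial `h(x) + ∑_k v_k q_k(x)` in the variables `x_i` (`Sum.inl i`) and `v_k`
(`Sum.inr k`). -/
noncomputable def lin {ι κ : Type} [Fintype κ] (h : MvPolynomial ι ℂ)
    (q : κ → MvPolynomial ι ℂ) : MvPolynomial (ι ⊕ κ) ℂ :=
  rename Sum.inl h + ∑ k, X (Sum.inr k) * rename Sum.inl (q k)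

section iso

variable {ι κ : Type}

/-- the inclusion of the variables `x_i` -/
noncomputable def r1 : MvPolynomial ι ℂ →ₐ[ℂ] MvPolynomial ((ι ⊕ Unit) ⊕ (κ ⊕ Unit)) ℂ :=
  rename fun i => Sum.inl (Sum.inl i)

/-- the inclusion of the variables `x_i` -/
noncomputable def r2 : MvPolynomial ι ℂ →ₐ[ℂ] MvPolynomial ((ι ⊕ κ) ⊕ Bool) ℂ :=
  rename fun i => Sum.inl (Sum.inl i)

/-- the substitution `u ↦ w - A(x)`, `v ↦ z + B(x)` -/
noncomputable def phi (A B : MvPolynomial ι ℂ) :
    MvPolynomial ((ι ⊕ κ) ⊕ Bool) ℂ →ₐ[ℂ] MvPolynomial ((ι ⊕ Unit) ⊕ (κ ⊕ Unit)) ℂ :=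
  aeval (Sum.elim (Sum.elim (fun i => X (Sum.inl (Sum.inl i))) fun k => X (Sum.inr (Sum.inl k)))
    fun b => if b = true then X (Sum.inr (Sum.inr ())) + r1 B else X (Sum.inl (Sum.inr ())) - r1 A)

/-- the substitution `w ↦ u + A(x)`, `z ↦ v - B(x)` -/
noncomputable def psi (A B : MvPolynomial ι ℂ) :
    MvPolynomial ((ι ⊕ Unit) ⊕ (κ ⊕ Unit)) ℂ →ₐ[ℂ] MvPolynomial ((ι ⊕ κ) ⊕ Bool) ℂ :=
  aeval (Sum.elim (Sum.elim (fun i => X (Sum.inl (Sum.inl i))) fun _ => X (Sum.inr false) + r2 A)
    (Sum.elim (fun k => X (Sum.inl (Sum.inr k))) fun _ => X (Sum.inr true) - r2 B))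

theorem phi_x (A B : MvPolynomial ι ℂ) (i : ι) :
    phi (κ := κ) A B (X (Sum.inl (Sum.inl i))) = X (Sum.inl (Sum.inl i)) := by
  rw [phi, aeval_X]
  rfl

theorem phi_v (A B : MvPolynomial ι ℂ) (k : κ) :
    phi A B (X (Sum.inl (Sum.inr k))) = X (Sum.inr (Sum.inl k)) := by
  rw [phi, aeval_X]
  rfl

theorem phi_u (A B : MvPolynomial ι ℂ) :
    phi (κ := κ) A B (X (Sum.inr false)) = X (Sum.inl (Sum.inr ())) - r1 A := by
  rw [phi, aeval_X]
  rfl

theorem phi_w (A B : MvPolynomial ι ℂ) :
    phi (κ := κ) A B (X (Sum.inr true)) = X (Sum.inr (Sum.inr ())) + r1 B := by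
  rw [phi, aeval_X]
  rfl

theorem psi_x (A B : MvPolynomial ι ℂ) (i : ι) :
    psi (κ := κ) A B (X (Sum.inl (Sum.inl i))) = X (Sum.inl (Sum.inl i)) := by
  rw [psi, aeval_X]
  rfl

theorem psi_v (A B : MvPolynomial ι ℂ) (k : κ) :
    psi A B (X (Sum.inr (Sum.inl k))) = X (Sum.inl (Sum.inr k)) := by
  rw [psi, aeval_X]
  rfl

theorem psi_u (A B : MvPolynomial ι ℂ) (c : Unit) :
    psi (κ := κ) A B (X (Sum.inl (Sum.inr c))) = X (Sum.inr false) + r2 A := by
  rw [psi, aeval_X]
  rfl

theorem psi_w (A B : MvPolynomial ι ℂ) (c : Unit) :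
    psi (κ := κ) A B (X (Sum.inr (Sum.inr c))) = X (Sum.inr true) - r2 B := by
  rw [psi, aeval_X]
  rfl

theorem phi_r2 (A B C : MvPolynomial ι ℂ) : phi (κ := κ) A B (r2 C) = r1 C := by
  have h : (phi (κ := κ) A B).comp r2 = r1 := by
    refine MvPolynomial.algHom_ext fun i => ?_
    rw [AlgHom.comp_apply, r2, rename_X, phi_x, r1, rename_X]
  exact DFunLike.congr_fun h C

theorem psi_r1 (A B C : MvPolynomial ι ℂ) : psi (κ := κ) A B (r1 C) = r2 C := by
  have h : (psi (κ := κ) A B).comp r1 = r2 := by
    refine MvPolynomial.algHom_ext fun i => ?_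
    rw [AlgHom.comp_apply, r1, rename_X, psi_x, r2, rename_X]
  exact DFunLike.congr_fun h C

/-- the isomorphism -/
noncomputable def stepIso (A B : MvPolynomial ι ℂ) :
    MvPolynomial ((ι ⊕ κ) ⊕ Bool) ℂ ≃ₐ[ℂ] MvPolynomial ((ι ⊕ Unit) ⊕ (κ ⊕ Unit)) ℂ :=
  AlgEquiv.ofAlgHom (phi A B) (psi A B)
    (by
      refine MvPolynomial.algHom_ext fun i => ?_
      rw [AlgHom.comp_apply, AlgHom.id_apply]
      rcases i with (i | i) | (i | i)
      · rw [psi_x, phi_x]
      · rw [psi_u, map_add, phi_u, phi_r2, sub_add_cancel]
      · rw [psi_v, phi_v]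
      · rw [psi_w, map_sub, phi_w, phi_r2, add_sub_cancel_right])
    (by
      refine MvPolynomial.algHom_ext fun i => ?_
      rw [AlgHom.comp_apply, AlgHom.id_apply]
      rcases i with (i | i) | i
      · rw [phi_x, psi_x]
      · rw [phi_v, psi_v]
      · rcases i with _ | _
        · rw [phi_u, map_sub, psi_u, psi_r1, add_sub_cancel_right]
        · rw [phi_w, map_add, psi_w, psi_r1, sub_add_cancel])

theorem ren_inl {ι κ : Type} (A : MvPolynomial ι ℂ) :
    rename (Sum.inl : ι ⊕ κ → (ι ⊕ κ) ⊕ Bool) (rename Sum.inl A) = r2 A := by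
  rw [rename_rename]
  rfl

theorem ren_inl' {ι κ : Type} (A : MvPolynomial ι ℂ) :
    rename (Sum.inl : ι ⊕ Unit → (ι ⊕ Unit) ⊕ (κ ⊕ Unit)) (rename Sum.inl A) = r1 A := by
  rw [rename_rename]
  rfl

theorem step_eq [Fintype κ] (F A B : MvPolynomial ι ℂ) (q : κ → MvPolynomial ι ℂ) :
    stepIso A B (hyp (lin (F + A * B) q)) =
      lin (rename Sum.inl F + X (Sum.inr ()) * rename Sum.inl B)
        (Sum.elim (fun k => rename Sum.inl (q k)) fun _ => X (Sum.inr ()) - rename Sum.inl A) := by
  change phi A B _ = _
  rw [hyp, lin, lin, map_add, map_mul, phi_u, phi_w, map_add, map_sum, Fintype.sum_sum_type,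
    Fintype.sum_unique (ι := Unit)]
  simp only [map_add, map_mul, map_sum, ren_inl, phi_r2, rename_X, Sum.elim_inl, Sum.elim_inr,
    map_sub, ren_inl', phi_v]
  have : (default : Unit) = () := rfl
  rw [this]
  ring

theorem cc_ren {ι κ : Type} (e : ι → κ) (A : MvPolynomial ι ℂ) :
    constantCoeff (rename e A) = constantCoeff A := constantCoeff_rename e A

theorem cc_stepIso (A B : MvPolynomial ι ℂ) (hA : constantCoeff A = 0)
    (hB : constantCoeff B = 0) (a : MvPolynomial ((ι ⊕ κ) ⊕ Bool) ℂ) :
    constantCoeff (stepIso A B a) = constantCoeff a := by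
  change constantCoeff (phi A B a) = _
  induction a using MvPolynomial.induction_on with
  | C c =>
    rw [← algebraMap_eq, AlgHom.commutes, algebraMap_eq, algebraMap_eq, constantCoeff_C,
      constantCoeff_C]
  | add p q hp hq => rw [map_add, map_add, map_add, hp, hq]
  | mul_X p i hp =>
    rw [map_mul, map_mul, map_mul, hp, constantCoeff_X]
    rcases i with (i | i) | i
    · rw [phi_x, constantCoeff_X]
    · rw [phi_v, constantCoeff_X]
    · rcases i with _ | _
      · rw [phi_u, map_sub, constantCoeff_X, r1, cc_ren, hA, sub_zero]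
      · rw [phi_w, map_add, constantCoeff_X, r1, cc_ren, hB, add_zero]

end iso

/-! ### sums of terms -/

section terms

variable {ι : Type}

/-- a term -/
noncomputable def tm (t : ℂ × List ι) : MvPolynomial ι ℂ := C t.1 * (t.2.map X).prod

/-- a sum of terms -/
noncomputable def tms (l : List (ℂ × List ι)) : MvPolynomial ι ℂ := (l.map tm).sum

theorem tms_cons (t : ℂ × List ι) (l : List (ℂ × List ι)) : tms (t :: l) = tm t + tms l := by
  rw [tms, List.map_cons, List.sum_cons, tms]

theorem tms_append (l l' : List (ℂ × List ι)) : tms (l ++ l') = tms l + tms l' := by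
  rw [tms, List.map_append, List.sum_append, tms, tms]

theorem exists_tms (F : MvPolynomial ι ℂ) : ∃ l, F = tms l := by
  induction F using MvPolynomial.induction_on with
  | C a => exact ⟨[(a, [])], by simp [tms, tm]⟩
  | add p q hp hq =>
    obtain ⟨l, rfl⟩ := hp
    obtain ⟨l', rfl⟩ := hq
    exact ⟨l ++ l', (tms_append l l').symm⟩
  | mul_X p i hp =>
    obtain ⟨l, rfl⟩ := hp
    refine ⟨l.map fun t => (t.1, i :: t.2), ?_⟩
    induction l with
    | nil => simp [tms]
    | cons t l ih =>
      rw [List.map_cons, tms_cons, tms_cons, ← ih, add_mul]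
      congr 1
      simp only [tm, List.map_cons, List.prod_cons]
      ring

theorem totalDegree_prod_X (L : List ι) :
    ((L.map X).prod : MvPolynomial ι ℂ).totalDegree ≤ L.length := by
  induction L with
  | nil => simp
  | cons i L ih =>
    rw [List.map_cons, List.prod_cons, List.length_cons]
    refine (totalDegree_mul _ _).trans ?_
    rw [totalDegree_X]
    omega

theorem totalDegree_tm (t : ℂ × List ι) : (tm t).totalDegree ≤ t.2.length := by
  refine (totalDegree_mul _ _).trans ?_
  rw [totalDegree_C, Nat.zero_add]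
  exact totalDegree_prod_X _

/-- the inclusion of the variables in a larger set -/
def inlT (t : ℂ × List ι) : ℂ × List (ι ⊕ Unit) := (t.1, t.2.map Sum.inl)

theorem rename_tm (t : ℂ × List ι) : rename Sum.inl (tm t) = tm (inlT t) := by
  rw [tm, map_mul, rename_C, map_list_prod, List.map_map, tm, inlT, List.map_map]
  congr 3
  funext i
  exact rename_X _ _

theorem rename_tms (l : List (ℂ × List ι)) : rename Sum.inl (tms l) = tms (l.map inlT) := by
  induction l with
  | nil => simp [tms]
  | cons t l ih => rw [tms_cons, map_add, List.map_cons, tms_cons, rename_tm, ih]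

end terms

/-- the weight -/
def wl {ι : Type} (l : List (ℂ × List ι)) : ℕ := (l.map fun t => t.2.length + 1).sum

theorem wl_cons {ι : Type} (t : ℂ × List ι) (l : List (ℂ × List ι)) :
    wl (t :: l) = t.2.length + 1 + wl l := by
  rw [wl, List.map_cons, List.sum_cons, wl]

theorem wl_inlT {ι : Type} (l : List (ℂ × List ι)) : wl (l.map inlT) = wl l := by
  induction l with
  | nil => rfl
  | cons t l ih =>
    rw [List.map_cons, wl_cons, wl_cons, ih, inlT]
    simp

theorem rename_lin {ι κ ι' κ' : Type} [Fintype κ] [Fintype κ'] (e : ι ≃ ι') (e' : κ ≃ κ')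
    (h : MvPolynomial ι ℂ) (q : κ → MvPolynomial ι ℂ) :
    renameEquiv ℂ (Equiv.sumCongr e e') (lin h q) =
      lin (rename e h) fun k => rename e (q (e'.symm k)) := by
  rw [renameEquiv_apply, lin, lin, map_add, map_sum, rename_rename, rename_rename,
    ← e'.sum_comp]
  congr 1
  refine Finset.sum_congr rfl fun k _ => ?_
  rw [map_mul, rename_X, rename_rename, rename_rename, Equiv.symm_apply_apply]
  rfl

/-- the polynomials `x_{n + k} - x_{a k} x_{b k}` -/
noncomputable def triq {n r : ℕ} (a b : Fin r → Fin (n + r)) (k : Fin r) :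
    MvPolynomial (Fin (n + r)) ℂ := X (Fin.natAdd n k) - X (a k) * X (b k)

/-- one more element -/
def eS (m : ℕ) : Fin m ⊕ Unit ≃ Fin (m + 1) where
  toFun := fun x => match x with
    | Sum.inl i => i.castSucc
    | Sum.inr _ => Fin.last m
  invFun := fun x => Fin.lastCases (motive := fun _ => Fin m ⊕ Unit) (Sum.inr ())
    (fun i => Sum.inl i) x
  left_inv := by
    rintro (i | i)
    · simp only [Fin.lastCases_castSucc]
    · simp only [Fin.lastCases_last]
  right_inv := by
    intro i
    refine Fin.lastCases ?_ (fun i => ?_) i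
    · simp only [Fin.lastCases_last]
    · simp only [Fin.lastCases_castSucc]

theorem eS_symm_castSucc (m : ℕ) (i : Fin m) : (eS m).symm i.castSucc = Sum.inl i := by
  rw [Equiv.symm_apply_eq]
  rfl

theorem eS_symm_last (m : ℕ) : (eS m).symm (Fin.last m) = Sum.inr () := by
  rw [Equiv.symm_apply_eq]
  rfl

/-- the extended data -/
def extA {n r : ℕ} (a : Fin r → Fin (n + r)) (i : Fin (n + r)) (k : Fin (r + 1)) :
    Fin (n + (r + 1)) :=
  Fin.lastCases (motive := fun _ => Fin (n + (r + 1))) (Fin.castSucc i)
    (fun k => Fin.castSucc (a k)) k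

theorem extA_lt {n r : ℕ} (a : Fin r → Fin (n + r)) (i : Fin (n + r))
    (ha : ∀ k, (a k : ℕ) < n + k) (k : Fin (r + 1)) : (extA a i k : ℕ) < n + k := by
  refine Fin.lastCases ?_ (fun k => ?_) k
  · rw [extA, Fin.lastCases_last]
    exact i.2
  · rw [extA, Fin.lastCases_castSucc]
    exact ha k

theorem triq_ext {n r : ℕ} (a b : Fin r → Fin (n + r)) (i j : Fin (n + r)) (k : Fin (r + 1)) :
    rename (eS (n + r)) ((Sum.elim (fun k => rename Sum.inl (triq a b k))
      (fun _ => X (Sum.inr ()) - rename Sum.inl (X i * X j)) :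
        Fin r ⊕ Unit → MvPolynomial (Fin (n + r) ⊕ Unit) ℂ) ((eS r).symm k)) =
      triq (extA a i) (extA b j) k := by
  refine Fin.lastCases ?_ (fun k => ?_) k
  · rw [eS_symm_last, Sum.elim_inr, map_sub, rename_X, rename_rename, map_mul, rename_X, rename_X,
      triq, extA, extA, Fin.lastCases_last, Fin.lastCases_last]
    rfl
  · rw [eS_symm_castSucc, Sum.elim_inl, rename_rename, triq, map_sub, map_mul, rename_X, rename_X,
      rename_X, triq, extA, extA, Fin.lastCases_castSucc, Fin.lastCases_castSucc]
    rfl

/-- **Reduction to cubic polynomials.** -/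
theorem reduction (P : ∀ (σ : Type) [Fintype σ], MvPolynomial σ ℂ → Prop) (c : ℕ)
    (hc : c = 1 ∨ c = 2)
    (hiso : ∀ (σ τ : Type) [Fintype σ] [Fintype τ] (Φ : MvPolynomial σ ℂ ≃ₐ[ℂ] MvPolynomial τ ℂ)
      (f : MvPolynomial σ ℂ), Fintype.card σ = Fintype.card τ →
        (c = 2 → ∀ a, constantCoeff (Φ a) = constantCoeff a) → P τ (Φ f) → P σ f)
    (hhyp : ∀ (σ : Type) [Fintype σ] (f : MvPolynomial σ ℂ), P (σ ⊕ Bool) (hyp f) → P σ f)
    (n : ℕ) (hbase : ∀ (r : ℕ) (a b : Fin r → Fin (n + r)) (h : MvPolynomial (Fin (n + r)) ℂ),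
      (∀ k, (a k : ℕ) < n + k) → (∀ k, (b k : ℕ) < n + k) → h.totalDegree ≤ c →
        P (Fin (n + r) ⊕ Fin r) (lin h (triq a b)))
    (f : MvPolynomial (Fin n) ℂ) : P (Fin n) f := by
  classical
  have main : ∀ (N r : ℕ) (a b : Fin r → Fin (n + r)) (F : MvPolynomial (Fin (n + r)) ℂ)
      (l : List (ℂ × List (Fin (n + r)))), wl l ≤ N → F.totalDegree ≤ c →
      (∀ k, (a k : ℕ) < n + k) → (∀ k, (b k : ℕ) < n + k) →
      P (Fin (n + r) ⊕ Fin r) (lin (F + tms l) (triq a b)) := by
    intro N
    induction N with
    | zero =>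
      intro r a b F l hl hF ha hb
      cases l with
      | nil =>
        have h1 : F + tms ([] : List (ℂ × List (Fin (n + r)))) = F := by simp [tms]
        rw [h1]
        exact hbase r a b F ha hb hF
      | cons t l =>
        rw [wl_cons] at hl
        omega
    | succ N ih =>
      intro r a b F l hl hF ha hb
      cases l with
      | nil =>
        have h1 : F + tms ([] : List (ℂ × List (Fin (n + r)))) = F := by simp [tms]
        rw [h1]
        exact hbase r a b F ha hb hF
      | cons t l =>
        rw [wl_cons] at hl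
        by_cases ht : t.2.length ≤ c
        · rw [tms_cons, ← add_assoc]
          refine ih r a b (F + tm t) l (by omega) ?_ ha hb
          exact (totalDegree_add _ _).trans (max_le hF ((totalDegree_tm t).trans ht))
        · obtain ⟨α, L⟩ := t
          simp only at ht hl
          obtain ⟨i, j, L', rfl⟩ : ∃ i j L', L = i :: j :: L' := by
            rcases L with _ | ⟨i, _ | ⟨j, L'⟩⟩
            · simp at ht
            · simp only [List.length_cons, List.length_nil] at ht
              omega
            · exact ⟨i, j, L', rfl⟩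
          simp only [List.length_cons] at ht hl
          have h1 : F + tms ((α, i :: j :: L') :: l) =
              (F + tms l) + (X i * X j) * (C α * (L'.map X).prod) := by
            rw [tms_cons, tm]
            simp only [List.map_cons, List.prod_cons]
            ring
          rw [h1]
          refine hhyp _ _ (hiso _ _ (stepIso (X i * X j) (C α * (L'.map X).prod)) _ ?_ ?_ ?_)
          · simp only [Fintype.card_sum, Fintype.card_bool, Fintype.card_unit]
            omega
          · intro hc2 x
            refine cc_stepIso _ _ ?_ ?_ x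
            · rw [map_mul, constantCoeff_X, zero_mul]
            · cases L' with
              | nil =>
                simp only [List.length_nil] at ht
                omega
              | cons k L'' =>
                rw [List.map_cons, List.prod_cons, map_mul, map_mul, constantCoeff_X, zero_mul,
                  mul_zero]
          · rw [step_eq]
            refine hiso _ _ (renameEquiv ℂ (Equiv.sumCongr (eS (n + r)) (eS r))) _ (by simp)
              (fun _ x => ?_) ?_
            · rw [renameEquiv_apply]
              exact cc_ren _ x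
            rw [rename_lin, funext (triq_ext a b i j)]
            have h2 : rename (eS (n + r)) (rename (Sum.inl : Fin (n + r) → Fin (n + r) ⊕ Unit)
                (F + tms l) + X (Sum.inr ()) * rename Sum.inl (C α * (L'.map X).prod)) =
                rename Fin.castSucc F + tms ((α, Fin.last (n + r) :: L'.map Fin.castSucc) ::
                  l.map fun t => (t.1, t.2.map Fin.castSucc)) := by
              have h3 : ∀ t : ℂ × List (Fin (n + r)), rename Fin.castSucc (tm t) =
                  tm (t.1, t.2.map Fin.castSucc) := by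
                intro t
                rw [tm, map_mul, rename_C, map_list_prod, List.map_map, tm, List.map_map]
                congr 3
                funext i
                exact rename_X _ _
              have h4 : ∀ l : List (ℂ × List (Fin (n + r))), rename Fin.castSucc (tms l) =
                  tms (l.map fun t => (t.1, t.2.map Fin.castSucc)) := by
                intro l
                induction l with
                | nil => simp [tms]
                | cons t l ih => rw [tms_cons, map_add, List.map_cons, tms_cons, h3, ih]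
              have h5 : ∀ A : MvPolynomial (Fin (n + r)) ℂ, rename (eS (n + r))
                  (rename Sum.inl A) = rename Fin.castSucc A := by
                intro A
                rw [rename_rename]
                rfl
              have h6 := h3 (α, L')
              rw [tm] at h6
              rw [map_add, map_mul, rename_X, h5, h5, map_add, h4, h6, tms_cons, tm, tm]
              simp only [List.map_cons, List.prod_cons]
              have h7 : eS (n + r) (Sum.inr ()) = Fin.last (n + r) := rfl
              rw [h7]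
              ring
            rw [h2]
            refine ih (r + 1) (extA a i) (extA b j) _ _ ?_
              ((totalDegree_rename_le _ _).trans hF) (extA_lt a i ha) (extA_lt b j hb)
            have h8 : ∀ l : List (ℂ × List (Fin (n + r))),
                wl (l.map fun t => (t.1, t.2.map Fin.castSucc)) = wl l := by
              intro l
              induction l with
              | nil => rfl
              | cons t l ih =>
                rw [List.map_cons, wl_cons, wl_cons, ih]
                simp
            have h9 := wl_cons (α, Fin.last (n + r) :: L'.map Fin.castSucc)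
              (l.map fun t => (t.1, t.2.map Fin.castSucc))
            rw [h8] at h9
            simp only [List.length_cons, List.length_map] at h9
            refine le_of_eq_of_le h9 ?_
            omega
  obtain ⟨l, rfl⟩ := exists_tms f
  refine hiso _ _ (renameEquiv ℂ (Equiv.sumEmpty (Fin (n + 0)) (Fin 0)).symm) _ (by simp)
    (fun _ a => ?_) ?_
  · rw [renameEquiv_apply]
    exact cc_ren _ a
  · have h1 := main _ 0 (fun k => k.elim0) (fun k => k.elim0) 0 l le_rfl
      (by rw [totalDegree_zero]; omega) (fun k => k.elim0) (fun k => k.elim0)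
    have h2 : renameEquiv ℂ (Equiv.sumEmpty (Fin (n + 0)) (Fin 0)).symm (tms l) =
        lin (0 + tms l) (triq (n := n) (r := 0) (fun k => k.elim0) fun k => k.elim0) := by
      rw [renameEquiv_apply, lin, zero_add (tms l), Finset.univ_eq_empty, Finset.sum_empty,
        add_zero (rename Sum.inl (tms l))]
      rfl
    rw [h2]
    exact h1

/-- polynomials of degree at most one -/
theorem deg_one {ι : Type} [Fintype ι] (h : MvPolynomial ι ℂ) (hh : h.totalDegree ≤ 1) :
    ∃ (c₀ : ℂ) (c : ι → ℂ), h = C c₀ + ∑ i, C (c i) * X i := by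
  classical
  refine ⟨coeff 0 h, fun i => coeff (Finsupp.single i 1) h, ?_⟩
  ext m
  rw [coeff_add, coeff_C, coeff_sum]
  simp only [coeff_C_mul, coeff_X]
  by_cases hm : m = 0
  · subst hm
    rw [if_pos rfl, Finset.sum_eq_zero, add_zero]
    intro i _
    rw [if_neg, mul_zero]
    exact Finsupp.single_ne_zero.2 one_ne_zero
  · rw [if_neg (fun h => hm h.symm), zero_add]
    by_cases h1 : ∃ i, Finsupp.single i 1 = m
    · obtain ⟨i, rfl⟩ := h1
      rw [Finset.sum_eq_single i]
      · rw [if_pos rfl, mul_one]
      · intro j _ hj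
        rw [if_neg, mul_zero]
        intro h2
        exact hj (Finsupp.single_left_injective one_ne_zero h2)
      · intro h2
        exact absurd (Finset.mem_univ i) h2
    · rw [Finset.sum_eq_zero]
      · by_contra h2
        have h3 : m ∈ h.support := mem_support_iff.2 h2
        have h4 := (le_totalDegree h3).trans hh
        have h5 : m.sum (fun _ e => e) = m.degree := rfl
        rw [h5] at h4
        have h6 : m.degree ≠ 0 := by
          rw [Ne, Finsupp.degree_eq_zero_iff]
          exact hm
        have h7 : m.degree = 1 := by omega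
        obtain ⟨i, hi⟩ := Finsupp.ne_iff.1 hm
        apply h1
        refine ⟨i, ?_⟩
        rw [Finsupp.coe_zero, Pi.zero_apply] at hi
        have h8 : m.degree = ∑ j, m j := Finsupp.degree_eq_sum m
        ext j
        rw [Finsupp.single_apply]
        have h9 : m i + ∑ j ∈ Finset.univ.erase i, m j = 1 := by
          rw [Finset.add_sum_erase _ _ (Finset.mem_univ i), ← h8, h7]
        split_ifs with hij
        · subst hij
          omega
        · have h10 : m j ≤ ∑ j ∈ Finset.univ.erase i, m j :=
            Finset.single_le_sum (f := fun j => m j) (fun _ _ => Nat.zero_le _)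
              (Finset.mem_erase.2 ⟨fun h => hij h.symm, Finset.mem_univ j⟩)
          omega
      · intro i _
        rw [if_neg (fun h2 => h1 ⟨i, h2⟩), mul_zero]

theorem lin_cubic {n r : ℕ} (c₀ : ℂ) (c : Fin (n + r) → ℂ) (a b : Fin r → Fin (n + r)) :
    lin (C c₀ + ∑ i, C (c i) * X i) (triq a b) = cubic c₀ c a b := by
  rw [lin, cubic, map_add, rename_C, map_sum]
  congr 1
  · congr 1
    exact Finset.sum_congr rfl fun i _ => by rw [map_mul, rename_C, rename_X]
  · refine Finset.sum_congr rfl fun k _ => ?_
    rw [triq, map_sub, map_mul, rename_X, rename_X, rename_X]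

end Pool.Agent.Helper33K9.HP
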