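import Pool.Agent.H628R4.TP.Defs

set_option autoImplicit false
set_option linter.unusedSectionVars false
set_option linter.unusedVariables false

/-! # Differential operators which depend polynomially on `s` -/

namespace Pool.Agent.Helper33K9.HP

open MvPolynomial Pool.Agent.H628R4.TP

variable {σ : Type}

theorem commute_smul_one (a : weylS σ) (s : ℕ) :
    Commute (((weylS σ).val : weylS σ →+* Module.End ℂ (MvPolynomial σ ℂ)) a)
      ((s : ℂ) • (1 : Module.End ℂ (MvPolynomial σ ℂ))) := by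
  unfold Commute SemiconjBy
  rw [mul_smul_comm, smul_mul_assoc, mul_one, one_mul]

/-- The value at `s` of an operator `∑_m P_m s ^ m`. -/
noncomputable def evS (s : ℕ) : Polynomial (weylS σ) →+* Module.End ℂ (MvPolynomial σ ℂ) :=
  Polynomial.eval₂RingHom' ((weylS σ).val : weylS σ →+* Module.End ℂ (MvPolynomial σ ℂ))
    ((s : ℂ) • 1) fun a => commute_smul_one a s

theorem evS_C (s : ℕ) (Q : weylS σ) :
    evS s (Polynomial.C Q) = (Q : Module.End ℂ (MvPolynomial σ ℂ)) :=
  Polynomial.eval₂_C _ _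

theorem evS_X (s : ℕ) : evS s (Polynomial.X : Polynomial (weylS σ)) =
    (s : ℂ) • (1 : Module.End ℂ (MvPolynomial σ ℂ)) :=
  Polynomial.eval₂_X _ _

theorem evS_X_pow_apply (s m : ℕ) (h : MvPolynomial σ ℂ) :
    evS s ((Polynomial.X : Polynomial (weylS σ)) ^ m) h = ((s : ℂ) ^ m) • h := by
  rw [map_pow, evS_X, smul_pow, one_pow]
  rfl

theorem evS_mul_apply (s : ℕ) (p q : Polynomial (weylS σ)) (h : MvPolynomial σ ℂ) :
    evS s (p * q) h = evS s p (evS s q h) := by
  rw [map_mul]
  rfl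

theorem evS_add_apply (s : ℕ) (p q : Polynomial (weylS σ)) (h : MvPolynomial σ ℂ) :
    evS s (p + q) h = evS s p h + evS s q h := by
  rw [map_add]
  rfl

theorem evS_one_apply (s : ℕ) (h : MvPolynomial σ ℂ) :
    evS s (1 : Polynomial (weylS σ)) h = h := by
  rw [map_one]
  rfl

theorem evS_sum (s : ℕ) {α : Type} (t : Finset α) (p : α → Polynomial (weylS σ))
    (h : MvPolynomial σ ℂ) : evS s (∑ a ∈ t, p a) h = ∑ a ∈ t, evS s (p a) h := by
  rw [map_sum, LinearMap.sum_apply]

/-- multiplication by a polynomial -/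
noncomputable def mulW (a : MvPolynomial σ ℂ) : weylS σ :=
  ⟨LinearMap.mulLeft ℂ a, by
    induction a using MvPolynomial.induction_on with
    | C c =>
      have h1 : LinearMap.mulLeft ℂ (C c : MvPolynomial σ ℂ) =
          algebraMap ℂ (Module.End ℂ (MvPolynomial σ ℂ)) c := by
        refine LinearMap.ext fun p => ?_
        rw [Module.algebraMap_end_apply, smul_eq_C_mul]
        rfl
      rw [h1]
      exact Subalgebra.algebraMap_mem _ c
    | add p q hp hq =>
      have h1 : LinearMap.mulLeft ℂ (p + q) = LinearMap.mulLeft ℂ p + LinearMap.mulLeft ℂ q := by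
        exact LinearMap.ext fun r => add_mul p q r
      rw [h1]
      exact Subalgebra.add_mem _ hp hq
    | mul_X p i hp =>
      have h1 : LinearMap.mulLeft ℂ (p * X i) = LinearMap.mulLeft ℂ p * LinearMap.mulLeft ℂ (X i) := by
        exact LinearMap.ext fun r => mul_assoc p (X i) r
      rw [h1]
      exact Subalgebra.mul_mem _ hp (Algebra.subset_adjoin (Or.inl ⟨i, rfl⟩))⟩

theorem mulW_apply (a h : MvPolynomial σ ℂ) :
    (mulW a : Module.End ℂ (MvPolynomial σ ℂ)) h = a * h := rfl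

/-- the partial derivatives -/
noncomputable def dW (i : σ) : weylS σ :=
  ⟨((pderiv i : Derivation ℂ (MvPolynomial σ ℂ) (MvPolynomial σ ℂ)) :
    MvPolynomial σ ℂ →ₗ[ℂ] MvPolynomial σ ℂ), Algebra.subset_adjoin (Or.inr ⟨i, rfl⟩)⟩

theorem dW_apply (i : σ) (h : MvPolynomial σ ℂ) :
    (dW i : Module.End ℂ (MvPolynomial σ ℂ)) h = pderiv i h := rfl

/-- the functional equations, with polynomials with coefficients in the Weyl algebra -/
theorem sum_iff (h : ℕ → MvPolynomial σ ℂ) (k : ℕ → MvPolynomial σ ℂ) :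
    (∃ P : ℕ →₀ weylS σ, ∀ s : ℕ, h s =
      P.sum fun m Q => ((s : ℂ) ^ m) • (Q : Module.End ℂ (MvPolynomial σ ℂ)) (k s)) ↔
      ∃ p : Polynomial (weylS σ), ∀ s : ℕ, h s = evS s p (k s) := by
  constructor
  · rintro ⟨P, hP⟩
    refine ⟨∑ m ∈ P.support, Polynomial.X ^ m * Polynomial.C (P m), fun s => ?_⟩
    rw [hP, evS_sum, Finsupp.sum]
    refine Finset.sum_congr rfl fun m _ => ?_
    rw [evS_mul_apply, evS_X_pow_apply, evS_C]
  · rintro ⟨p, hp⟩
    refine ⟨Finsupp.onFinset p.support p.coeff fun m hm => Polynomial.mem_support_iff.2 hm,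
      fun s => ?_⟩
    have h1 : evS s p = ∑ m ∈ p.support, ((s : ℂ) ^ m) •
        ((p.coeff m : weylS σ) : Module.End ℂ (MvPolynomial σ ℂ)) := by
      conv_lhs => rw [p.as_sum_support_C_mul_X_pow]
      rw [map_sum]
      refine Finset.sum_congr rfl fun m _ => ?_
      rw [map_mul, map_pow, evS_C, evS_X, smul_pow, one_pow, mul_smul_comm, mul_one]
    rw [hp, h1, LinearMap.sum_apply, Finsupp.sum]
    refine (Finset.sum_subset (Finsupp.support_onFinset_subset) fun m _ hm => ?_).symm
    rw [Finsupp.notMem_support_iff, Finsupp.onFinset_apply] at hm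
    rw [hm]
    simp

theorem isB_iff (f : MvPolynomial σ ℂ) (b : Polynomial ℂ) : IsBFunction f b ↔
    ∃ p : Polynomial (weylS σ), ∀ s : ℕ, C (b.eval (s : ℂ)) * f ^ s = evS s p (f ^ (s + 1)) :=
  sum_iff _ _

/-- functional equations with a factor `H` -/
def UB {σ : Type} (H f : MvPolynomial σ ℂ) (b : Polynomial ℂ) : Prop :=
  ∃ p : Polynomial (weylS σ), ∀ s : ℕ, C (b.eval (s : ℂ)) * (H * f ^ s) = evS s p (f ^ (s + 1))

theorem isB_UB {σ : Type} (f : MvPolynomial σ ℂ) (b : Polynomial ℂ) :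
    IsBFunction f b ↔ UB 1 f b := by
  rw [isB_iff, UB]
  simp only [one_mul]

/-- all roots are integers -/
def IntR (c : Polynomial ℂ) : Prop := ∀ z : ℂ, c.eval z = 0 → ∃ k : ℤ, z = k

theorem IntR.ne_zero {c : Polynomial ℂ} (h : IntR c) : c ≠ 0 := by
  rintro rfl
  obtain ⟨k, hk⟩ := h Complex.I (Polynomial.eval_zero)
  have := congrArg Complex.im hk
  simp at this

theorem IntR.mul {c d : Polynomial ℂ} (hc : IntR c) (hd : IntR d) : IntR (c * d) := by
  intro z hz
  rw [Polynomial.eval_mul] at hz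
  rcases mul_eq_zero.1 hz with h | h
  · exact hc z h
  · exact hd z h

theorem intR_one : IntR 1 := by
  intro z hz
  rw [Polynomial.eval_one] at hz
  exact absurd hz one_ne_zero

theorem intR_linear (k : ℤ) : IntR (Polynomial.X + Polynomial.C (k : ℂ)) := by
  intro z hz
  rw [Polynomial.eval_add, Polynomial.eval_X, Polynomial.eval_C] at hz
  refine ⟨-k, ?_⟩
  push_cast
  linear_combination hz

theorem intR_prod {α : Type} (t : Finset α) (c : α → Polynomial ℂ) (h : ∀ a ∈ t, IntR (c a)) :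
    IntR (∏ a ∈ t, c a) := by
  classical
  induction t using Finset.induction_on with
  | empty => exact intR_one
  | insert a t ha ih =>
    rw [Finset.prod_insert ha]
    exact (h a (Finset.mem_insert_self _ _)).mul
      (ih fun b hb => h b (Finset.mem_insert_of_mem hb))

/-- The sequences `h(s)` with `c(s) h(s) ∈ D[s] f ^ (s + n)`, all roots of `c` being integers. -/
def QS (f : MvPolynomial σ ℂ) (n : ℕ) (h : ℕ → MvPolynomial σ ℂ) : Prop :=
  ∃ (c : Polynomial ℂ) (p : Polynomial (weylS σ)), IntR c ∧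
    ∀ s : ℕ, (c.eval (s : ℂ)) • h s = evS s p (f ^ (s + n))

/-- the operator of the multiplication by a polynomial in `s` -/
noncomputable def cS (c : Polynomial ℂ) : Polynomial (weylS σ) :=
  c.map (algebraMap ℂ (weylS σ))

theorem evS_cS (s : ℕ) (c : Polynomial ℂ) (h : MvPolynomial σ ℂ) :
    evS s (cS c) h = (c.eval (s : ℂ)) • h := by
  induction c using Polynomial.induction_on' with
  | add p q hp hq =>
    rw [cS, Polynomial.map_add, evS_add_apply, Polynomial.eval_add, add_smul, ← hp, ← hq]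
    rfl
  | monomial m a =>
    rw [cS, Polynomial.map_monomial, ← Polynomial.C_mul_X_pow_eq_monomial, evS_mul_apply,
      evS_X_pow_apply, evS_C, Polynomial.eval_monomial, map_smul]
    change (s : ℂ) ^ m • ((algebraMap ℂ (Module.End ℂ (MvPolynomial σ ℂ)) a) h) = _
    rw [Module.algebraMap_end_apply, smul_smul, mul_comm]

variable {f : MvPolynomial σ ℂ} {n : ℕ}

theorem QS.op {h : ℕ → MvPolynomial σ ℂ} (hh : QS f n h) (q : Polynomial (weylS σ)) :
    QS f n fun s => evS s q (h s) := by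
  obtain ⟨c, p, hc, hp⟩ := hh
  refine ⟨c, q * p, hc, fun s => ?_⟩
  rw [evS_mul_apply, ← hp, map_smul]

theorem QS.add {h k : ℕ → MvPolynomial σ ℂ} (hh : QS f n h) (hk : QS f n k) :
    QS f n fun s => h s + k s := by
  obtain ⟨c, p, hc, hp⟩ := hh
  obtain ⟨d, q, hd, hq⟩ := hk
  refine ⟨c * d, cS d * p + cS c * q, hc.mul hd, fun s => ?_⟩
  rw [evS_add_apply, evS_mul_apply, evS_mul_apply, ← hp, ← hq, evS_cS, evS_cS, smul_add,
    Polynomial.eval_mul, smul_smul, smul_smul, mul_comm]

theorem QS.smul {h : ℕ → MvPolynomial σ ℂ} (hh : QS f n h) (c : Polynomial ℂ) :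
    QS f n fun s => (c.eval (s : ℂ)) • h s := by
  have h1 := hh.op (cS c)
  simp only [evS_cS] at h1
  exact h1

theorem QS.mulp {h : ℕ → MvPolynomial σ ℂ} (hh : QS f n h) (a : MvPolynomial σ ℂ) :
    QS f n fun s => a * h s := by
  have h1 := hh.op (Polynomial.C (mulW a))
  simp only [evS_C, mulW_apply] at h1
  exact h1

theorem QS.const {h : ℕ → MvPolynomial σ ℂ} (hh : QS f n h) (a : ℂ) :
    QS f n fun s => a • h s := by
  have h1 := hh.smul (Polynomial.C a)
  simp only [Polynomial.eval_C] at h1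
  exact h1

theorem QS.div {h : ℕ → MvPolynomial σ ℂ} (c : Polynomial ℂ) (hc : IntR c)
    (hh : QS f n fun s => (c.eval (s : ℂ)) • h s) : QS f n h := by
  obtain ⟨d, p, hd, hp⟩ := hh
  refine ⟨d * c, p, hd.mul hc, fun s => ?_⟩
  rw [← hp, Polynomial.eval_mul, smul_smul]

theorem QS.zero : QS f n fun _ => 0 := ⟨1, 0, intR_one, fun s => by simp⟩

theorem QS.sum {α : Type} (t : Finset α) (h : α → ℕ → MvPolynomial σ ℂ)
    (hh : ∀ a ∈ t, QS f n (h a)) : QS f n fun s => ∑ a ∈ t, h a s := by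
  classical
  induction t using Finset.induction_on with
  | empty =>
    simp only [Finset.sum_empty]
    exact QS.zero
  | insert a t ha ih =>
    simp only [Finset.sum_insert ha]
    exact (hh a (Finset.mem_insert_self _ _)).add
      (ih fun b hb => hh b (Finset.mem_insert_of_mem hb))

/-- only the large `s` matter -/
theorem QS.congr {h k : ℕ → MvPolynomial σ ℂ} (hh : QS f n h) (s₀ : ℕ)
    (hk : ∀ s, s₀ ≤ s → k s = h s) : QS f n k := by
  obtain ⟨c, p, hc, hp⟩ := hh
  set e : Polynomial ℂ := ∏ i ∈ Finset.range s₀, (Polynomial.X + Polynomial.C ((-(i : ℤ) : ℤ) : ℂ))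
    with he
  have he1 : IntR e := intR_prod _ _ fun i _ => intR_linear _
  have he2 : ∀ s < s₀, e.eval (s : ℂ) = 0 := by
    intro s hs
    rw [he, Polynomial.eval_prod]
    refine Finset.prod_eq_zero (Finset.mem_range.2 hs) ?_
    rw [Polynomial.eval_add, Polynomial.eval_X, Polynomial.eval_C]
    push_cast
    ring
  refine ⟨e * c, cS e * p, he1.mul hc, fun s => ?_⟩
  rw [evS_mul_apply, ← hp, evS_cS, smul_smul, Polynomial.eval_mul]
  rcases lt_or_ge s s₀ with h1 | h1
  · rw [he2 s h1, zero_mul, zero_smul, zero_smul]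
  · rw [hk s h1]

theorem QS.pow (m : ℕ) (hk : n ≤ m) : QS f n fun s => f ^ (s + m) := by
  refine ⟨1, Polynomial.C (mulW (f ^ (m - n))), intR_one, fun s => ?_⟩
  have h1 : s + m = m - n + (s + n) := by omega
  rw [evS_C, mulW_apply, ← pow_add, Polynomial.eval_one, one_smul, ← h1]

/-- shift of `s` -/
theorem evS_shift (p : Polynomial (weylS σ)) : ∃ q : Polynomial (weylS σ), ∀ (s : ℕ)
    (h : MvPolynomial σ ℂ), evS (s + 1) q h = evS s p h := by
  refine ⟨∑ m ∈ p.support, cS ((Polynomial.X - 1) ^ m) * Polynomial.C (p.coeff m),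
    fun s h => ?_⟩
  conv_rhs => rw [p.as_sum_support_C_mul_X_pow]
  rw [evS_sum, evS_sum]
  refine Finset.sum_congr rfl fun m _ => ?_
  rw [evS_mul_apply, evS_mul_apply, evS_cS, evS_C, evS_C, evS_X_pow_apply, map_smul,
    Polynomial.eval_pow, Polynomial.eval_sub, Polynomial.eval_X, Polynomial.eval_one,
    Nat.cast_succ, add_sub_cancel_right]

end Pool.Agent.Helper33K9.HP
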