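import Pool.Agent.Helper33K9.HP.Ser
import Pool.Agent.Helper33K9.HP.Ops
import Pool.Agent.TH192.MU.TDefs

set_option autoImplicit false
set_option linter.unusedSectionVars false
set_option linter.unusedVariables false

/-! # Invariance under isomorphisms of polynomial rings -/

namespace Pool.Agent.Helper33K9.HP

open MvPolynomial Pool.Agent.H628R4.TP Pool.Agent.W428.MOT Pool.Agent.TH192.MT

/-! ### the Weyl algebra -/

section weyl

variable {σ τ : Type} [Fintype τ]

theorem deriv_formula (Φ : MvPolynomial σ ℂ ≃ₐ[ℂ] MvPolynomial τ ℂ) (i : σ)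
    (h : MvPolynomial τ ℂ) : Φ (pderiv i (Φ.symm h)) =
      ∑ j : τ, Φ (pderiv i (Φ.symm (X j))) * pderiv j h := by
  classical
  induction h using MvPolynomial.induction_on with
  | C c =>
    have h1 : Φ.symm (C c) = C c := by
      rw [← algebraMap_eq, AlgEquiv.commutes]
      rfl
    rw [h1, pderiv_C, map_zero]
    symm
    exact Finset.sum_eq_zero fun j _ => by rw [pderiv_C, mul_zero]
  | add p q hp hq =>
    simp only [map_add, mul_add, Finset.sum_add_distrib, hp, hq]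
  | mul_X p k hp =>
    rw [map_mul, Derivation.leibniz, map_add, smul_eq_mul, smul_eq_mul, map_mul, map_mul,
      AlgEquiv.apply_symm_apply, AlgEquiv.apply_symm_apply, hp]
    simp only [Derivation.leibniz, smul_eq_mul, mul_add, Finset.sum_add_distrib]
    congr 1
    · rw [Finset.sum_eq_single k]
      · rw [pderiv_X_self, mul_one, mul_comm]
      · intro j _ hj
        rw [pderiv_X_of_ne (fun h => hj h.symm), mul_zero, mul_zero]
      · intro h
        exact absurd (Finset.mem_univ k) h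
    · rw [Finset.mul_sum]
      exact Finset.sum_congr rfl fun j _ => by ring

theorem conj_op (Φ : MvPolynomial σ ℂ ≃ₐ[ℂ] MvPolynomial τ ℂ)
    (Q : Module.End ℂ (MvPolynomial σ ℂ)) (hQ : Q ∈ weylS σ) :
    ∃ Q' : weylS τ, ∀ h : MvPolynomial σ ℂ,
      (Q' : Module.End ℂ (MvPolynomial τ ℂ)) (Φ h) = Φ (Q h) := by
  induction hQ using Algebra.adjoin_induction with
  | mem Q hQ =>
    rcases hQ with ⟨i, rfl⟩ | ⟨i, rfl⟩
    · refine ⟨mulW (Φ (X i)), fun h => ?_⟩
      rw [mulW_apply, LinearMap.mulLeft_apply, map_mul]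
    · refine ⟨∑ j : τ, mulW (Φ (pderiv i (Φ.symm (X j)))) * dW j, fun h => ?_⟩
      have h1 := deriv_formula Φ i (Φ h)
      rw [AlgEquiv.symm_apply_apply] at h1
      rw [AddSubmonoidClass.coe_finsetSum, LinearMap.sum_apply]
      exact h1.symm
  | algebraMap c =>
    refine ⟨algebraMap ℂ _ c, fun h => ?_⟩
    rw [Subalgebra.coe_algebraMap, Module.algebraMap_end_apply, Module.algebraMap_end_apply,
      map_smul]
  | add Q1 Q2 _ _ h1 h2 =>
    obtain ⟨Q1', h1⟩ := h1
    obtain ⟨Q2', h2⟩ := h2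
    refine ⟨Q1' + Q2', fun h => ?_⟩
    rw [Subalgebra.coe_add, LinearMap.add_apply, LinearMap.add_apply, h1, h2, map_add]
  | mul Q1 Q2 _ _ h1 h2 =>
    obtain ⟨Q1', h1⟩ := h1
    obtain ⟨Q2', h2⟩ := h2
    refine ⟨Q1' * Q2', fun h => ?_⟩
    rw [Subalgebra.coe_mul, Module.End.mul_apply, Module.End.mul_apply, h2, h1]

theorem UB.iso {H f : MvPolynomial σ ℂ} {b : Polynomial ℂ} (h : UB H f b)
    (Φ : MvPolynomial σ ℂ ≃ₐ[ℂ] MvPolynomial τ ℂ) : UB (Φ H) (Φ f) b := by
  obtain ⟨p, hp⟩ := h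
  choose Q' hQ' using fun m => conj_op Φ (p.coeff m : Module.End ℂ (MvPolynomial σ ℂ))
    (p.coeff m).2
  refine ⟨∑ m ∈ p.support, Polynomial.X ^ m * Polynomial.C (Q' m), fun s => ?_⟩
  have h1 := congrArg Φ (hp s)
  rw [map_mul, map_mul, map_pow] at h1
  have h2 : Φ (C (b.eval (s : ℂ))) = C (b.eval (s : ℂ)) := by
    rw [← algebraMap_eq, AlgEquiv.commutes]
    rfl
  rw [h2] at h1
  rw [h1]
  conv_lhs => rw [p.as_sum_support_C_mul_X_pow]
  rw [evS_sum, evS_sum, map_sum]
  refine Finset.sum_congr rfl fun m _ => ?_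
  rw [evS_mul_apply, evS_mul_apply, evS_C, evS_C, evS_X_pow_apply, evS_X_pow_apply, map_smul,
    map_smul, ← map_pow, hQ']

end weyl

/-! ### jets -/

section jets

variable {K : Type} [Field K] {σ τ : Type}

theorem coeff_zero_aevalK (f : MvPolynomial σ K) (γ : σ → PowerSeries (AlgebraicClosure K)) :
    PowerSeries.coeff 0 (aeval γ f) = aeval (fun i => PowerSeries.coeff 0 (γ i)) f := by
  induction f using MvPolynomial.induction_on with
  | C a =>
    rw [algHom_C, algHom_C, PowerSeries.algebraMap_apply, PowerSeries.coeff_zero_C]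
  | add p q hp hq => rw [map_add, map_add, hp, hq, map_add]
  | mul_X p i hp =>
    rw [map_mul, aeval_X, map_mul (aeval fun i => PowerSeries.coeff 0 (γ i)), aeval_X, ← hp]
    simp only [PowerSeries.coeff_zero_eq_constantCoeff_apply, map_mul]

/-- the map of the jets -/
noncomputable def jT (Φ : MvPolynomial σ K →ₐ[K] MvPolynomial τ K) {d : ℕ}
    (z : Pt K (τ × Fin (d + 1))) : Pt K (σ × Fin (d + 1)) :=
  fun q => PowerSeries.coeff q.2 (aeval (ar z) (Φ (X q.1)))

theorem pf_jT (Φ : MvPolynomial σ K →ₐ[K] MvPolynomial τ K) {d : ℕ} (q : σ × Fin (d + 1)) :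
    IsPF (fun z : Pt K (τ × Fin (d + 1)) => jT Φ z q) :=
  pf_ck _ (fun i => IsPF.coord _) _ _

theorem cg_jT (Φ : MvPolynomial σ K →ₐ[K] MvPolynomial τ K) {d : ℕ}
    (z : Pt K (τ × Fin (d + 1))) (f : MvPolynomial σ K) :
    Cg d (aeval (ar (jT Φ z)) f) (aeval (ar z) (Φ f)) := by
  have h1 : ∀ i, Cg d (ar (jT Φ z) i) (aeval (ar z) (Φ (X i))) := by
    intro i k hk
    rw [coeff_ar, dif_pos (by omega)]
    rfl
  have h2 := cg_aevalK f d _ _ h1
  have h3 : aeval (fun i => aeval (ar z) (Φ (X i))) f = aeval (ar z) (Φ f) := by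
    have h4 : (aeval fun i => aeval (ar z) (Φ (X i)) : MvPolynomial σ K →ₐ[K]
        PowerSeries (AlgebraicClosure K)) = (aeval (ar z)).comp Φ := by
      refine MvPolynomial.algHom_ext fun i => ?_
      rw [aeval_X, AlgHom.comp_apply]
    rw [h4, AlgHom.comp_apply]
  rw [h3] at h2
  exact h2

theorem jT_jT (Φ : MvPolynomial σ K ≃ₐ[K] MvPolynomial τ K) {d : ℕ}
    (z : Pt K (τ × Fin (d + 1))) : jT (Φ.symm : MvPolynomial τ K →ₐ[K] MvPolynomial σ K)
      (jT (Φ : MvPolynomial σ K →ₐ[K] MvPolynomial τ K) z) = z := by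
  funext ⟨j, k⟩
  have h1 := cg_jT (Φ : MvPolynomial σ K →ₐ[K] MvPolynomial τ K) z (Φ.symm (X j)) k
    (by have := k.2; omega)
  have h2 : (Φ : MvPolynomial σ K →ₐ[K] MvPolynomial τ K) (Φ.symm (X j)) = X j :=
    Φ.apply_symm_apply (X j)
  rw [h2, aeval_X, coeff_ar, dif_pos k.2] at h1
  exact h1

/-- the preimage of `W` -/
def WT (Φ : MvPolynomial σ K →ₐ[K] MvPolynomial τ K) (W : Set (Pt K σ)) : Set (Pt K τ) :=
  {w | (fun i => aeval w (Φ (X i))) ∈ W}

theorem mem_jT (Φ : MvPolynomial σ K →ₐ[K] MvPolynomial τ K) (f : MvPolynomial σ K)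
    (W : Set (Pt K σ)) (E : Set (AlgebraicClosure K)) (d : ℕ) (z : Pt K (τ × Fin (d + 1))) :
    jT Φ z ∈ JetS f W E d ↔ z ∈ JetS (Φ f) (WT Φ W) E d := by
  have h1 := cg_jT Φ z f
  have h2 : (fun i => jT Φ z (i, 0)) = fun i => aeval (fun j => z (j, 0)) (Φ (X i)) := by
    funext i
    change PowerSeries.coeff 0 (aeval (ar z) (Φ (X i))) = _
    rw [coeff_zero_aevalK]
    simp only [coeff_ar_zero]
  unfold JetS WT
  rw [Set.mem_ofPred_eq, Set.mem_ofPred_eq, h2, Set.mem_ofPred_eq, h1 d le_rfl]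
  refine and_congr Iff.rfl (and_congr (forall₂_congr fun j hj => ?_) Iff.rfl)
  rw [h1 j hj.le]

variable [Fintype σ] [Fintype τ]

theorem chi_iso {R : Type} [CommRing R] (M : Meas K R)
    (Φ : MvPolynomial σ K ≃ₐ[K] MvPolynomial τ K) (f : MvPolynomial σ K) {W : Set (Pt K σ)}
    (hW : Constr W) (d : ℕ) :
    M.χ _ (JetS (Φ f) (WT (Φ : MvPolynomial σ K →ₐ[K] MvPolynomial τ K) W) {c | c ≠ 0} d) =
      M.χ _ (JetS f W {c | c ≠ 0} d) := by
  have hc : ∀ {ι : Type} [Fintype ι] (g : MvPolynomial ι K) {W : Set (Pt K ι)}, Constr W →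
      Constr (JetS g W {c | c ≠ 0} d) := by
    intro ι _ g W hW
    refine Constr.and (hW.preimage _ fun i => IsPF.coord _) (Constr.and ?_ ?_)
    · exact Constr.allLt _ fun k _ => Constr.eqz (pf_ck _ (fun i => IsPF.coord _) _ _)
    · exact Constr.not (Constr.eqz (pf_ck _ (fun i => IsPF.coord _) _ _))
  have hWT : Constr (WT (Φ : MvPolynomial σ K →ₐ[K] MvPolynomial τ K) W) :=
    hW.preimage _ fun i => IsPF.poly _
  refine M.iso _ _ (hc _ hWT) (hc _ hW) (jT (Φ : MvPolynomial σ K →ₐ[K] MvPolynomial τ K))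
    (jT (Φ.symm : MvPolynomial τ K →ₐ[K] MvPolynomial σ K)) (regularOn_poly (pf_jT _) _)
    (regularOn_poly (pf_jT _) _) ?_ ?_ ?_ ?_
  · intro z hz
    exact (mem_jT _ _ _ _ _ _).2 hz
  · intro w hw
    refine (mem_jT (Φ : MvPolynomial σ K →ₐ[K] MvPolynomial τ K) f W _ d _).1 ?_
    have h1 := jT_jT Φ.symm w
    rw [AlgEquiv.symm_symm] at h1
    rw [h1]
    exact hw
  · intro z _
    exact jT_jT Φ z
  · intro w _
    have h1 := jT_jT Φ.symm w
    rw [AlgEquiv.symm_symm] at h1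
    exact h1

theorem zetaM_iso [CharZero K] (Φ : MvPolynomial σ K ≃ₐ[K] MvPolynomial τ K)
    (hcard : Fintype.card σ = Fintype.card τ) (f : MvPolynomial σ K) {W : Set (Pt K σ)}
    (hW : Constr W) :
    zetaM (Φ f) (WT (Φ : MvPolynomial σ K →ₐ[K] MvPolynomial τ K) W) {c | c ≠ 0} =
      zetaM f W {c | c ≠ 0} := by
  obtain ⟨M, -, hM⟩ := exists_meas K
  unfold zetaM
  congr 1
  funext d
  rw [← hM, ← hM, chi_iso M Φ f hW, hcard]

theorem zetaO_iso [CharZero K] (Φ : MvPolynomial σ K ≃ₐ[K] MvPolynomial τ K)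
    (hcard : Fintype.card σ = Fintype.card τ)
    (h0 : ∀ a, constantCoeff (Φ a) = constantCoeff a) (f : MvPolynomial σ K) :
    zetaO (Φ f) = zetaO f := by
  obtain ⟨M, -, hM⟩ := exists_meas K
  have hW : Constr ({0} : Set (Pt K σ)) := by
    have h := constr_point (K := K) (fun _ : σ => (0 : K))
    simp only [map_zero] at h
    exact h
  have key : ∀ {ι κ : Type} (a : MvPolynomial ι K),
      aeval (0 : ι → AlgebraicClosure K) a = algebraMap K _ (constantCoeff a) := by
    intro ι κ a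
    exact aeval_zero a
  have hWT : WT (Φ : MvPolynomial σ K →ₐ[K] MvPolynomial τ K) {0} = {0} := by
    ext w
    simp only [WT, Set.mem_ofPred_eq, Set.mem_singleton_iff]
    constructor
    · intro h
      funext j
      have h1 : aeval w (Φ (Φ.symm (X j))) = aeval (0 : σ → AlgebraicClosure K) (Φ.symm (X j)) := by
        have h2 : (aeval w).comp (Φ : MvPolynomial σ K →ₐ[K] MvPolynomial τ K) =
            (aeval (0 : σ → AlgebraicClosure K)) := by
          refine MvPolynomial.algHom_ext fun i => ?_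
          rw [aeval_X]
          exact congrFun h i
        exact DFunLike.congr_fun h2 (Φ.symm (X j))
      rw [AlgEquiv.apply_symm_apply, aeval_X] at h1
      rw [h1, key (κ := τ)]
      have h3 := h0 (Φ.symm (X j))
      rw [AlgEquiv.apply_symm_apply, constantCoeff_X] at h3
      rw [← h3, map_zero]
      rfl
    · rintro rfl
      funext i
      have h1 : aeval (0 : τ → AlgebraicClosure K) (Φ (X i)) = 0 := by
        rw [key (κ := τ), h0, constantCoeff_X, map_zero]
      exact h1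
  unfold zetaO
  rw [hcard]
  congr 2
  funext l
  rw [← hM, ← hM]
  have h1 := chi_iso M Φ f hW l
  rw [hWT] at h1
  rw [h1]

end jets

end Pool.Agent.Helper33K9.HP
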