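import Pool.Agent.Helper33K9.HP.Loc

set_option autoImplicit false
set_option linter.unusedSectionVars false
set_option linter.unusedVariables false

/-! # Reduction of the motivic monodromy conjecture at the origin to cubic polynomials -/

namespace Pool.Agent.Helper33K9.HP

open MvPolynomial Pool.Agent.H628R4.TP Pool.Agent.W428.MOT Pool.Agent.TH192.MT
  Pool.Agent.TH192.MU Pool.Agent.TH192.DT

section

variable {σ : Type} [Fintype σ]

theorem eig0_down {f : MvPolynomial σ ℂ} (hf : f ≠ 0) (h0 : constantCoeff f = 0) {a b : ℤ}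
    (hb : 0 < b) (h : Eig0 f ((a : ℂ) / b)) : Eig0 (hyp f) (((a - b : ℤ) : ℂ) / b) := by
  rw [eig0_hyp hf h0]
  refine eig0_shift 1 ?_
  have h1 : (b : ℂ) ≠ 0 := by exact_mod_cast hb.ne'
  have h2 : ((a - b : ℤ) : ℂ) / b + ((1 : ℤ) : ℂ) = (a : ℂ) / b := by
    push_cast
    field_simp
    ring
  rw [h2]
  exact h

theorem eig0_up {f : MvPolynomial σ ℂ} (hf : f ≠ 0) (h0 : constantCoeff f = 0) {a b : ℤ}
    (hb : 0 < b) (h : Eig0 (hyp f) ((a : ℂ) / b)) : Eig0 f (((a + b : ℤ) : ℂ) / b) := by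
  rw [eig0_hyp hf h0] at h
  refine eig0_shift (-1) ?_
  have h1 : (b : ℂ) ≠ 0 := by exact_mod_cast hb.ne'
  have h2 : ((a + b : ℤ) : ℂ) / b + ((-1 : ℤ) : ℂ) = (a : ℂ) / b := by
    push_cast
    field_simp
    ring
  rw [h2]
  exact h

theorem MMC_hyp {f : MvPolynomial σ ℂ} (hf : f ≠ 0) (h0 : constantCoeff f = 0) (h : MMC f) :
    MMC (hyp f) := by
  classical
  obtain ⟨S, hS, hZ⟩ := h
  refine ⟨insert (-1, 1) (S.image fun p => (p.1 - p.2, p.2)), ?_, ?_⟩
  · intro p hp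
    rcases Finset.mem_insert.1 hp with rfl | hp
    · refine ⟨by norm_num, by norm_num, ?_⟩
      have h1 : (((-1 : ℤ) : ℂ)) / ((1 : ℤ) : ℂ) = ((-1 : ℤ) : ℂ) := by simp
      rw [h1]
      exact eig0_int (hyp_ne_zero f) (by rw [cc_hyp]; exact h0) (-1)
    · obtain ⟨q, hq, rfl⟩ := Finset.mem_image.1 hp
      obtain ⟨h1, h2, h3⟩ := hS q hq
      exact ⟨by simp only; omega, h2, eig0_down hf h0 h2 h3⟩
  · refine rat_up (zrel_hyp h0) (fun p hp => (hS p hp).2.1) (fun p hp => ?_) ?_ hZ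
    · exact Finset.mem_coe.2 (Finset.mem_insert_of_mem (Finset.mem_image_of_mem _ hp))
    · exact Finset.mem_coe.2 (Finset.mem_insert_self _ _)

theorem WMMC_hyp {f : MvPolynomial σ ℂ} (hf : f ≠ 0) (h0 : constantCoeff f = 0) :
    WMMC (hyp f) ↔ WMMC f := by
  classical
  constructor
  · rintro ⟨S, hS, hZ⟩
    refine ⟨insert (1, 1) (insert (-1, 1) (S.image fun p => (p.1 + p.2, p.2))), ?_, ?_⟩
    · intro p hp
      rcases Finset.mem_insert.1 hp with rfl | hp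
      · refine ⟨by norm_num, ?_⟩
        have h1 : (((1 : ℤ) : ℂ)) / ((1 : ℤ) : ℂ) = ((1 : ℤ) : ℂ) := by simp
        rw [h1]
        exact eig0_int hf h0 1
      · rcases Finset.mem_insert.1 hp with rfl | hp
        · refine ⟨by norm_num, ?_⟩
          have h1 : (((-1 : ℤ) : ℂ)) / ((1 : ℤ) : ℂ) = ((-1 : ℤ) : ℂ) := by simp
          rw [h1]
          exact eig0_int hf h0 (-1)
        · obtain ⟨q, hq, rfl⟩ := Finset.mem_image.1 hp
          obtain ⟨h2, h3⟩ := hS q hq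
          exact ⟨h2, eig0_up hf h0 h2 h3⟩
    · refine rat_down (zrel_hyp h0) (fun p hp => (hS p hp).1) (fun p hp => ?_) ?_ ?_ hZ
      · exact Finset.mem_coe.2 (Finset.mem_insert_of_mem (Finset.mem_insert_of_mem
          (Finset.mem_image_of_mem _ hp)))
      · exact Finset.mem_coe.2 (Finset.mem_insert_of_mem (Finset.mem_insert_self _ _))
      · exact Finset.mem_coe.2 (Finset.mem_insert_self _ _)
  · rintro ⟨S, hS, hZ⟩
    refine ⟨insert (-1, 1) (S.image fun p => (p.1 - p.2, p.2)), ?_, ?_⟩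
    · intro p hp
      rcases Finset.mem_insert.1 hp with rfl | hp
      · refine ⟨by norm_num, ?_⟩
        have h1 : (((-1 : ℤ) : ℂ)) / ((1 : ℤ) : ℂ) = ((-1 : ℤ) : ℂ) := by simp
        rw [h1]
        exact eig0_int (hyp_ne_zero f) (by rw [cc_hyp]; exact h0) (-1)
      · obtain ⟨q, hq, rfl⟩ := Finset.mem_image.1 hp
        obtain ⟨h2, h3⟩ := hS q hq
        exact ⟨h2, eig0_down hf h0 h2 h3⟩
    · refine rat_up (zrel_hyp h0) (fun p hp => (hS p hp).1) (fun p hp => ?_) ?_ hZ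
      · exact Finset.mem_coe.2 (Finset.mem_insert_of_mem (Finset.mem_image_of_mem _ hp))
      · exact Finset.mem_coe.2 (Finset.mem_insert_self _ _)

variable {τ : Type} [Fintype τ] (Φ : MvPolynomial σ ℂ ≃ₐ[ℂ] MvPolynomial τ ℂ)
  (hcard : Fintype.card σ = Fintype.card τ) (hΦ : ∀ a, constantCoeff (Φ a) = constantCoeff a)

include hcard hΦ

theorem MMC_iso {f : MvPolynomial σ ℂ} (hf : f ≠ 0) : MMC (Φ f) ↔ MMC f := by
  unfold MMC
  rw [zetaO_iso Φ hcard hΦ]
  simp only [eig0_iso_iff Φ hΦ hf]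

theorem WMMC_iso {f : MvPolynomial σ ℂ} (hf : f ≠ 0) : WMMC (Φ f) ↔ WMMC f := by
  unfold WMMC
  rw [zetaO_iso Φ hcard hΦ]
  simp only [eig0_iso_iff Φ hΦ hf]

end

theorem cc_lin {n r : ℕ} (h : MvPolynomial (Fin (n + r)) ℂ) (a b : Fin r → Fin (n + r)) :
    constantCoeff (lin h (triq a b)) = constantCoeff h := by
  rw [lin, map_add, constantCoeff_rename, map_sum, Finset.sum_eq_zero, add_zero]
  intro k _
  rw [map_mul, constantCoeff_X, zero_mul]

theorem lin_cubicH {n r : ℕ} (h : MvPolynomial (Fin (n + r)) ℂ) (a b : Fin r → Fin (n + r)) :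
    lin h (triq a b) = cubicH h a b := by
  rw [lin, cubicH]
  congr 1
  refine Finset.sum_congr rfl fun k _ => ?_
  rw [triq, map_sub, map_mul, rename_X, rename_X, rename_X]

/-- `g` has the same eigenvalues near the origin as `f`, and its local zeta function is that of `f`
plus `m` hyperbolic planes -/
def Stab0 {σ τ : Type} [Fintype σ] [Fintype τ] (f : MvPolynomial σ ℂ) (g : MvPolynomial τ ℂ)
    (m : ℕ) : Prop :=
  (∀ z, Eig0 g z ↔ Eig0 f z) ∧ ZRel (Fintype.card σ) m (zetaO f) (zetaO g) ∧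
    (MMC f → MMC g) ∧ (WMMC g ↔ WMMC f)

/-- **Reduction of the motivic monodromy conjecture at the origin to cubic polynomials.** -/
theorem exists_cubicH (n : ℕ) (f : MvPolynomial (Fin n) ℂ) (hf : f ≠ 0)
    (h0 : constantCoeff f = 0) :
    ∃ (r : ℕ) (h : MvPolynomial (Fin (n + r)) ℂ) (a b : Fin r → Fin (n + r)),
      h.totalDegree ≤ 2 ∧ constantCoeff h = 0 ∧
      (∀ k, (a k : ℕ) < n + k) ∧ (∀ k, (b k : ℕ) < n + k) ∧ cubicH h a b ≠ 0 ∧
        Stab0 f (cubicH h a b) r := by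
  have key := reduction (fun σ _ f => f ≠ 0 → constantCoeff f = 0 →
    ∃ (r m : ℕ) (h : MvPolynomial (Fin (n + r)) ℂ) (a b : Fin r → Fin (n + r)),
      Fintype.card σ + 2 * m = n + 2 * r ∧ h.totalDegree ≤ 2 ∧ constantCoeff h = 0 ∧
      (∀ k, (a k : ℕ) < n + k) ∧ (∀ k, (b k : ℕ) < n + k) ∧ cubicH h a b ≠ 0 ∧
        Stab0 f (cubicH h a b) m) 2 (Or.inr rfl) ?_ ?_ n ?_ f hf h0
  · obtain ⟨r, m, h, a, b, h2, hd, hh, h3, h4, h0, h5⟩ := key
    rw [Fintype.card_fin] at h2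
    obtain rfl : m = r := by omega
    exact ⟨m, h, a, b, hd, hh, h3, h4, h0, h5⟩
  · intro σ τ _ _ Φ f hcard hΦ h hf h0
    have hΦ' := hΦ rfl
    obtain ⟨r, m, h, a, b, h2, hd, hh, h3, h4, h0, h5, h6, h7, h8⟩ := h
      (by rw [Ne, map_eq_zero_iff Φ Φ.injective]; exact hf) (by rw [hΦ']; exact h0)
    refine ⟨r, m, h, a, b, by rw [hcard]; exact h2, hd, hh, h3, h4, h0, fun z => ?_, ?_, ?_, ?_⟩
    · rw [h5, eig0_iso_iff Φ hΦ' hf]
    · rw [hcard, ← zetaO_iso Φ hcard hΦ' f]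
      exact h6
    · intro h9
      exact h7 ((MMC_iso Φ hcard hΦ' hf).2 h9)
    · rw [h8, WMMC_iso Φ hcard hΦ' hf]
  · intro σ _ f h hf h0
    obtain ⟨r, m, h, a, b, h2, hd, hh, h3, h4, h0', h5, h6, h7, h8⟩ :=
      h (hyp_ne_zero f) (by rw [cc_hyp]; exact h0)
    rw [Fintype.card_sum, Fintype.card_bool] at h2 h6
    refine ⟨r, m + 1, h, a, b, by omega, hd, hh, h3, h4, h0', fun z => ?_, ?_, ?_, ?_⟩
    · rw [h5, eig0_hyp hf h0]
    · exact (zrel_hyp h0).comp h6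
    · intro h9
      exact h7 (MMC_hyp hf h0 h9)
    · rw [h8, WMMC_hyp hf h0]
  · intro r a b h ha hb hh hf h0
    refine ⟨r, 0, h, a, b, ?_, hh, ?_, ha, hb, ?_, ?_⟩
    · rw [Fintype.card_sum, Fintype.card_fin, Fintype.card_fin]
      ring
    · rw [← cc_lin h a b]
      exact h0
    · rw [← lin_cubicH]
      exact hf
    · rw [lin_cubicH]
      exact ⟨fun z => Iff.rfl, ZRel.refl _ _, id, Iff.rfl⟩

end Pool.Agent.Helper33K9.HP
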