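import Pool.Agent.Helper33K9.HP.Jet

set_option autoImplicit false
set_option linter.unusedSectionVars false
set_option linter.unusedVariables false

/-! # The motivic zeta function of `f + u v` -/

namespace Pool.Agent.Helper33K9.HP

open MvPolynomial Pool.Agent.W428.MOT Pool.Agent.TH192.MT

variable {K : Type} [Field K] {σ : Type}

section chi

variable {R : Type} [CommRing R] (M : Meas K R) [Fintype σ]

/-- if the order of `u` is at least `m`, then `u v` does not contribute -/
theorem TJ_end (f : MvPolynomial σ K) (W : Set (Pt K σ)) (e d m : ℕ) :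
    TJ f W e d m m = BJ f W e d m m := by
  have hlow : ∀ z : Pt K ((σ ⊕ Bool) × Fin (d + 1)),
      (∀ k < m, PowerSeries.coeff k (ar z (Sum.inr false)) = 0) → ∀ k < m,
      PowerSeries.coeff k (fa f z + ar z (Sum.inr false) * ar z (Sum.inr true)) =
        PowerSeries.coeff k (fa f z) := by
    intro z h4 k hk
    rw [map_add, PowerSeries.coeff_mul, Finset.sum_eq_zero, add_zero]
    intro q hq
    have h6 := Finset.HasAntidiagonal.mem_antidiagonal.1 hq
    rw [h4 _ (by omega), zero_mul]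
  ext z
  constructor
  · rintro ⟨⟨h1, h2⟩, h3, h4⟩
    exact ⟨⟨h1, fun k hk => by rw [← hlow z h3 k hk]; exact h2 k hk⟩, h3, h4⟩
  · rintro ⟨⟨h1, h2⟩, h3, h4⟩
    exact ⟨⟨h1, fun k hk => by rw [hlow z h3 k hk]; exact h2 k hk⟩, h3, h4⟩

theorem chi_TJ (v : R) (hv : M.L * v = 1) (f : MvPolynomial σ K) {W : Set (Pt K σ)}
    (hW : Constr W) (e d m : ℕ) (he : e ≤ 1) (hem : e ≤ m) (hm : m ≤ d + 1) :
    M.χ _ (TJ f W e d m e) = M.L ^ (2 * (d + 1)) *
      ((1 - v) * v ^ m * ∑ j ∈ Finset.Ico e m, M.χ _ (AJ f W d (j + e)) +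
        v ^ (m + e) * M.χ _ (AJ f W d m)) := by
  have hLv : ∀ n : ℕ, M.L ^ n * v ^ n = 1 := fun n => by rw [← mul_pow, hv, one_pow]
  have hB : ∀ J j, j ≤ d + 1 → M.χ _ (BJ f W e d J j) =
      M.χ _ (AJ f W d J) * M.L ^ (2 * (d + 1)) * v ^ (j + e) := by
    intro J j hj
    have h1 := chi_BJ M f hW e d J j hj (by omega)
    rw [← h1, mul_assoc, hLv, mul_one]
  have hlay : ∀ j, e ≤ j → j < m → M.χ _ (TJ f W e d m j) = M.χ _ (TJ f W e d m (j + 1)) +
      M.L ^ (2 * (d + 1)) * ((1 - v) * v ^ m * M.χ _ (AJ f W d (j + e))) := by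
    intro j hj1 hj2
    have h1 := chi_layer M f hW e d m j hj1 (by omega) hm
    rw [hB _ _ (by omega), hB _ _ (by omega)] at h1
    have h2 := hLv (m - j - e)
    have h3 : v ^ m = v ^ (j + e) * v ^ (m - j - e) := by
      rw [← pow_add]
      congr 1
      omega
    have h4 : v ^ (j + 1 + e) = v ^ (j + e) * v := by
      rw [← pow_succ]
      congr 1
      omega
    rw [h4] at h1
    rw [h3]
    linear_combination (v ^ (m - j - e)) * h1 - (M.χ _ (TJ f W e d m j) -
      M.χ _ (TJ f W e d m (j + 1))) * h2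
  have key : ∀ n, e ≤ n → n ≤ m → M.χ _ (TJ f W e d m e) = M.χ _ (TJ f W e d m n) +
      M.L ^ (2 * (d + 1)) * ((1 - v) * v ^ m * ∑ j ∈ Finset.Ico e n, M.χ _ (AJ f W d (j + e))) := by
    intro n hn
    induction n, hn using Nat.le_induction with
    | base =>
      intro _
      rw [Finset.Ico_self, Finset.sum_empty, mul_zero, mul_zero, add_zero]
    | succ n hn ih =>
      intro hnm
      rw [ih (by omega), hlay n hn (by omega), Finset.sum_Ico_succ_top hn]
      ring
  rw [key m hem le_rfl, TJ_end, hB m m hm]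
  ring

/-- the normalised class of the jets of order at least `m` -/
noncomputable def bb (v : R) (f : MvPolynomial σ K) (W : Set (Pt K σ)) (m : ℕ) : R :=
  M.χ _ (AJ f W m m) * v ^ (m * Fintype.card σ)

theorem bb_eq (v : R) (hv : M.L * v = 1) (f : MvPolynomial σ K) {W : Set (Pt K σ)}
    (hW : Constr W) (d m : ℕ) (hm : m ≤ d + 1) :
    M.χ _ (AJ f W d m) * v ^ (d * Fintype.card σ) = bb M v f W m := by
  have hLv : ∀ n : ℕ, M.L ^ n * v ^ n = 1 := fun n => by rw [← mul_pow, hv, one_pow]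
  have h1 : ∀ d m, m ≤ d + 1 → M.χ _ (AJ f W (d + 1) m) * v ^ ((d + 1) * Fintype.card σ) =
      M.χ _ (AJ f W d m) * v ^ (d * Fintype.card σ) := by
    intro d m hm
    rw [chi_AJ_succ M f hW d m hm, Nat.succ_mul, pow_add]
    linear_combination (M.χ _ (AJ f W d m) * v ^ (d * Fintype.card σ)) * hLv (Fintype.card σ)
  have h2 : ∀ k m, M.χ _ (AJ f W (m + k) m) * v ^ ((m + k) * Fintype.card σ) =
      bb M v f W m := by
    intro k m
    induction k with
    | zero => rfl
    | succ k ih => rw [← Nat.add_assoc, h1 _ _ (by omega), ih]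
  rcases Nat.lt_or_ge d m with h | h
  · obtain rfl : m = d + 1 := by omega
    rw [← h1 d (d + 1) le_rfl]
    exact h2 0 (d + 1)
  · obtain ⟨k, rfl⟩ := Nat.exists_eq_add_of_le h
    exact h2 k m

/-- the points over `W`, all of them (`e = 0`) or those with `u = v = 0` (`e = 1`) -/
def WW (W : Set (Pt K σ)) (e : ℕ) : Set (Pt K (σ ⊕ Bool)) :=
  {w | (fun i => w (Sum.inl i)) ∈ W ∧ (0 < e → w (Sum.inr false) = 0 ∧ w (Sum.inr true) = 0)}

theorem mem_TJ (f : MvPolynomial σ K) (W : Set (Pt K σ)) (e d m : ℕ) (he : e ≤ 1)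
    (z : Pt K ((σ ⊕ Bool) × Fin (d + 1))) : z ∈ TJ f W e d m e ↔
      z ∈ AJ (hyp f) (WW W e) d m := by
  unfold TJ AJ WW
  simp only [Set.mem_ofPred_eq, aeval_hyp]
  have h1 : ∀ i : σ ⊕ Bool, (∀ k < e, PowerSeries.coeff k (ar z i) = 0) ↔ (0 < e → z (i, 0) = 0) := by
    intro i
    rcases Nat.le_one_iff_eq_zero_or_eq_one.1 he with rfl | rfl
    · simp
    · constructor
      · intro h _
        rw [← coeff_ar_zero z i]
        exact h 0 one_pos
      · intro h k hk
        obtain rfl : k = 0 := by omega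
        rw [coeff_ar_zero]
        exact h one_pos
  rw [h1, h1]
  tauto

theorem constr_WW {W : Set (Pt K σ)} (hW : Constr W) (e : ℕ) : Constr (WW W e) := by
  refine Constr.and (hW.preimage _ fun i => IsPF.coord _) ?_
  exact Constr.imp' fun _ => Constr.and (Constr.eqz (IsPF.coord _)) (Constr.eqz (IsPF.coord _))

theorem chi_JetS (f : MvPolynomial σ K) {W : Set (Pt K σ)} (hW : Constr W) (d : ℕ) :
    M.χ _ (JetS f W {c | c ≠ 0} d) = M.χ _ (AJ f W d d) - M.χ _ (AJ f W d (d + 1)) := by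
  have h1 : AJ f W d d = JetS f W {c | c ≠ 0} d ∪ AJ f W d (d + 1) := by
    ext z
    simp only [AJ, JetS, Set.mem_union, Set.mem_ofPred_eq]
    constructor
    · rintro ⟨h1, h2⟩
      by_cases h3 : PowerSeries.coeff d (aeval (ar z) f) = 0
      · right
        refine ⟨h1, fun k hk => ?_⟩
        rcases Nat.lt_succ_iff_lt_or_eq.1 hk with h4 | rfl
        · exact h2 k h4
        · exact h3
      · left
        exact ⟨h1, h2, h3⟩
    · rintro (⟨h1, h2, _⟩ | ⟨h1, h2⟩)
      · exact ⟨h1, h2⟩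
      · exact ⟨h1, fun k hk => h2 k (by omega)⟩
  have h2 : Constr (JetS f W {c | c ≠ 0} d) := by
    refine Constr.and (hW.preimage _ fun i => IsPF.coord _) (Constr.and ?_ ?_)
    · exact Constr.allLt _ fun k _ => Constr.eqz (pf_ck _ (fun i => IsPF.coord _) _ _)
    · exact Constr.not (Constr.eqz (pf_ck _ (fun i => IsPF.coord _) _ _))
  have h3 := M.add _ _ h2 (constr_AJ f hW d (d + 1)) (by
    rw [Set.disjoint_left]
    rintro z ⟨_, _, h4⟩ ⟨_, h5⟩
    exact h4 (h5 d (by omega)))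
  rw [← h1] at h3
  rw [h3, add_sub_cancel_right]

/-- the coefficients of the zeta function of `f` -/
noncomputable def aa (v : R) (f : MvPolynomial σ K) (W : Set (Pt K σ)) (d : ℕ) : R :=
  M.χ _ (JetS f W {c | c ≠ 0} d) * v ^ (d * Fintype.card σ)

theorem aa_eq (v : R) (hv : M.L * v = 1) (f : MvPolynomial σ K) {W : Set (Pt K σ)}
    (hW : Constr W) (d : ℕ) : aa M v f W d = bb M v f W d - bb M v f W (d + 1) := by
  rw [aa, chi_JetS M f hW, sub_mul, bb_eq M v hv f hW d d (by omega),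
    bb_eq M v hv f hW d (d + 1) le_rfl]

theorem aa_hyp (v : R) (hv : M.L * v = 1) (f : MvPolynomial σ K) {W : Set (Pt K σ)}
    (hW : Constr W) (e d : ℕ) (he : e ≤ 1) (hed : e ≤ d) :
    aa M v (hyp f) (WW W e) d = v ^ d * (M.L * aa M v f W d +
      (M.L - 1) ^ 2 * ∑ i ∈ Finset.Ico (2 * e) (d + 1), bb M v f W i) := by
  have hLv : ∀ n : ℕ, M.L ^ n * v ^ n = 1 := fun n => by rw [← mul_pow, hv, one_pow]
  have h1 : ∀ m, M.χ _ (AJ (hyp f) (WW W e) d m) = M.χ _ (TJ f W e d m e) := by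
    intro m
    congr 1
    ext z
    exact (mem_TJ f W e d m he z).symm
  have hsum : ∀ m, m ≤ d + 1 →
      (∑ j ∈ Finset.Ico e m, M.χ _ (AJ f W d (j + e))) * v ^ (d * Fintype.card σ) =
      ∑ i ∈ Finset.Ico (e + e) (m + e), bb M v f W i := by
    intro m hm
    rw [Finset.sum_mul, ← Finset.sum_Ico_add']
    refine Finset.sum_congr rfl fun j hj => ?_
    have := Finset.mem_Ico.1 hj
    exact bb_eq M v hv f hW d (j + e) (by omega)
  have hL2 : M.L ^ (2 * (d + 1)) * v ^ (d * (Fintype.card σ + 2)) =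
      M.L ^ 2 * v ^ (d * Fintype.card σ) := by
    have h2 : v ^ (d * (Fintype.card σ + 2)) = v ^ (2 * d) * v ^ (d * Fintype.card σ) := by
      rw [← pow_add]
      congr 1
      ring
    rw [h2, Nat.mul_add, Nat.mul_one, pow_add]
    linear_combination (M.L ^ 2 * v ^ (d * Fintype.card σ)) * hLv (2 * d)
  have hA : ∀ m, m ≤ d + 1 → M.χ _ (AJ f W d m) * v ^ (d * Fintype.card σ) = bb M v f W m :=
    fun m hm => bb_eq M v hv f hW d m hm
  have h2 : aa M v (hyp f) (WW W e) d = M.L ^ 2 *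
      ((1 - v) * v ^ d * ∑ i ∈ Finset.Ico (e + e) (d + e), bb M v f W i +
        v ^ (d + e) * bb M v f W d -
      ((1 - v) * v ^ (d + 1) * ∑ i ∈ Finset.Ico (e + e) (d + 1 + e), bb M v f W i +
        v ^ (d + 1 + e) * bb M v f W (d + 1))) := by
    rw [aa, chi_JetS M (hyp f) (constr_WW hW e), h1, h1, chi_TJ M v hv f hW e d d he hed (by omega),
      chi_TJ M v hv f hW e d (d + 1) he (by omega) le_rfl, Fintype.card_sum, Fintype.card_bool,
      ← hsum d (by omega), ← hsum (d + 1) le_rfl, ← hA d (by omega), ← hA (d + 1) le_rfl]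
    linear_combination ((1 - v) * v ^ d * ∑ j ∈ Finset.Ico e d, M.χ _ (AJ f W d (j + e)) +
        v ^ (d + e) * M.χ _ (AJ f W d d) -
      ((1 - v) * v ^ (d + 1) * ∑ j ∈ Finset.Ico e (d + 1), M.χ _ (AJ f W d (j + e)) +
        v ^ (d + 1 + e) * M.χ _ (AJ f W d (d + 1)))) * hL2
  rw [h2, aa_eq M v hv f hW]
  rcases Nat.le_one_iff_eq_zero_or_eq_one.1 he with rfl | rfl
  · simp only [Nat.add_zero, Nat.mul_zero]
    rw [Finset.sum_Ico_succ_top (Nat.zero_le d)]
    set S := ∑ i ∈ Finset.Ico 0 d, bb M v f W i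
    linear_combination (v ^ d * (S * (M.L * v + 1 - 2 * M.L) +
      bb M v f W d * (M.L * v + 1 - M.L) - M.L * bb M v f W (d + 1))) * hv
  · rw [Finset.sum_Ico_succ_top (by omega : 1 + 1 ≤ d + 1)]
    simp only [Nat.mul_one]
    set S := ∑ i ∈ Finset.Ico 2 (d + 1), bb M v f W i
    change M.L ^ 2 * ((1 - v) * v ^ d * S + v ^ (d + 1) * bb M v f W d -
      ((1 - v) * v ^ (d + 1) * (S + bb M v f W (d + 1)) +
        v ^ (d + 1 + 1) * bb M v f W (d + 1))) = _
    linear_combination (v ^ d * (S * (M.L * v + 1 - 2 * M.L) +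
      bb M v f W d * M.L - M.L * bb M v f W (d + 1))) * hv

/-- the zeta function, as a power series -/
noncomputable def zz (v : R) (f : MvPolynomial σ K) (W : Set (Pt K σ)) : PowerSeries R :=
  PowerSeries.mk fun d => aa M v f W d

/-- the geometric series `1 / (1 - T)` -/
noncomputable def g1 (R : Type) [CommRing R] : PowerSeries R := PowerSeries.mk fun _ => 1

theorem g1_mul : (1 - PowerSeries.X) * g1 R = 1 := by
  rw [mul_comm]
  exact PowerSeries.mk_one_mul_one_sub_eq_one R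

theorem sum_series (b : ℕ → R) : (PowerSeries.mk fun d => ∑ i ∈ Finset.range (d + 1), b i) =
    g1 R * PowerSeries.mk b := by
  ext d
  rw [PowerSeries.coeff_mk, mul_comm, PowerSeries.coeff_mul,
    Finset.Nat.sum_antidiagonal_eq_sum_range_succ_mk]
  refine Finset.sum_congr rfl fun i _ => ?_
  simp only [g1, PowerSeries.coeff_mk, mul_one]

/-- **The zeta function of `f + u v`**, all points over `W`. -/
theorem zz_hyp (v : R) (hv : M.L * v = 1) (f : MvPolynomial σ K) {W : Set (Pt K σ)}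
    (hW : Constr W) : zz M v (hyp f) (WW W 0) = PowerSeries.rescale v
      (PowerSeries.C M.L * zz M v f W + PowerSeries.C ((M.L - 1) ^ 2) * (g1 R * g1 R) *
        (PowerSeries.C (bb M v f W 0) - PowerSeries.X * zz M v f W)) := by
  have h1 : g1 R * (PowerSeries.C (bb M v f W 0) - PowerSeries.X * zz M v f W) =
      PowerSeries.mk (bb M v f W) := by
    have h2 : PowerSeries.C (bb M v f W 0) - PowerSeries.X * zz M v f W =
        (1 - PowerSeries.X) * PowerSeries.mk (bb M v f W) := by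
      ext d
      rw [sub_mul, one_mul, map_sub, map_sub]
      rcases d with _ | d
      · rw [PowerSeries.coeff_zero_C, PowerSeries.coeff_zero_X_mul, PowerSeries.coeff_zero_X_mul,
          PowerSeries.coeff_mk]
      · rw [PowerSeries.coeff_succ_C, PowerSeries.coeff_succ_X_mul, PowerSeries.coeff_succ_X_mul,
          PowerSeries.coeff_mk, PowerSeries.coeff_mk, zz, PowerSeries.coeff_mk, aa_eq M v hv f hW]
        ring
    rw [h2, ← mul_assoc, mul_comm (g1 R), g1_mul, one_mul]
  have h3 : PowerSeries.C ((M.L - 1) ^ 2) * (g1 R * g1 R) *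
        (PowerSeries.C (bb M v f W 0) - PowerSeries.X * zz M v f W) =
      PowerSeries.C ((M.L - 1) ^ 2) *
        PowerSeries.mk fun d => ∑ i ∈ Finset.range (d + 1), bb M v f W i := by
    rw [sum_series, ← h1]
    ring
  rw [h3]
  ext d
  rw [zz, PowerSeries.coeff_mk, PowerSeries.coeff_rescale, map_add, PowerSeries.coeff_C_mul,
    PowerSeries.coeff_C_mul, PowerSeries.coeff_mk, zz, PowerSeries.coeff_mk,
    aa_hyp M v hv f hW 0 d (by omega) (by omega), Finset.range_eq_Ico, Nat.mul_zero]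

theorem bb_zero (v : R) (f : MvPolynomial σ K) (W : Set (Pt K σ)) :
    bb M v f W 0 = M.χ _ (AJ f W 0 0) := by
  rw [bb, Nat.zero_mul, pow_zero, mul_one]

theorem bb_univ (v : R) (f : MvPolynomial σ K) :
    bb M v f (Set.univ) 0 = M.L ^ Fintype.card σ := by
  rw [bb_zero]
  have h1 : AJ f (Set.univ : Set (Pt K σ)) 0 0 = Set.univ := by
    ext z
    simp [AJ]
  rw [h1, chi_univ, Fintype.card_prod, Fintype.card_fin, Nat.zero_add, Nat.mul_one]

end chi

end Pool.Agent.Helper33K9.HP
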